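import Pool.Agent.H59.K3.GR

/-!
Homogeneous cochains with coefficients in `F₂`.
-/

namespace Pool.K3H

open Function

/-- homogeneous cochains (not necessarily invariant) -/
abbrev C (G : Type) (j : ℕ) : Type := (Fin (j + 1) → G) → ZMod 2

/-- the coboundary (characteristic 2, so there are no signs) -/
def del {G : Type} {j : ℕ} (E : C G j) : C G (j + 1) :=
  fun s => ∑ k : Fin (j + 2), E (fun i => s (k.succAbove i))

theorem del_add {G : Type} {j : ℕ} (E E' : C G j) : del (E + E') = del E + del E' := by
  funext s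
  simp [del, Finset.sum_add_distrib]

theorem del_sub {G : Type} {j : ℕ} (E E' : C G j) : del (E - E') = del E - del E' := by
  funext s
  simp [del, Finset.sum_sub_distrib]

theorem del_zero {G : Type} {j : ℕ} : del (0 : C G j) = 0 := by
  funext s
  simp [del]

/-- the coboundary as a homomorphism -/
def delH (G : Type) (j : ℕ) : C G j →+ C G (j + 1) where
  toFun := del
  map_zero' := del_zero
  map_add' := del_add

theorem two_eq_zero' : (2 : ZMod 2) = 0 := by decide

theorem del_del0 {G : Type} (E : C G 0) : del (del E) = 0 := by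
  funext s
  have key : ∀ (k : Fin 3) (l : Fin 2),
      E (fun i => s (k.succAbove (l.succAbove i))) = E (fun _ => s (k.succAbove (l.succAbove 0))) :=
    fun k l => by
      congr 1
      funext i
      fin_cases i
      rfl
  change ∑ k : Fin 3, ∑ l : Fin 2, E (fun i => s (k.succAbove (l.succAbove i))) = 0
  simp only [key]
  simp only [Fin.sum_univ_three, Fin.sum_univ_two]
  have h00 : (0 : Fin 3).succAbove ((0 : Fin 2).succAbove (0 : Fin 1)) = 2 := by decide
  have h01 : (0 : Fin 3).succAbove ((1 : Fin 2).succAbove (0 : Fin 1)) = 1 := by decide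
  have h10 : (1 : Fin 3).succAbove ((0 : Fin 2).succAbove (0 : Fin 1)) = 2 := by decide
  have h11 : (1 : Fin 3).succAbove ((1 : Fin 2).succAbove (0 : Fin 1)) = 0 := by decide
  have h20 : (2 : Fin 3).succAbove ((0 : Fin 2).succAbove (0 : Fin 1)) = 1 := by decide
  have h21 : (2 : Fin 3).succAbove ((1 : Fin 2).succAbove (0 : Fin 1)) = 0 := by decide
  simp only [h00, h01, h10, h11, h20, h21]
  linear_combination (E (fun _ => s 0) + E (fun _ => s 1) + E (fun _ => s 2)) * two_eq_zero'

theorem del_del1 {G : Type} (E : C G 1) : del (del E) = 0 := by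
  funext s
  have key : ∀ (k : Fin 4) (l : Fin 3),
      E (fun i => s (k.succAbove (l.succAbove i))) =
        E ![s (k.succAbove (l.succAbove 0)), s (k.succAbove (l.succAbove 1))] :=
    fun k l => by
      congr 1
      funext i
      fin_cases i <;> rfl
  change ∑ k : Fin 4, ∑ l : Fin 3, E (fun i => s (k.succAbove (l.succAbove i))) = 0
  simp only [key]
  simp only [Fin.sum_univ_four, Fin.sum_univ_three]
  have h000 : (0 : Fin 4).succAbove ((0 : Fin 3).succAbove (0 : Fin 2)) = 2 := by decide
  have h001 : (0 : Fin 4).succAbove ((0 : Fin 3).succAbove (1 : Fin 2)) = 3 := by decide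
  have h010 : (0 : Fin 4).succAbove ((1 : Fin 3).succAbove (0 : Fin 2)) = 1 := by decide
  have h011 : (0 : Fin 4).succAbove ((1 : Fin 3).succAbove (1 : Fin 2)) = 3 := by decide
  have h020 : (0 : Fin 4).succAbove ((2 : Fin 3).succAbove (0 : Fin 2)) = 1 := by decide
  have h021 : (0 : Fin 4).succAbove ((2 : Fin 3).succAbove (1 : Fin 2)) = 2 := by decide
  have h100 : (1 : Fin 4).succAbove ((0 : Fin 3).succAbove (0 : Fin 2)) = 2 := by decide
  have h101 : (1 : Fin 4).succAbove ((0 : Fin 3).succAbove (1 : Fin 2)) = 3 := by decide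
  have h110 : (1 : Fin 4).succAbove ((1 : Fin 3).succAbove (0 : Fin 2)) = 0 := by decide
  have h111 : (1 : Fin 4).succAbove ((1 : Fin 3).succAbove (1 : Fin 2)) = 3 := by decide
  have h120 : (1 : Fin 4).succAbove ((2 : Fin 3).succAbove (0 : Fin 2)) = 0 := by decide
  have h121 : (1 : Fin 4).succAbove ((2 : Fin 3).succAbove (1 : Fin 2)) = 2 := by decide
  have h200 : (2 : Fin 4).succAbove ((0 : Fin 3).succAbove (0 : Fin 2)) = 1 := by decide
  have h201 : (2 : Fin 4).succAbove ((0 : Fin 3).succAbove (1 : Fin 2)) = 3 := by decide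
  have h210 : (2 : Fin 4).succAbove ((1 : Fin 3).succAbove (0 : Fin 2)) = 0 := by decide
  have h211 : (2 : Fin 4).succAbove ((1 : Fin 3).succAbove (1 : Fin 2)) = 3 := by decide
  have h220 : (2 : Fin 4).succAbove ((2 : Fin 3).succAbove (0 : Fin 2)) = 0 := by decide
  have h221 : (2 : Fin 4).succAbove ((2 : Fin 3).succAbove (1 : Fin 2)) = 1 := by decide
  have h300 : (3 : Fin 4).succAbove ((0 : Fin 3).succAbove (0 : Fin 2)) = 1 := by decide
  have h301 : (3 : Fin 4).succAbove ((0 : Fin 3).succAbove (1 : Fin 2)) = 2 := by decide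
  have h310 : (3 : Fin 4).succAbove ((1 : Fin 3).succAbove (0 : Fin 2)) = 0 := by decide
  have h311 : (3 : Fin 4).succAbove ((1 : Fin 3).succAbove (1 : Fin 2)) = 2 := by decide
  have h320 : (3 : Fin 4).succAbove ((2 : Fin 3).succAbove (0 : Fin 2)) = 0 := by decide
  have h321 : (3 : Fin 4).succAbove ((2 : Fin 3).succAbove (1 : Fin 2)) = 1 := by decide
  simp only [h000, h001, h010, h011, h020, h021, h100, h101, h110, h111, h120, h121,
    h200, h201, h210, h211, h220, h221, h300, h301, h310, h311, h320, h321]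
  linear_combination (E ![s 0, s 1] + E ![s 0, s 2] + E ![s 0, s 3] + E ![s 1, s 2] +
    E ![s 1, s 3] + E ![s 2, s 3]) * two_eq_zero'

theorem del_cons {G : Type} {j : ℕ} (E : C G (j + 1)) (g : G) (s : Fin (j + 2) → G) :
    del E (Fin.cons g s : Fin (j + 3) → G) =
      E s + del (fun t : Fin (j + 1) → G => E (Fin.cons g t : Fin (j + 2) → G)) s := by
  unfold del
  rw [Fin.sum_univ_succ]
  congr 1
  refine Finset.sum_congr rfl fun k _ => ?_
  congr 1
  funext i
  refine Fin.cases ?_ (fun i' => ?_) i
  · rw [Fin.succ_succAbove_zero, Fin.cons_zero, Fin.cons_zero]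
  · rw [Fin.succ_succAbove_succ, Fin.cons_succ, Fin.cons_succ]

variable {G : Type} [Group G]

/-- equivariance under a subgroup -/
def Eqv {P : Type} [AddCommGroup P] [Module (GA G) P] {j : ℕ} (N : Subgroup G)
    (x : P →+ C G j) : Prop :=
  ∀ n ∈ N, ∀ p s, x (u n • p) (fun i => n * s i) = x p s

theorem lin_sum {ι : Type} (t : Finset ι) (F : ι → G → ZMod 2) (a : GA G) :
    ∑ i ∈ t, lin (F i) a = lin (fun g => ∑ i ∈ t, F i g) a := by
  induction a using GA.ind with
  | h0 => simp
  | hu g => simp
  | hadd a b ha hb => simp only [map_add, Finset.sum_add_distrib, ha, hb]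

theorem lin_smul {P : Type} [AddCommGroup P] [Module (GA G) P] (L : P →+ ZMod 2) (e : P)
    (a : GA G) : lin (fun g => L (u g • e)) a = L (a • e) := by
  induction a using GA.ind with
  | h0 => simp
  | hu g => simp
  | hadd a b ha hb => rw [map_add, ha, hb, add_smul, map_add]

/-- exactness in the cochain direction -/
theorem cex {P : Type} [AddCommGroup P] [Module (GA G) P] [Module.Finite (GA G) P]
    [Module.Projective (GA G) P] {j : ℕ} (x : P →+ C G (j + 1)) (hx : Eqv ⊤ x)
    (hd : ∀ p, del (x p) = 0) : ∃ y : P →+ C G j, Eqv ⊤ y ∧ ∀ p, del (y p) = x p := by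
  obtain ⟨m, e, c, h⟩ := exists_dual_basis (G := G) P
  refine ⟨⟨⟨fun p s => ∑ i, lin (fun g => x (u g • e i) (Fin.cons g s)) (c i p), ?_⟩, ?_⟩, ?_, ?_⟩
  · funext s
    simp
  · intro p q
    funext s
    simp only [map_add, Pi.add_apply, Finset.sum_add_distrib]
  · intro n _ p s
    change ∑ i, lin (fun g => x (u g • e i) (Fin.cons g fun i => n * s i)) (c i (u n • p)) =
      ∑ i, lin (fun g => x (u g • e i) (Fin.cons g s)) (c i p)
    refine Finset.sum_congr rfl fun i _ => ?_
    rw [map_smul, smul_eq_mul, lin_u_mul]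
    congr 2
    funext g
    have := hx n trivial (u g • e i) (Fin.cons g s)
    rw [← this, smul_smul, ← u_mul]
    refine congrArg _ (funext fun k => ?_)
    refine Fin.cases ?_ (fun k' => ?_) k
    · rw [Fin.cons_zero, Fin.cons_zero]
    · rw [Fin.cons_succ, Fin.cons_succ]
  · intro p
    funext s
    change ∑ k : Fin (j + 2), ∑ i, lin (fun g => x (u g • e i)
      (Fin.cons g (fun l => s (k.succAbove l)))) (c i p) = x p s
    rw [Finset.sum_comm]
    have h1 : ∀ i, ∑ k : Fin (j + 2), lin (fun g => x (u g • e i)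
        (Fin.cons g (fun l => s (k.succAbove l)))) (c i p) = x (c i p • e i) s := by
      intro i
      rw [lin_sum]
      have h2 : (fun g => ∑ k : Fin (j + 2), x (u g • e i)
          (Fin.cons g (fun l => s (k.succAbove l)))) = fun g => x (u g • e i) s := by
        funext g
        have h3 := del_cons (x (u g • e i)) g s
        rw [hd] at h3
        have h4 : del (fun t : Fin (j + 1) → G => x (u g • e i) (Fin.cons g t)) s =
            ∑ k : Fin (j + 2), x (u g • e i) (Fin.cons g (fun l => s (k.succAbove l))) := rfl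
        rw [← h4]
        have h5 : (0 : ZMod 2) = x (u g • e i) s +
          del (fun t : Fin (j + 1) → G => x (u g • e i) (Fin.cons g t)) s := h3
        linear_combination (-1) * h5 - (x (u g • e i) s) * two_eq_zero'
      rw [h2]
      exact lin_smul ((Pi.evalAddMonoidHom (fun _ : Fin (j + 2) → G => ZMod 2) s).comp x) (e i) _
    rw [Finset.sum_congr rfl fun i _ => h1 i]
    conv_rhs => rw [h p]
    rw [map_sum, Finset.sum_apply]

end Pool.K3H
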