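import Pool.Agent.H59.K3.GR

/-!
The duality step: if the mod 2 transfer `G → N` vanishes then, for a Poincaré duality group of
dimension 4 over `F₂`, every class in `H³(G; F₂)` restricts to zero in `H³(N; F₂)`, in terms
of the given resolution.
-/

namespace Pool.K3H

open Function

variable {G : Type} [Group G]

/-- right multiplication on `Hom(P, F₂[G])` -/
noncomputable def rmul {P : Type} [AddCommGroup P] [Module (GA G) P] (φ : P →ₗ[GA G] GA G)
    (a : GA G) : P →ₗ[GA G] GA G := (LinearMap.toSpanSingleton (GA G) (GA G) a) ∘ₗ φ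

@[simp] theorem rmul_apply {P : Type} [AddCommGroup P] [Module (GA G) P]
    (φ : P →ₗ[GA G] GA G) (a : GA G) (x : P) : rmul φ a x = φ x * a := by
  simp [rmul]

section
variable {P : Type} [AddCommGroup P] [Module (GA G) P]

theorem rmul_add (φ : P →ₗ[GA G] GA G) (a b : GA G) : rmul φ (a + b) = rmul φ a + rmul φ b := by
  ext x; simp [mul_add]

theorem rmul_sub (φ : P →ₗ[GA G] GA G) (a b : GA G) : rmul φ (a - b) = rmul φ a - rmul φ b := by
  ext x; simp [mul_sub]

theorem rmul_neg (φ : P →ₗ[GA G] GA G) (a : GA G) : rmul φ (-a) = - rmul φ a := by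
  ext x; simp

theorem rmul_zero (φ : P →ₗ[GA G] GA G) : rmul φ 0 = 0 := by
  ext x; simp

theorem rmul_one (φ : P →ₗ[GA G] GA G) : rmul φ 1 = φ := by
  ext x; simp

theorem add_rmul (φ ψ : P →ₗ[GA G] GA G) (a : GA G) : rmul (φ + ψ) a = rmul φ a + rmul ψ a := by
  ext x; simp [add_mul]

theorem sub_rmul (φ ψ : P →ₗ[GA G] GA G) (a : GA G) : rmul (φ - ψ) a = rmul φ a - rmul ψ a := by
  ext x; simp [sub_mul]

theorem rmul_rmul (φ : P →ₗ[GA G] GA G) (a b : GA G) : rmul (rmul φ a) b = rmul φ (a * b) := by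
  ext x; simp [mul_assoc]

/-- invariant functionals -/
theorem inv_smul {v : P →+ ZMod 2} (hv : ∀ (g : G) x, v (u g • x) = v x) (a : GA G) (x : P) :
    v (a • x) = aug a * v x := by
  induction a using GA.ind with
  | h0 => simp
  | hu g => simp [hv]
  | hadd a b ha hb => rw [add_smul, map_add, map_add, ha, hb, add_mul]

end

/-- the duality step -/
theorem core (R : PD4 G) (N : Subgroup G) (hN : TrZero N) (v : R.P 3 →+ ZMod 2)
    (hv : ∀ (g : G) x, v (u g • x) = v x) (hv0 : ∀ y, v (R.d 3 y) = 0) :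
    ∃ w : R.P 2 →+ ZMod 2, (∀ n ∈ N, ∀ x, w (u n • x) = w x) ∧ ∀ x, v x = w (R.d 2 x) := by
  classical
  obtain ⟨ν, hν1, hν2⟩ := hN
  -- lift of `v`
  obtain ⟨m, e₃, c₃, h₃⟩ := exists_dual_basis (G := G) (R.P 3)
  let sc : ZMod 2 → GA G := fun r => r • (1 : GA G)
  have aug_sc : ∀ r, aug (sc r) = r := by
    intro r
    rcases zmod2_cases r with hr | hr
    · subst hr; simp [sc]
    · subst hr; simp [sc]
  let vh : R.P 3 →ₗ[GA G] GA G := ∑ i, rmul (c₃ i) (sc (v (e₃ i)))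
  have hvh : ∀ x, aug (vh x) = v x := by
    intro x
    conv_rhs => rw [h₃ x]
    rw [map_sum]
    simp only [vh, LinearMap.sum_apply, rmul_apply, map_sum, aug_mul, aug_sc, inv_smul hv]
  -- dual basis of `P₄`
  obtain ⟨m', e, c, h₄⟩ := exists_dual_basis (G := G) (R.P 4)
  obtain ⟨π, hπs, hπ⟩ := R.dual_top
  have hπr0 : ∀ φ (g : G), π φ = 0 → π (rmul φ (u g)) = 0 := by
    intro φ g h
    obtain ⟨ψ, hψ⟩ := (hπ φ).1 h
    refine (hπ _).2 ⟨rmul ψ (u g), ?_⟩
    ext x
    simp [hψ]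
  have hπu : ∀ φ (g : G), π (rmul φ (u g)) = π φ := by
    intro φ g
    apply zmod2_eq
    refine ⟨fun h => ?_, hπr0 φ g⟩
    have := hπr0 _ g⁻¹ h
    rwa [rmul_rmul, u_mul_u_inv, rmul_one] at this
  have hπa : ∀ φ a, π (rmul φ a) = π φ * aug a := by
    intro φ a
    induction a using GA.ind with
    | h0 => simp [rmul_zero]
    | hu g => simp [hπu]
    | hadd a b ha hb => rw [rmul_add, map_add, map_add, ha, hb, mul_add]
  obtain ⟨ρ, hρ⟩ := hπs 1
  have hexp : ∀ φ : R.P 4 →ₗ[GA G] GA G, φ = ∑ i, rmul (c i) (φ (e i)) := by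
    intro φ
    ext x
    conv_lhs => rw [h₄ x]
    simp [map_sum]
  let α : (R.P 4 →ₗ[GA G] GA G) → GA G := fun φ => ∑ i, sc (π (c i)) * φ (e i)
  have hα : ∀ φ, aug (α φ) = π φ := by
    intro φ
    conv_rhs => rw [hexp φ]
    simp only [α, map_sum, aug_mul, aug_sc, hπa]
  have hαr : ∀ φ a, α (rmul φ a) = α φ * a := by
    intro φ a
    simp only [α, rmul_apply, Finset.sum_mul, mul_assoc]
  have hαa : ∀ φ ψ, α (φ + ψ) = α φ + α ψ := by
    intro φ ψ
    simp only [α, LinearMap.add_apply, mul_add, Finset.sum_add_distrib]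
  let s : (R.P 4 →ₗ[GA G] GA G) → (R.P 4 →ₗ[GA G] GA G) := fun φ => φ - rmul ρ (α φ)
  have hs : ∀ φ, π (s φ) = 0 := by
    intro φ
    simp only [s, map_sub, hπa, hρ, hα, one_mul, sub_self]
  have hsr : ∀ φ a, s (rmul φ a) = rmul (s φ) a := by
    intro φ a
    simp only [s, sub_rmul, rmul_rmul, hαr]
  have hsa : ∀ φ ψ, s (φ + ψ) = s φ + s ψ := by
    intro φ ψ
    simp only [s, hαa, rmul_add]
    abel
  have hs0 : s 0 = 0 := by
    have := hsa 0 0
    rw [add_zero] at this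
    exact left_eq_add.1 this
  have hssum : ∀ (t : Finset (Fin m')) (f : Fin m' → (R.P 4 →ₗ[GA G] GA G)),
      s (∑ i ∈ t, f i) = ∑ i ∈ t, s (f i) := by
    intro t f
    induction t using Finset.induction_on with
    | empty => simp [hs0]
    | insert a t ha ih => rw [Finset.sum_insert ha, Finset.sum_insert ha, hsa, ih]
  -- the subgroup `Z (N - 1)`
  let W : AddSubgroup (R.P 4 →ₗ[GA G] GA G) :=
    AddSubgroup.closure {x | ∃ ψ, π ψ = 0 ∧ ∃ n ∈ N, x = rmul ψ (u n - 1)}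
  have hJW : ∀ φ, ∀ b ∈ J N, rmul φ b ∈ W := by
    intro φ b hb
    induction hb using AddSubgroup.closure_induction with
    | mem x hx =>
      obtain ⟨g, n, hn, rfl⟩ := hx
      refine AddSubgroup.subset_closure ⟨rmul φ (u g - 1), ?_, n, hn, ?_⟩
      · rw [hπa]
        simp
      · rw [rmul_rmul]
    | zero => rw [rmul_zero]; exact zero_mem _
    | add x y _ _ hx hy => rw [rmul_add]; exact add_mem hx hy
    | neg x _ hx => rw [rmul_neg]; exact neg_mem hx
  have hIJ : ∀ a ∈ IG G, a * ν ∈ J N := by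
    intro a ha
    induction ha using AddSubgroup.closure_induction with
    | mem x hx =>
      obtain ⟨g, rfl⟩ := hx
      exact hν2 g
    | zero => rw [zero_mul]; exact zero_mem _
    | add x y _ _ hx hy => rw [add_mul]; exact add_mem hx hy
    | neg x _ hx => rw [neg_mul]; exact neg_mem hx
  -- the element `z`
  let z : R.P 4 →ₗ[GA G] GA G := vh ∘ₗ R.d 3
  have hz1 : ∀ x, z x ∈ IG G := by
    intro x
    apply mem_IG
    simp only [z, LinearMap.comp_apply, hvh, hv0]
  have hz2 : π z = 0 := (hπ z).2 ⟨vh, rfl⟩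
  have hz3 : rmul z ν ∈ W := by
    have e1 : z = rmul ρ (α z) + s z := by simp only [s]; abel
    have e2 : s z = ∑ i, rmul (s (c i)) (z (e i)) := by
      conv_lhs => rw [hexp z]
      rw [hssum]
      exact Finset.sum_congr rfl fun i _ => hsr _ _
    rw [e1, add_rmul, rmul_rmul, e2]
    have e3 : rmul (∑ i, rmul (s (c i)) (z (e i))) ν = ∑ i, rmul (s (c i)) (z (e i) * ν) := by
      ext x
      simp [Finset.sum_mul, mul_assoc]
    rw [e3]
    refine add_mem (hJW _ _ (hIJ _ (mem_IG ?_))) (sum_mem fun i _ => hJW _ _ (hIJ _ (hz1 _)))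
    rw [hα, hz2]
  have hW : ∀ x ∈ W, ∃ y : R.P 3 →ₗ[GA G] GA G, x = y ∘ₗ R.d 3 ∧ ∀ p, tau N (y p) = 0 := by
    intro x hx
    induction hx using AddSubgroup.closure_induction with
    | mem x hx =>
      obtain ⟨ψ, hψ, n, hn, rfl⟩ := hx
      obtain ⟨ψ', rfl⟩ := (hπ ψ).1 hψ
      refine ⟨rmul ψ' (u n - 1), ?_, fun p => ?_⟩
      · ext q; simp
      · rw [rmul_apply, mul_sub, mul_one, map_sub, tau_mul_u N hn, sub_self]
    | zero => exact ⟨0, by simp, by simp⟩
    | add x y _ _ hx hy =>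
      obtain ⟨x', hx1, hx2⟩ := hx
      obtain ⟨y', hy1, hy2⟩ := hy
      refine ⟨x' + y', ?_, fun p => ?_⟩
      · rw [hx1, hy1, LinearMap.add_comp]
      · rw [LinearMap.add_apply, map_add, hx2, hy2, add_zero]
    | neg x _ hx =>
      obtain ⟨x', hx1, hx2⟩ := hx
      refine ⟨-x', ?_, fun p => ?_⟩
      · rw [hx1, LinearMap.neg_comp]
      · rw [LinearMap.neg_apply, map_neg, hx2, neg_zero]
  obtain ⟨y, hy1, hy2⟩ := hW _ hz3
  have hk : (rmul vh ν - y) ∘ₗ R.d 3 = 0 := by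
    rw [LinearMap.sub_comp, ← hy1]
    ext x
    simp [z]
  obtain ⟨ω, hω⟩ := R.dual 2 (by omega) _ hk
  refine ⟨(tau N).comp ω.toAddMonoidHom, fun n hn x => ?_, fun x => ?_⟩
  · change tau N (ω (u n • x)) = tau N (ω x)
    rw [map_smul, smul_eq_mul, tau_u_mul N hn]
  · change v x = tau N (ω (R.d 2 x))
    have h5 : ω (R.d 2 x) = rmul vh ν x - y x := by
      have := LinearMap.congr_fun hω x
      rw [LinearMap.comp_apply] at this
      rw [← this, LinearMap.sub_apply]
    rw [h5, map_sub, rmul_apply, hν1, hvh, hy2, sub_zero]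

end Pool.K3H
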