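import Mathlib

/-!
MP_a985a5_al: Poincaré duality groups of dimension 4 over `F₂` and the group ring `F₂[G]`.
-/

namespace Pool.K3H

/-- the group ring `F₂[G]` -/
abbrev GA (G : Type) [Group G] : Type := MonoidAlgebra (ZMod 2) G

/-- the group element `g` in `F₂[G]` -/
noncomputable def u {G : Type} [Group G] (g : G) : GA G := MonoidAlgebra.of (ZMod 2) G g

/-- `G` is a Poincaré duality group of dimension 4 over `F₂`: the trivial module `F₂` has a
resolution `0 → P₄ → P₃ → P₂ → P₁ → P₀ → F₂ → 0` by finitely generated projective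
`F₂[G]`-modules, `Hⁱ(Hom(P, F₂[G])) = 0` for `i ≤ 3`, and `H⁴(Hom(P, F₂[G]))` has two elements. -/
structure PD4 (G : Type) [Group G] where
  P : ℕ → Type
  [acg : ∀ i, AddCommGroup (P i)]
  [mod : ∀ i, Module (GA G) (P i)]
  [fin : ∀ i, Module.Finite (GA G) (P i)]
  [proj : ∀ i, Module.Projective (GA G) (P i)]
  /-- the differentials -/
  d : ∀ i, P (i + 1) →ₗ[GA G] P i
  /-- the augmentation, a map onto the trivial module `F₂` -/
  ε : P 0 →+ ZMod 2
  ε_inv : ∀ (g : G) (x : P 0), ε (u g • x) = ε x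
  ε_surj : Function.Surjective ε
  exact_zero : ∀ x, ε x = 0 ↔ ∃ y, d 0 y = x
  exact : ∀ (i : ℕ) (x : P (i + 1)), d i x = 0 ↔ ∃ y, d (i + 1) y = x
  length : ∀ i, 4 < i → Subsingleton (P i)
  dual_zero : ∀ φ : P 0 →ₗ[GA G] GA G, φ ∘ₗ d 0 = 0 → φ = 0
  dual : ∀ i < 3, ∀ φ : P (i + 1) →ₗ[GA G] GA G, φ ∘ₗ d (i + 1) = 0 →
    ∃ ψ : P i →ₗ[GA G] GA G, φ = ψ ∘ₗ d i
  dual_top : ∃ π : (P 4 →ₗ[GA G] GA G) →+ ZMod 2, Function.Surjective π ∧
    ∀ φ, π φ = 0 ↔ ∃ ψ : P 3 →ₗ[GA G] GA G, φ = ψ ∘ₗ d 3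

attribute [instance] PD4.acg PD4.mod PD4.fin PD4.proj

/-- `G` is large: a subgroup of finite index maps onto the free group of rank two. -/
def Large (G : Type) [Group G] : Prop :=
  ∃ M : Subgroup G, M.FiniteIndex ∧ ∃ f : M →* FreeGroup (Fin 2), Function.Surjective f

/-- the mod 2 first Betti number of `N`: the dimension of `Hom(N, F₂)` -/
noncomputable def b1 (N : Type) [Group N] : ℕ :=
  Module.finrank (ZMod 2) (Additive N →+ ZMod 2)

/-- Every 3-cocycle of `G` with values in `F₂` is a coboundary on `G'`, that is,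
`H³(G, F₂) → H³(G', F₂)` is zero. -/
def Kills {G : Type} [Group G] (G' : Subgroup G) : Prop :=
  ∀ f : G → G → G → ZMod 2,
    (∀ a b c d : G,
      f b c d - f (a * b) c d + f a (b * c) d - f a b (c * d) + f a b c = 0) →
    ∃ e : G → G → ZMod 2,
      ∀ a ∈ G', ∀ b ∈ G', ∀ c ∈ G',
        f a b c = e b c - e (a * b) c + e a (b * c) - e a b

end Pool.K3H
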