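import Pool.Agent.H59.K3.Tr

/-!
Growth: if the mod 2 transfer from `H` to `N` does not vanish, `H/N` a non-cyclic 2-group, then
`dim Hom(N, F₂) ≥ |H/N|/2 + 1`.
-/

namespace Pool.K3H

open Function Module

section socle

variable {K : Type} [Group K]

open Classical in
/-- the coefficient at `q` -/
noncomputable def co (q : K) : GA K →+ ZMod 2 := lin (fun x => if x = q then 1 else 0)

open Classical in
theorem co_u (q x : K) : co q (u x) = if x = q then 1 else 0 := by
  simp [co]

theorem co_mul_u (q g : K) (a : GA K) : co q (a * u g) = co (q * g⁻¹) a := by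
  unfold co
  rw [lin_mul_u]
  congr 2
  funext x
  congr 1
  apply propext
  rw [eq_mul_inv_iff_mul_eq]

theorem co_u_mul (q g : K) (a : GA K) : co q (u g * a) = co (g⁻¹ * q) a := by
  unfold co
  rw [lin_u_mul]
  congr 2
  funext x
  congr 1
  apply propext
  rw [eq_inv_mul_iff_mul_eq]

theorem sum_co [Fintype K] (a : GA K) : a = ∑ q : K, (co q a) • u q := by
  classical
  induction a using GA.ind with
  | h0 => simp
  | hu g => simp [co_u]
  | hadd a b ha hb =>
    conv_lhs => rw [ha, hb]
    rw [← Finset.sum_add_distrib]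
    refine Finset.sum_congr rfl fun q _ => ?_
    rw [map_add, add_smul]

theorem ext_co [Fintype K] {a b : GA K} (h : ∀ q, co q a = co q b) : a = b := by
  rw [sum_co a, sum_co b]
  exact Finset.sum_congr rfl fun q _ => by rw [h]

/-- the norm element -/
noncomputable def nrm (K : Type) [Group K] [Fintype K] : GA K := ∑ k : K, u k

theorem nrm_ne_zero [Fintype K] : nrm K ≠ 0 := by
  classical
  intro h
  have : co (1 : K) (nrm K) = 1 := by
    unfold nrm
    rw [map_sum]
    simp [co_u]
  rw [h, map_zero] at this
  exact absurd this (by decide)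

theorem mul_nrm [Fintype K] (a : GA K) : a * nrm K = aug a • nrm K := by
  induction a using GA.ind with
  | h0 => simp
  | hu g =>
    rw [aug_u, one_smul]
    unfold nrm
    rw [Finset.mul_sum]
    rw [← Equiv.sum_comp (Equiv.mulLeft g) (fun k => (u k : GA K))]
    refine Finset.sum_congr rfl fun k _ => ?_
    rw [← u_mul]
    rfl
  | hadd a b ha hb => rw [add_mul, ha, hb, map_add, add_smul]

theorem eq_nrm_of_fixed [Fintype K] {y : GA K} (hy : ∀ k, y * u k = y) (h0 : y ≠ 0) :
    y = nrm K := by
  classical
  have h1 : ∀ q, co q y = co 1 y := by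
    intro q
    conv_rhs => rw [← hy q⁻¹, co_mul_u, inv_inv, one_mul]
  rcases zmod2_cases (co 1 y) with h | h
  · exfalso
    apply h0
    refine ext_co fun q => ?_
    rw [h1, h, map_zero]
  · rw [sum_co y]
    unfold nrm
    refine Finset.sum_congr rfl fun q _ => ?_
    rw [h1, h, one_smul]

instance finite_GA [Fintype K] : Finite (GA K) :=
  Finite.of_injective (fun (a : GA K) (q : K) => co q a) fun _ _ h => ext_co fun q => congrFun h q

/-- the right multiplication action of `K` on a right ideal -/
@[reducible] noncomputable def rightAct (x : GA K) : MulAction K (Set.range fun s : GA K => x * s) where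
  smul k y := ⟨y.1 * u k⁻¹, by
    obtain ⟨s, hs⟩ := y.2
    refine ⟨s * u k⁻¹, ?_⟩
    change x * (s * u k⁻¹) = y.1 * u k⁻¹
    rw [← hs, mul_assoc]⟩
  one_smul y := by
    apply Subtype.ext
    change y.1 * u (1 : K)⁻¹ = y.1
    rw [inv_one, u_one, mul_one]
  mul_smul k l y := by
    apply Subtype.ext
    change y.1 * u (k * l)⁻¹ = y.1 * u l⁻¹ * u k⁻¹
    rw [mul_inv_rev, u_mul, mul_assoc]

/-- In the group ring of a finite 2-group every nonzero right ideal contains the norm. -/
theorem socle [Fintype K] (hK : IsPGroup 2 K) {x : GA K} (hx : x ≠ 0) :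
    ∃ s : GA K, x * s = nrm K := by
  classical
  have hfact : Fact (Nat.Prime 2) := ⟨Nat.prime_two⟩
  let _ := rightAct x
  let z : Set.range (fun s : GA K => x * s) := ⟨0, ⟨0, mul_zero x⟩⟩
  have hz : z ∈ MulAction.fixedPoints K (Set.range fun s : GA K => x * s) := by
    intro k
    apply Subtype.ext
    change (0 : GA K) * u k⁻¹ = 0
    rw [zero_mul]
  -- the cardinality of the right ideal is even
  have hcard : 2 ∣ Nat.card (Set.range fun s : GA K => x * s) := by
    have e1 : (Set.range fun s : GA K => x * s) =
        ((AddMonoidHom.mulLeft x).range : Set (GA K)) := by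
      ext y; simp
    have hx' : x ∈ (AddMonoidHom.mulLeft x).range := ⟨1, mul_one x⟩
    have h3 : addOrderOf (⟨x, hx'⟩ : (AddMonoidHom.mulLeft x).range) = 2 := by
      apply addOrderOf_eq_prime
      · apply Subtype.ext
        exact two_smul_GA K x
      · intro h
        exact hx (congrArg Subtype.val h)
    have h4 : 2 ∣ Nat.card (AddMonoidHom.mulLeft x).range := by
      have h6 := addOrderOf_dvd_natCard (⟨x, hx'⟩ : (AddMonoidHom.mulLeft x).range)
      rw [h3] at h6
      exact h6
    have h5 : Nat.card (Set.range fun s : GA K => x * s) =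
        Nat.card (AddMonoidHom.mulLeft x).range := Nat.card_congr (Equiv.setCongr e1)
    rw [h5]
    exact h4
  obtain ⟨y, hy, hyz⟩ := hK.exists_fixed_point_of_prime_dvd_card_of_fixed_point _ hcard hz
  obtain ⟨s, hs⟩ := y.2
  refine ⟨s, ?_⟩
  have hs' : x * s = y.1 := hs
  rw [hs']
  refine eq_nrm_of_fixed (fun k => ?_) (fun h => hyz (Subtype.ext h).symm)
  have := congrArg Subtype.val (hy k⁻¹)
  have h2 : y.1 * u (k⁻¹)⁻¹ = y.1 := this
  rwa [inv_inv] at h2

theorem mul_eq_zero_of_aug [Fintype K] (hK : IsPGroup 2 K) {a x : GA K} (ha : aug a = 1)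
    (h : a * x = 0) : x = 0 := by
  by_contra hx
  obtain ⟨s, hs⟩ := socle hK hx
  have h1 : a * (x * s) = 0 := by rw [← mul_assoc, h, zero_mul]
  rw [hs, mul_nrm, ha, one_smul] at h1
  exact nrm_ne_zero h1

/-- elements of augmentation 1 are invertible -/
theorem exists_left_inv [Fintype K] (hK : IsPGroup 2 K) {a : GA K} (ha : aug a = 1) :
    ∃ b, b * a = 1 := by
  have hinj : Injective fun x : GA K => a * x := by
    intro x y hxy
    have : a * (x - y) = 0 := by
      rw [mul_sub]
      exact sub_eq_zero.2 hxy
    exact sub_eq_zero.1 (mul_eq_zero_of_aug hK ha this)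
  obtain ⟨b, hb⟩ := (Finite.injective_iff_surjective.1 hinj) 1
  refine ⟨b, ?_⟩
  have hb' : a * b = 1 := hb
  apply hinj
  change a * (b * a) = a * 1
  rw [← mul_assoc, hb', one_mul, mul_one]

/-- coefficients as a linear equivalence -/
noncomputable def coeffL (K : Type) [Group K] : GA K ≃ₗ[ZMod 2] (K →₀ ZMod 2) :=
  { MonoidAlgebra.coeffAddEquiv (R := ZMod 2) (M := K) with
    map_smul' := fun r a => by
      rcases zmod2_cases r with hr | hr
      · subst hr
        simp
      · subst hr
        simp }

theorem finrank_GA [Fintype K] : finrank (ZMod 2) (GA K) = Fintype.card K := by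
  rw [(coeffL K).finrank_eq, finrank_finsupp_self]

instance [Finite K] : Module.Finite (ZMod 2) (GA K) := by
  have := Fintype.ofFinite K
  exact Module.Finite.equiv (coeffL K).symm

end socle

end Pool.K3H
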