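import Pool.Agent.H59.K3.Tr

/-!
Finite generation: a group with a resolution as in `PD4` is finitely generated, and `Hom(N, F₂)`
is finite-dimensional for a finitely generated group `N`.
-/

namespace Pool.K3H

open Function Module

theorem finite_hom (N : Type) [Group N] [Group.FG N] :
    Module.Finite (ZMod 2) (Additive N →+ ZMod 2) := by
  obtain ⟨S, hS⟩ := Group.fg_def.1 ‹Group.FG N›
  let F : (Additive N →+ ZMod 2) →ₗ[ZMod 2] ({x // x ∈ S} → ZMod 2) :=
    { toFun := fun f s => f (Additive.ofMul s.1)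
      map_add' := fun _ _ => rfl
      map_smul' := fun _ _ => rfl }
  have hF : Injective F := by
    intro f g hfg
    have h1 : (AddMonoidHom.toMultiplicativeRight f) = (AddMonoidHom.toMultiplicativeRight g) := by
      refine MonoidHom.eq_of_eqOn_dense hS ?_
      intro s hs
      exact congrArg Multiplicative.ofAdd (congrFun hfg ⟨s, hs⟩)
    exact AddMonoidHom.toMultiplicativeRight.injective h1
  exact Module.Finite.of_injective F hF

/-- the augmentation ideal as a left ideal -/
theorem fg_of_span {G : Type} [Group G] (T : Finset (GA G)) (hT : ∀ t ∈ T, aug t = 0)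
    (h : ∀ g : G, (u g - 1 : GA G) ∈ Submodule.span (GA G) (T : Set (GA G))) : Group.FG G := by
  classical
  -- a finite set of group elements
  have h1 : ∀ a ∈ IG G, ∃ S : Finset G, a ∈ Submodule.span (GA G) {x | ∃ s ∈ S, x = u s - 1} := by
    intro a ha
    induction ha using AddSubgroup.closure_induction with
    | mem x hx =>
      obtain ⟨g, rfl⟩ := hx
      exact ⟨{g}, Submodule.subset_span ⟨g, by simp, rfl⟩⟩
    | zero => exact ⟨∅, zero_mem _⟩
    | add x y _ _ hx hy =>
      obtain ⟨S, hS⟩ := hx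
      obtain ⟨S', hS'⟩ := hy
      refine ⟨S ∪ S', add_mem ?_ ?_⟩
      · refine Submodule.span_mono ?_ hS
        rintro _ ⟨s, hs, rfl⟩
        exact ⟨s, Finset.mem_union_left _ hs, rfl⟩
      · refine Submodule.span_mono ?_ hS'
        rintro _ ⟨s, hs, rfl⟩
        exact ⟨s, Finset.mem_union_right _ hs, rfl⟩
    | neg x _ hx =>
      obtain ⟨S, hS⟩ := hx
      exact ⟨S, neg_mem hS⟩
  choose! S hS using h1
  let U : Finset G := T.biUnion S
  have h2 : ∀ g : G, (u g - 1 : GA G) ∈ Submodule.span (GA G) {x | ∃ s ∈ U, x = u s - 1} := by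
    intro g
    refine Submodule.span_le.2 ?_ (h g)
    intro t ht
    refine Submodule.span_mono ?_ (hS t (mem_IG (hT t ht)))
    rintro _ ⟨s, hs, rfl⟩
    exact ⟨s, Finset.mem_biUnion.2 ⟨t, ht, hs⟩, rfl⟩
  refine Group.fg_def.2 ⟨U, ?_⟩
  rw [Subgroup.eq_top_iff']
  intro g
  set K := Subgroup.closure (U : Set G) with hK
  have h3 : ∀ x ∈ Submodule.span (GA G) {x : GA G | ∃ s ∈ U, x = u s - 1},
      ∀ a : GA G, tau K (a * x) = 0 := by
    intro x hx
    induction hx using Submodule.span_induction with
    | mem x hx =>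
      obtain ⟨s, hs, rfl⟩ := hx
      intro a
      rw [mul_sub, mul_one, map_sub, tau_mul_u K (Subgroup.subset_closure hs), sub_self]
    | zero => intro a; rw [mul_zero, map_zero]
    | add x y _ _ hx hy => intro a; rw [mul_add, map_add, hx, hy, add_zero]
    | smul b x _ hx => intro a; rw [smul_eq_mul, ← mul_assoc, hx]
  have h4 := h3 _ (h2 g) 1
  rw [one_mul, map_sub, ← u_one, tau_u, tau_u, if_pos K.one_mem] at h4
  by_contra hg
  rw [if_neg hg] at h4
  exact absurd h4 (by decide)

theorem PD4.fg {G : Type} [Group G] (R : PD4 G) : Group.FG G := by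
  classical
  obtain ⟨x₀, hx₀⟩ := R.ε_surj 1
  obtain ⟨n, e, c, hec⟩ := exists_dual_basis (G := G) (R.P 0)
  have hε : ∀ (a : GA G) (x : R.P 0), R.ε (a • x) = aug a * R.ε x := by
    intro a x
    induction a using GA.ind with
    | h0 => simp
    | hu g => rw [R.ε_inv, aug_u, one_mul]
    | hadd a b ha hb => rw [add_smul, map_add, ha, hb, map_add, add_mul]
  -- a lift of `ε` to the group ring
  let s : R.P 0 →ₗ[GA G] GA G := ∑ i, (LinearMap.toSpanSingleton (GA G) (GA G)
    ((R.ε (e i)) • (1 : GA G))) ∘ₗ c i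
  have hs : ∀ x, aug (s x) = R.ε x := by
    intro x
    have h1 : s x = ∑ i, c i x * ((R.ε (e i)) • (1 : GA G)) := by
      simp [s]
    rw [h1, map_sum]
    conv_rhs => rw [hec x, map_sum]
    refine Finset.sum_congr rfl fun i _ => ?_
    rw [aug_mul, hε]
    congr 1
    rcases zmod2_cases (R.ε (e i)) with hr | hr
    · rw [hr, zero_smul, map_zero]
    · rw [hr, one_smul, aug_one]
  obtain ⟨T1, hT1⟩ := (Module.finite_def.1 (R.fin 1) : (⊤ : Submodule (GA G) (R.P 1)).FG)
  refine fg_of_span (insert (s x₀ - 1) (T1.image fun z => s (R.d 0 z))) ?_ ?_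
  · intro t ht
    rw [Finset.mem_insert, Finset.mem_image] at ht
    rcases ht with rfl | ⟨z, _, rfl⟩
    · rw [map_sub, hs, hx₀, aug_one, sub_self]
    · rw [hs]
      exact (R.exact_zero _).2 ⟨z, rfl⟩
  · intro g
    set W := Submodule.span (GA G) ((insert (s x₀ - 1) (T1.image fun z => s (R.d 0 z)) :
      Finset (GA G)) : Set (GA G)) with hW
    have h1 : ∀ z : R.P 1, s (R.d 0 z) ∈ W := by
      intro z
      have hz : z ∈ Submodule.span (GA G) (T1 : Set (R.P 1)) := by
        rw [hT1]
        trivial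
      induction hz using Submodule.span_induction with
      | mem z hz =>
        refine Submodule.subset_span ?_
        rw [Finset.mem_coe, Finset.mem_insert]
        right
        exact Finset.mem_image.2 ⟨z, hz, rfl⟩
      | zero => rw [map_zero, map_zero]; exact zero_mem _
      | add x y _ _ hx hy => rw [map_add, map_add]; exact add_mem hx hy
      | smul a x _ hx => rw [map_smul, map_smul]; exact W.smul_mem a hx
    have h2 : R.ε ((u g - 1 : GA G) • x₀) = 0 := by
      rw [hε, map_sub, aug_u, aug_one, sub_self, zero_mul]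
    obtain ⟨z, hz⟩ := (R.exact_zero _).1 h2
    have h3 := h1 z
    rw [hz, map_smul, smul_eq_mul] at h3
    have h4 : (s x₀ - 1) ∈ W := Submodule.subset_span (by simp)
    have h5 : (u g - 1 : GA G) = (u g - 1) * s x₀ - (u g - 1 : GA G) • (s x₀ - 1) := by
      rw [smul_eq_mul]
      noncomm_ring
    rw [h5]
    exact sub_mem h3 (W.smul_mem _ h4)

end Pool.K3H
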