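import Pool.Agent.H59.K3.Defs

/-!
Group ring tools: induction, augmentation, functionals, dual bases.
-/

namespace Pool.K3H

open Function

variable {G : Type} [Group G]

@[simp] theorem u_one : u (1 : G) = 1 := by
  unfold u
  exact map_one _

theorem u_mul (g h : G) : u (g * h) = u g * u h := by
  simp [u]

@[simp] theorem u_mul_u_inv (g : G) : u g * u g⁻¹ = 1 := by
  rw [← u_mul, mul_inv_cancel, u_one]

@[simp] theorem u_inv_mul_u (g : G) : u g⁻¹ * u g = 1 := by
  rw [← u_mul, inv_mul_cancel, u_one]

theorem zmod2_cases (r : ZMod 2) : r = 0 ∨ r = 1 := by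
  fin_cases r
  · left; rfl
  · right; rfl

theorem zmod2_eq {a b : ZMod 2} (h : a = 0 ↔ b = 0) : a = b := by
  rcases zmod2_cases a with ha | ha <;> rcases zmod2_cases b with hb | hb
  · rw [ha, hb]
  · exact absurd (h.1 ha) (by rw [hb]; decide)
  · exact absurd (h.2 hb) (by rw [ha]; decide)
  · rw [ha, hb]

/-- induction: `F₂[G]` is additively generated by the group elements -/
theorem GA.ind {p : GA G → Prop} (h0 : p 0) (hu : ∀ g, p (u g))
    (hadd : ∀ a b, p a → p b → p (a + b)) (a : GA G) : p a := by
  induction a using MonoidAlgebra.induction_linear with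
  | zero => exact h0
  | add f g hf hg => exact hadd f g hf hg
  | single g r =>
    rcases zmod2_cases r with hr | hr
    · subst hr; simpa using h0
    · subst hr; exact hu g

theorem add_hom_ext {M : Type} [AddCommMonoid M] {f g : GA G →+ M} (h : ∀ x, f (u x) = g (u x)) :
    f = g := by
  refine AddMonoidHom.ext fun a => ?_
  induction a using GA.ind with
  | h0 => simp
  | hu x => exact h x
  | hadd a b ha hb => rw [map_add, map_add, ha, hb]

theorem smul_coeff_u (r : ZMod 2) (g : G) : (MonoidAlgebra.single g r : GA G) = r • u g := by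
  simp [u]

/-- the additive functional with prescribed values on group elements -/
noncomputable def lin (F : G → ZMod 2) : GA G →+ ZMod 2 :=
  (Finsupp.liftAddHom (fun g => (AddMonoidHom.mulRight (F g) : ZMod 2 →+ ZMod 2))).comp
    (MonoidAlgebra.coeffAddEquiv (R := ZMod 2) (M := G)).toAddMonoidHom

@[simp] theorem lin_u (F : G → ZMod 2) (g : G) : lin F (u g) = F g := by
  simp [lin, u]

/-- the augmentation -/
noncomputable def aug : GA G →+ ZMod 2 := lin (fun _ => 1)

@[simp] theorem aug_u (g : G) : aug (u g) = 1 := by simp [aug]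

@[simp] theorem aug_one : aug (1 : GA G) = 1 := by
  rw [← u_one, aug_u]

theorem aug_mul (a b : GA G) : aug (a * b) = aug a * aug b := by
  induction a using GA.ind with
  | h0 => simp
  | hu g =>
    induction b using GA.ind with
    | h0 => simp
    | hu h => rw [← u_mul]; simp
    | hadd a b ha hb => rw [mul_add, map_add, map_add, ha, hb, mul_add]
  | hadd a c ha hc => rw [add_mul, map_add, map_add, ha, hc, add_mul]

theorem lin_mul_u (F : G → ZMod 2) (a : GA G) (g : G) :
    lin F (a * u g) = lin (fun x => F (x * g)) a := by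
  induction a using GA.ind with
  | h0 => simp
  | hu h => rw [← u_mul]; simp
  | hadd a c ha hc => rw [add_mul, map_add, map_add, ha, hc]

theorem lin_u_mul (F : G → ZMod 2) (a : GA G) (g : G) :
    lin F (u g * a) = lin (fun x => F (g * x)) a := by
  induction a using GA.ind with
  | h0 => simp
  | hu h => rw [← u_mul]; simp
  | hadd a c ha hc => rw [mul_add, map_add, map_add, ha, hc]

open Classical in
/-- the sum of the coefficients in a subgroup -/
noncomputable def tau (N : Subgroup G) : GA G →+ ZMod 2 := lin (fun g => if g ∈ N then 1 else 0)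

open Classical in
theorem tau_u (N : Subgroup G) (g : G) : tau N (u g) = if g ∈ N then 1 else 0 := by
  simp [tau]

theorem tau_u_mul (N : Subgroup G) {n : G} (hn : n ∈ N) (a : GA G) :
    tau N (u n * a) = tau N a := by
  unfold tau
  rw [lin_u_mul]
  congr 2
  funext x
  rw [N.mul_mem_cancel_left hn]

theorem tau_mul_u (N : Subgroup G) {n : G} (hn : n ∈ N) (a : GA G) :
    tau N (a * u n) = tau N a := by
  unfold tau
  rw [lin_mul_u]
  congr 2
  funext x
  rw [N.mul_mem_cancel_right hn]

/-- the augmentation ideal, as an additive group -/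
noncomputable def IG (G : Type) [Group G] : AddSubgroup (GA G) :=
  AddSubgroup.closure {x | ∃ g : G, x = u g - 1}

theorem mem_IG {a : GA G} (h : aug a = 0) : a ∈ IG G := by
  have key : ∀ a : GA G, (aug a = 0 → a ∈ IG G) ∧ (aug a = 1 → a - 1 ∈ IG G) := by
    intro a
    induction a using GA.ind with
    | h0 => exact ⟨fun _ => zero_mem _, fun h => absurd h (by simp)⟩
    | hu g =>
      refine ⟨fun h => absurd h (by simp), fun _ => AddSubgroup.subset_closure ⟨g, rfl⟩⟩
    | hadd a b ha hb =>
      have h2 : (1 : GA G) + 1 = 0 := by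
        have : (1 : GA G) + 1 = (2 : ZMod 2) • (1 : GA G) := by
          rw [two_smul]
        rw [this]
        have h0 : (2 : ZMod 2) = 0 := by decide
        rw [h0, zero_smul]
      rcases zmod2_cases (aug a) with h1 | h1 <;> rcases zmod2_cases (aug b) with h3 | h3
      · refine ⟨fun _ => add_mem (ha.1 h1) (hb.1 h3), fun h => ?_⟩
        rw [map_add, h1, h3] at h
        exact absurd h (by decide)
      · refine ⟨fun h => ?_, fun _ => ?_⟩
        · rw [map_add, h1, h3] at h
          exact absurd h (by decide)
        · have : a + b - 1 = a + (b - 1) := by abel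
          rw [this]
          exact add_mem (ha.1 h1) (hb.2 h3)
      · refine ⟨fun h => ?_, fun _ => ?_⟩
        · rw [map_add, h1, h3] at h
          exact absurd h (by decide)
        · have : a + b - 1 = (a - 1) + b := by abel
          rw [this]
          exact add_mem (ha.2 h1) (hb.1 h3)
      · refine ⟨fun _ => ?_, fun h => ?_⟩
        · have : a + b = (a - 1) + (b - 1) + (1 + 1) := by abel
          rw [this, h2, add_zero]
          exact add_mem (ha.2 h1) (hb.2 h3)
        · rw [map_add, h1, h3] at h
          exact absurd h (by decide)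
  exact (key a).1 h

/-- the additive group `I_G I_N` -/
noncomputable def J (N : Subgroup G) : AddSubgroup (GA G) :=
  AddSubgroup.closure {x | ∃ g : G, ∃ n ∈ N, x = (u g - 1) * (u n - 1)}

/-- The mod 2 transfer from `G` to `N` vanishes, in terms of the group ring. -/
def TrZero (N : Subgroup G) : Prop :=
  ∃ ν : GA G, (∀ a, tau N (a * ν) = aug a) ∧ ∀ g : G, (u g - 1) * ν ∈ J N

/-- dual bases of finitely generated projective modules -/
theorem exists_dual_basis (P : Type) [AddCommGroup P] [Module (GA G) P]
    [Module.Finite (GA G) P] [Module.Projective (GA G) P] :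
    ∃ (n : ℕ) (e : Fin n → P) (c : Fin n → (P →ₗ[GA G] GA G)),
      ∀ x, x = ∑ i, c i x • e i := by
  obtain ⟨n, f, hf⟩ := Module.Finite.exists_fin' (GA G) P
  obtain ⟨s, hs⟩ := Module.projective_lifting_property f LinearMap.id hf
  refine ⟨n, fun i => f (Pi.single i 1), fun i => LinearMap.proj i ∘ₗ s, fun x => ?_⟩
  have h1 : f (s x) = x := LinearMap.congr_fun hs x
  conv_lhs => rw [← h1]
  have h2 : s x = ∑ i, (s x i) • (Pi.single i 1 : Fin n → GA G) := by
    funext j
    simp [Finset.sum_apply, Pi.single_apply]
  conv_lhs => rw [h2]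
  rw [map_sum]
  simp only [map_smul, LinearMap.coe_comp, LinearMap.coe_proj, comp_apply, eval]

end Pool.K3H
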