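import Pool.Agent.H59.K3.Der

/-!
Growth: if the mod 2 transfer from `H` to `N` does not vanish, `H/N` a non-cyclic 2-group, then
`dim Hom(N, F₂) ≥ |H/N|/2 + 1`.
-/

namespace Pool.K3H

open Function Module

section grow

variable {H : Type} [Group H] (N : Subgroup H)

theorem nq_mul (g h : H) (q : H ⧸ N) : nq N (g * h) q = nq N g (h • q) * nq N h q := by
  unfold nq
  rw [mul_smul]
  group

/-- the value of `ξ` on `nq` -/
noncomputable def xi (ξ : Additive N →+ ZMod 2) (h : H) (q : H ⧸ N) : ZMod 2 :=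
  ξ (Additive.ofMul ⟨nq N h q, nq_mem N h q⟩)

theorem xi_mul (ξ : Additive N →+ ZMod 2) (g h : H) (q : H ⧸ N) :
    xi N ξ (g * h) q = xi N ξ g (h • q) + xi N ξ h q := by
  unfold xi
  rw [← map_add, ← ofMul_mul]
  congr 2
  exact Subtype.ext (nq_mul N g h q)

variable [N.Normal]

theorem smul_eq_mk_mul (h : H) (q : H ⧸ N) : h • q = (h : H ⧸ N) * q := by
  induction q using QuotientGroup.induction_on with
  | H z => rfl

section der

variable {N}

/-- derivations with values in the group ring of the quotient -/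
def IsDer (D : H → GA (H ⧸ N)) : Prop := ∀ g h, D (g * h) = D g + u (g : H ⧸ N) * D h

theorem IsDer.one {D : H → GA (H ⧸ N)} (hD : IsDer D) : D 1 = 0 := by
  have := hD 1 1
  rw [mul_one, QuotientGroup.mk_one, u_one, one_mul] at this
  exact left_eq_add.1 this

theorem IsDer.conj {D : H → GA (H ⧸ N)} (hD : IsDer D) (h : H) {n : H} (hn : n ∈ N) :
    D (h⁻¹ * (n * h)) = u ((h : H ⧸ N)⁻¹) * D n := by
  have h1 : ((n : H) : H ⧸ N) = 1 := (QuotientGroup.eq_one_iff n).2 hn
  rw [hD, hD, h1, u_one, one_mul, QuotientGroup.mk_inv, mul_add]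
  have h2 : D (h⁻¹ * h) = D h⁻¹ + u ((h⁻¹ : H) : H ⧸ N) * D h := hD _ _
  rw [inv_mul_cancel, hD.one, QuotientGroup.mk_inv] at h2
  have h3 : D h⁻¹ + (u ((h : H ⧸ N)⁻¹) * D n + u ((h : H ⧸ N)⁻¹) * D h) =
      u ((h : H ⧸ N)⁻¹) * D n + (D h⁻¹ + u ((h : H ⧸ N)⁻¹) * D h) := by abel
  rw [h3, ← h2, add_zero]

theorem IsDer.inner [Fintype (H ⧸ N)] {D : H → GA (H ⧸ N)} (hD : IsDer D)
    (h0 : ∀ n ∈ N, co 1 (D n) = 0) : ∃ y, ∀ h : H, D h = (u (h : H ⧸ N) - 1) * y := by
  classical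
  have hN : ∀ n ∈ N, D n = 0 := by
    intro n hn
    refine ext_co fun q => ?_
    rw [map_zero]
    have h1 : co q (D n) = co 1 (u q⁻¹ * D n) := by
      rw [co_u_mul, inv_inv, mul_one]
    have h2 : (q.out : H ⧸ N) = q := QuotientGroup.out_eq' _
    have h3 := hD.conj q.out hn
    rw [h2] at h3
    rw [h1, ← h3]
    apply h0
    have := ‹N.Normal›.conj_mem n hn (q.out)⁻¹
    rwa [inv_inv, mul_assoc] at this
  have hrep : ∀ a b : H, (a : H ⧸ N) = b → D a = D b := by
    intro a b hab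
    have h1 : a⁻¹ * b ∈ N := QuotientGroup.eq.1 hab
    have h2 : D (a * (a⁻¹ * b)) = D a + u (a : H ⧸ N) * D (a⁻¹ * b) := hD _ _
    rw [hN _ h1, mul_zero, add_zero, mul_inv_cancel_left] at h2
    exact h2.symm
  refine ⟨∑ q : H ⧸ N, (co 1 (D (q⁻¹).out)) • u q, fun h => ?_⟩
  have hco : ∀ s : H ⧸ N, co s (∑ q : H ⧸ N, (co 1 (D (q⁻¹).out)) • u q) =
      co 1 (D (s⁻¹).out) := by
    intro s
    rw [map_sum]
    have : ∀ q : H ⧸ N, co s ((co 1 (D (q⁻¹).out)) • u q) =
        if q = s then co 1 (D (q⁻¹).out) else 0 := by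
      intro q
      rcases zmod2_cases (co 1 (D (q⁻¹).out)) with hr | hr
      · rw [hr, zero_smul, map_zero]
        simp
      · rw [hr, one_smul, co_u]
        simp [eq_comm]
    rw [Finset.sum_congr rfl fun q _ => this q]
    simp
  refine ext_co fun s => ?_
  rw [sub_mul, one_mul, map_sub, co_u_mul, hco, hco]
  have h1 : ((s⁻¹).out : H ⧸ N) = s⁻¹ := QuotientGroup.out_eq' _
  have h2 : D (((h : H ⧸ N)⁻¹ * s)⁻¹).out = D ((s⁻¹).out * h) := by
    apply hrep
    rw [QuotientGroup.out_eq', QuotientGroup.mk_mul, h1, mul_inv_rev, inv_inv]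
  rw [h2, hD, map_add, h1, co_u_mul, inv_inv, mul_one]
  ring

end der

variable [Fintype (H ⧸ N)]

/-- the derivation attached to `ξ` -/
noncomputable def dl (ξ : Additive N →+ ZMod 2) (h : H) : GA (H ⧸ N) :=
  ∑ q : H ⧸ N, xi N ξ h q • u (h • q)

theorem isDer_dl (ξ : Additive N →+ ZMod 2) : IsDer (dl N ξ) := by
  intro g h
  unfold dl
  have h1 : ∑ q : H ⧸ N, xi N ξ g q • (u (g • q) : GA (H ⧸ N)) =
      ∑ q : H ⧸ N, xi N ξ g (h • q) • u (g • (h • q)) :=
    (Equiv.sum_comp (MulAction.toPerm h : Equiv.Perm (H ⧸ N))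
      fun q => xi N ξ g q • (u (g • q) : GA (H ⧸ N))).symm
  rw [h1, Finset.mul_sum, ← Finset.sum_add_distrib]
  refine Finset.sum_congr rfl fun q _ => ?_
  rw [xi_mul, add_smul, mul_smul g h q, mul_smul_comm, ← u_mul, ← smul_eq_mk_mul]

theorem aug_dl [N.FiniteIndex] (ξ : Additive N →+ ZMod 2) (h : H) :
    aug (dl N ξ h) = trv N ξ h := by
  unfold dl trv
  rw [map_sum]
  have : ∀ q : H ⧸ N, aug (xi N ξ h q • (u (h • q) : GA (H ⧸ N))) = xi N ξ h q := by
    intro q
    rcases zmod2_cases (xi N ξ h q) with hr | hr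
    · rw [hr, zero_smul, map_zero]
    · rw [hr, one_smul, aug_u]
  rw [Finset.sum_congr rfl fun q _ => this q]
  refine Finset.sum_congr ?_ fun q _ => rfl
  ext q
  simp

theorem aug_one_of_ne {Q : Type} [Group Q] {a : GA Q} (h : aug a ≠ 0) : aug a = 1 := by
  rcases zmod2_cases (aug a) with h1 | h1
  · exact absurd h1 h
  · exact h1

/-- evaluation at the norm of a subgroup -/
theorem co_mul_iota_nrm {Q : Type} [Group Q] (K : Subgroup Q) [Fintype K] (c : GA Q) :
    co 1 (c * iota K (nrm K)) = tau K c := by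
  classical
  induction c using GA.ind with
  | h0 => simp
  | hu q =>
    unfold nrm
    rw [map_sum, Finset.mul_sum, map_sum, tau_u]
    have : ∀ k : K, co 1 (u q * iota K (u k)) = if (k : Q) = q⁻¹ then 1 else 0 := by
      intro k
      rw [iota_u, ← u_mul, co_u]
      congr 1
      apply propext
      rw [mul_eq_one_iff_inv_eq, eq_comm]
    rw [Finset.sum_congr rfl fun k _ => this k]
    by_cases hq : q ∈ K
    · rw [if_pos hq, Finset.sum_eq_single ⟨q⁻¹, K.inv_mem hq⟩]
      · simp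
      · intro b _ hb
        rw [if_neg]
        intro h
        exact hb (Subtype.ext h)
      · simp
    · rw [if_neg hq]
      refine Finset.sum_eq_zero fun k _ => ?_
      rw [if_neg]
      intro h
      apply hq
      have := K.inv_mem k.2
      rwa [h, inv_inv] at this
  | hadd a b ha hb => rw [add_mul, map_add, map_add, ha, hb]

/-- the key injectivity -/
theorem key_inj {Q : Type} [Group Q] (K : Subgroup Q) [Fintype K] (hK : IsPGroup 2 K) {c : GA Q}
    (hc : tau K c = 1) {x : GA K} (h : c * iota K x = 0) : x = 0 := by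
  by_contra hx
  obtain ⟨s, hs⟩ := socle hK hx
  have h1 : c * iota K (x * s) = 0 := by rw [map_mul, ← mul_assoc, h, zero_mul]
  rw [hs] at h1
  have h2 := co_mul_iota_nrm K c
  rw [h1, map_zero, hc] at h2
  exact absurd h2 (by decide)

/-- a subgroup of index 2 containing a given element -/
theorem exists_half {Q : Type} [Group Q] [Finite Q] (hQ : IsPGroup 2 Q) (hcyc : ¬ IsCyclic Q)
    (g : Q) : ∃ K : Subgroup Q, g ∈ K ∧ 2 * Nat.card K = Nat.card Q := by
  have hfact : Fact (Nat.Prime 2) := ⟨Nat.prime_two⟩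
  obtain ⟨a, ha⟩ := IsPGroup.iff_card.1 hQ
  obtain ⟨b, hb⟩ := IsPGroup.iff_card.1 (hQ.to_subgroup (Subgroup.zpowers g))
  have hlt : b < a := by
    by_contra hba
    push Not at hba
    have h1 : Nat.card Q ≤ Nat.card (Subgroup.zpowers g) := by
      rw [ha, hb]
      exact Nat.pow_le_pow_right (by norm_num) hba
    have h2 : Subgroup.zpowers g = ⊤ := Subgroup.eq_top_of_le_card _ h1
    apply hcyc
    exact ⟨g, fun x => by
      have : x ∈ (⊤ : Subgroup Q) := Subgroup.mem_top x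
      rwa [← h2] at this⟩
  obtain ⟨m, rfl⟩ : ∃ m, a = m + 1 := ⟨a - 1, by omega⟩
  obtain ⟨K, hK, hle⟩ := Sylow.exists_subgroup_card_pow_prime_le (p := 2) (n := b) (m := m)
    (by rw [ha]; exact pow_dvd_pow 2 (by omega)) (Subgroup.zpowers g) hb (by omega)
  refine ⟨K, hle (Subgroup.mem_zpowers g), ?_⟩
  rw [hK, ha, pow_succ]
  ring

end grow

end Pool.K3H
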