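import Pool.Agent.H59.K3.Grow

/-!
Growth: if the mod 2 transfer from `H` to `N` does not vanish, `H/N` a non-cyclic 2-group, then
`dim Hom(N, F₂) ≥ |H/N|/2 + 1`.
-/

namespace Pool.K3H

open Function Module

variable {H : Type} [Group H] (N : Subgroup H) [N.Normal] [Fintype (H ⧸ N)]

theorem linear_of_add {X Y : Type} [AddCommGroup X] [Module (ZMod 2) X] [AddCommGroup Y]
    [Module (ZMod 2) Y] (f : X →+ Y) (r : ZMod 2) (x : X) : f (r • x) = r • f x := by
  rcases zmod2_cases r with hr | hr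
  · rw [hr, zero_smul, zero_smul, map_zero]
  · rw [hr, one_smul, one_smul]

/-- the map `w ↦ (n ↦ co 1 (δ(n) w))` -/
noncomputable def Psi (ξ : Additive N →+ ZMod 2) :
    GA (H ⧸ N) →ₗ[ZMod 2] (Additive N →+ ZMod 2) where
  toFun w :=
    { toFun := fun n => co 1 (dl N ξ ((Additive.toMul n : N) : H) * w)
      map_zero' := by
        change co 1 (dl N ξ (1 : H) * w) = 0
        rw [(isDer_dl N ξ).one, zero_mul, map_zero]
      map_add' := fun n m => by
        change co 1 (dl N ξ (((Additive.toMul n : N) : H) * ((Additive.toMul m : N) : H)) * w) = _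
        have h1 : (((Additive.toMul n : N) : H) : H ⧸ N) = 1 :=
          (QuotientGroup.eq_one_iff _).2 (Additive.toMul n : N).2
        rw [isDer_dl N ξ, h1, u_one, one_mul, add_mul, map_add] }
  map_add' := fun v w => by
    ext n
    change co 1 (_ * (v + w)) = co 1 (_ * v) + co 1 (_ * w)
    rw [mul_add, map_add]
  map_smul' := fun r w => by
    ext n
    change co 1 (_ * (r • w)) = r • co 1 (_ * w)
    rw [mul_smul_comm]
    exact linear_of_add _ _ _

theorem Psi_apply (ξ : Additive N →+ ZMod 2) (w : GA (H ⧸ N)) (n : N) :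
    Psi N ξ w (Additive.ofMul n) = co 1 (dl N ξ (n : H) * w) := rfl

/-- inner derivations -/
noncomputable def Inn : GA (H ⧸ N) →ₗ[ZMod 2] (H → GA (H ⧸ N)) :=
  LinearMap.pi fun h => LinearMap.mulLeft (ZMod 2) (u (h : H ⧸ N) - 1)

theorem Inn_apply (y : GA (H ⧸ N)) (h : H) : Inn N y h = (u (h : H ⧸ N) - 1) * y := rfl

/-- the derivations built from `δ` and the inner ones -/
noncomputable def Phi (ξ : Additive N →+ ZMod 2) (K : Subgroup (H ⧸ N)) :
    (GA (H ⧸ N) × GA K) →ₗ[ZMod 2] (H → GA (H ⧸ N)) :=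
  LinearMap.pi fun h => (LinearMap.mulLeft (ZMod 2) (dl N ξ h)) ∘ₗ LinearMap.fst _ _ _ +
    (LinearMap.mulLeft (ZMod 2) (u (h : H ⧸ N) - 1)) ∘ₗ (iota K).toLinearMap ∘ₗ
      LinearMap.snd _ _ _

theorem Phi_apply (ξ : Additive N →+ ZMod 2) (K : Subgroup (H ⧸ N)) (w : GA (H ⧸ N)) (x : GA K)
    (h : H) : Phi N ξ K (w, x) h = dl N ξ h * w + (u (h : H ⧸ N) - 1) * iota K x := rfl

theorem finrank_ker_Inn : 1 ≤ finrank (ZMod 2) (LinearMap.ker (Inn N)) := by
  rw [Nat.one_le_iff_ne_zero]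
  intro h
  have h1 : LinearMap.ker (Inn N) = ⊥ := Submodule.finrank_eq_zero.1 h
  have h2 : nrm (H ⧸ N) ∈ LinearMap.ker (Inn N) := by
    rw [LinearMap.mem_ker]
    funext h
    rw [Inn_apply, mul_nrm, map_sub, aug_u, aug_one, sub_self, zero_smul]
    rfl
  rw [h1, Submodule.mem_bot] at h2
  exact nrm_ne_zero h2

theorem grow [N.FiniteIndex] [Module.Finite (ZMod 2) (Additive N →+ ZMod 2)]
    (hQ : IsPGroup 2 (H ⧸ N)) (hcyc : ¬ IsCyclic (H ⧸ N)) (ξ : Additive N →+ ZMod 2) (g : H)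
    (hne : trv N ξ g ≠ 0) : N.index < 2 * finrank (ZMod 2) (Additive N →+ ZMod 2) := by
  classical
  obtain ⟨K, hgK, hK⟩ := exists_half hQ hcyc (g : H ⧸ N)
  letI : Fintype K := Fintype.ofFinite K
  have hK2 : IsPGroup 2 K := hQ.to_subgroup K
  obtain ⟨h, hh⟩ : ∃ h : H, (h : H ⧸ N) ∉ K := by
    by_contra hno
    push Not at hno
    have h1 : K = ⊤ := by
      rw [Subgroup.eq_top_iff']
      intro q
      have := hno q.out
      rwa [QuotientGroup.out_eq'] at this
    rw [h1, Subgroup.card_top] at hK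
    have : 0 < Nat.card (H ⧸ N) := Nat.card_pos
    omega
  have hag : aug (dl N ξ g) = 1 := by
    apply aug_one_of_ne
    rwa [aug_dl]
  obtain ⟨b, hb⟩ := exists_left_inv hQ hag
  have hc : tau K ((u (h : H ⧸ N) - 1) - dl N ξ h * b * (u (g : H ⧸ N) - 1)) = 1 := by
    have e1 : tau K (dl N ξ h * b * (u (g : H ⧸ N) - 1)) = 0 := by
      rw [mul_sub, mul_one, map_sub, tau_mul_u K hgK, sub_self]
    have e2 : tau K (1 : GA (H ⧸ N)) = 1 := by
      rw [← u_one, tau_u, if_pos K.one_mem]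
    rw [map_sub, map_sub, e1, e2, tau_u, if_neg hh]
    decide
  have hinj : Injective (Phi N ξ K) := by
    rw [injective_iff_map_eq_zero]
    rintro ⟨w, x⟩ hwx
    have e1 := congrFun hwx g
    have e2 := congrFun hwx h
    rw [Phi_apply] at e1 e2
    change dl N ξ g * w + (u (g : H ⧸ N) - 1) * iota K x = 0 at e1
    change dl N ξ h * w + (u (h : H ⧸ N) - 1) * iota K x = 0 at e2
    have e3 : w + b * (u (g : H ⧸ N) - 1) * iota K x = 0 := by
      have := congrArg (fun z => b * z) e1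
      simp only [mul_add, mul_zero] at this
      rw [← mul_assoc, hb, one_mul, ← mul_assoc] at this
      exact this
    have e4 : ((u (h : H ⧸ N) - 1) - dl N ξ h * b * (u (g : H ⧸ N) - 1)) * iota K x = 0 := by
      have : ((u (h : H ⧸ N) - 1) - dl N ξ h * b * (u (g : H ⧸ N) - 1)) * iota K x =
          (dl N ξ h * w + (u (h : H ⧸ N) - 1) * iota K x) -
            dl N ξ h * (w + b * (u (g : H ⧸ N) - 1) * iota K x) := by
        noncomm_ring
      rw [this, e2, e3, mul_zero, sub_zero]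
    have e5 := key_inj K hK2 hc e4
    subst e5
    rw [map_zero, mul_zero, add_zero] at e3
    rw [e3]
    rfl
  set Ψ : (GA (H ⧸ N) × GA K) →ₗ[ZMod 2] (Additive N →+ ZMod 2) :=
    Psi N ξ ∘ₗ LinearMap.fst _ _ _ with hΨ
  have hker : ∀ v ∈ LinearMap.ker Ψ, Phi N ξ K v ∈ LinearMap.range (Inn N) := by
    rintro ⟨w, x⟩ hv
    have hD : IsDer (fun h : H => dl N ξ h * w) := by
      intro a b
      change dl N ξ (a * b) * w = dl N ξ a * w + u (a : H ⧸ N) * (dl N ξ b * w)
      rw [isDer_dl N ξ, add_mul, mul_assoc]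
    have h0 : ∀ n ∈ N, co 1 (dl N ξ n * w) = 0 := by
      intro n hn
      have h1 : Psi N ξ w = 0 := hv
      have h2 := Psi_apply N ξ w ⟨n, hn⟩
      rw [h1] at h2
      exact h2.symm
    obtain ⟨y, hy⟩ := hD.inner h0
    refine ⟨y + iota K x, ?_⟩
    funext h
    rw [Inn_apply, Phi_apply, mul_add, hy h]
  have d1 : finrank (ZMod 2) (LinearMap.range Ψ) + finrank (ZMod 2) (LinearMap.ker Ψ) =
      Fintype.card (H ⧸ N) + Fintype.card K := by
    rw [LinearMap.finrank_range_add_finrank_ker, finrank_prod, finrank_GA, finrank_GA]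
  have d2 : finrank (ZMod 2) (LinearMap.range Ψ) ≤ finrank (ZMod 2) (Additive N →+ ZMod 2) :=
    Submodule.finrank_le _
  have d3 : finrank (ZMod 2) (LinearMap.ker Ψ) ≤ finrank (ZMod 2) (LinearMap.range (Inn N)) := by
    let F : LinearMap.ker Ψ →ₗ[ZMod 2] LinearMap.range (Inn N) :=
      ((Phi N ξ K).domRestrict (LinearMap.ker Ψ)).codRestrict _ fun v => hker v.1 v.2
    refine LinearMap.finrank_le_finrank_of_injective (f := F) ?_
    intro v w hvw
    apply Subtype.ext
    apply hinj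
    exact congrArg Subtype.val hvw
  have d4 : finrank (ZMod 2) (LinearMap.range (Inn N)) +
      finrank (ZMod 2) (LinearMap.ker (Inn N)) = Fintype.card (H ⧸ N) := by
    rw [LinearMap.finrank_range_add_finrank_ker, finrank_GA]
  have d5 := finrank_ker_Inn N
  have d6 : N.index = 2 * Fintype.card K := by
    rw [← Nat.card_eq_fintype_card, hK]
    rfl
  omega

end Pool.K3H
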