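import Pool.Agent.H59.K3.Defs

/-!
Large groups: a map of a finite index subgroup to a free group with two elements whose exponent
vectors are swapped and of odd sum.
-/

namespace Pool.K3H

open Function

/-- the exponent of the generator `ε` -/
def ex (ε : ZMod 2) : FreeGroup (ZMod 2) →* Multiplicative ℤ :=
  FreeGroup.lift fun δ => Multiplicative.ofAdd (if δ = ε then 1 else 0)

theorem pow_eq_of_mul {a b : ℤ} {i j : ℤ} {e f : ℤ} (h1 : i * a = e) (h2 : i * b = f)
    (h3 : j * a = f) (h4 : j * b = e) : (e - f) * (e + f) = 0 := by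
  have h5 : e * e = f * f := by
    calc e * e = (i * a) * (j * b) := by rw [h1, h4]
      _ = (i * b) * (j * a) := by ring
      _ = f * f := by rw [h2, h3]
  linear_combination h5

theorem large_of_hom {G : Type} [Group G] (M : Subgroup G) (hM : M.FiniteIndex)
    (ψ : M →* FreeGroup (ZMod 2)) (z z' : M)
    (h0 : ex 0 (ψ z) = ex 1 (ψ z')) (h1 : ex 1 (ψ z) = ex 0 (ψ z'))
    (hodd : Odd (Multiplicative.toAdd (ex 0 (ψ z)) + Multiplicative.toAdd (ex 1 (ψ z)))) :
    Large G := by
  classical
  let X := IsFreeGroup.Generators ψ.range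
  let E : ψ.range ≃* FreeGroup X := IsFreeGroup.toFreeGroup ψ.range
  by_cases hX : ∃ i j : X, i ≠ j
  · obtain ⟨i, j, hij⟩ := hX
    let F : FreeGroup X →* FreeGroup (Fin 2) := FreeGroup.lift fun k =>
      if k = i then FreeGroup.of 0 else if k = j then FreeGroup.of 1 else 1
    have hF : Surjective F := by
      let F' : FreeGroup (Fin 2) →* FreeGroup X := FreeGroup.lift fun k =>
        if k = 0 then FreeGroup.of i else FreeGroup.of j
      have h : F.comp F' = MonoidHom.id _ := by
        ext k
        fin_cases k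
        · simp [F, F']
        · simp [F, F', hij.symm]
      intro x
      exact ⟨F' x, DFunLike.congr_fun h x⟩
    refine ⟨M, hM, (F.comp E.toMonoidHom).comp ψ.rangeRestrict, ?_⟩
    exact (hF.comp E.surjective).comp ψ.rangeRestrict_surjective
  · exfalso
    push Not at hX
    -- the image is cyclic
    have hcyc : ∃ t : ψ.range, ∀ x : ψ.range, ∃ n : ℤ, t ^ n = x := by
      by_cases hne : Nonempty X
      · obtain ⟨i⟩ := hne
        refine ⟨E.symm (FreeGroup.of i), fun x => ?_⟩
        have : ∀ y : FreeGroup X, ∃ n : ℤ, (FreeGroup.of i) ^ n = y := by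
          intro y
          induction y using FreeGroup.induction_on with
          | C1 => exact ⟨0, zpow_zero _⟩
          | of j => exact ⟨1, by rw [hX j i, zpow_one]⟩
          | inv_of j hj =>
            obtain ⟨n, hn⟩ := hj
            exact ⟨-n, by rw [zpow_neg, hn]⟩
          | mul x y hx hy =>
            obtain ⟨n, hn⟩ := hx
            obtain ⟨k, hk⟩ := hy
            exact ⟨n + k, by rw [zpow_add, hn, hk]⟩
        obtain ⟨n, hn⟩ := this (E x)
        refine ⟨n, ?_⟩
        rw [← map_zpow, hn, E.symm_apply_apply]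
      · refine ⟨1, fun x => ⟨0, ?_⟩⟩
        have : IsEmpty X := not_nonempty_iff.1 hne
        apply E.injective
        exact Subsingleton.elim _ _
    obtain ⟨t, ht⟩ := hcyc
    obtain ⟨i, hi⟩ := ht (ψ.rangeRestrict z)
    obtain ⟨j, hj⟩ := ht (ψ.rangeRestrict z')
    have hi' : (t : FreeGroup (ZMod 2)) ^ i = ψ z := by
      have := congrArg Subtype.val hi
      exact this
    have hj' : (t : FreeGroup (ZMod 2)) ^ j = ψ z' := by
      have := congrArg Subtype.val hj
      exact this
    set a := Multiplicative.toAdd (ex 0 (t : FreeGroup (ZMod 2))) with ha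
    set b := Multiplicative.toAdd (ex 1 (t : FreeGroup (ZMod 2))) with hb
    have e1 : i * a = Multiplicative.toAdd (ex 0 (ψ z)) := by
      rw [← hi', map_zpow, toAdd_zpow, smul_eq_mul]
    have e2 : i * b = Multiplicative.toAdd (ex 1 (ψ z)) := by
      rw [← hi', map_zpow, toAdd_zpow, smul_eq_mul]
    have e3 : j * a = Multiplicative.toAdd (ex 1 (ψ z)) := by
      rw [h1, ← hj', map_zpow, toAdd_zpow, smul_eq_mul]
    have e4 : j * b = Multiplicative.toAdd (ex 0 (ψ z)) := by
      rw [h0, ← hj', map_zpow, toAdd_zpow, smul_eq_mul]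
    have e5 := pow_eq_of_mul e1 e2 e3 e4
    rcases mul_eq_zero.1 e5 with h | h
    · obtain ⟨k, hk⟩ := hodd
      omega
    · obtain ⟨k, hk⟩ := hodd
      omega

/-- equivariant maps between permutation representations of a free group -/
theorem equivariant {s : Type} {Z Z' : Type} (α : FreeGroup s →* Equiv.Perm Z)
    (β : FreeGroup s →* Equiv.Perm Z') (f : Z → Z')
    (h : ∀ i z, f (α (FreeGroup.of i) z) = β (FreeGroup.of i) (f z)) (w : FreeGroup s) :
    ∀ z, f (α w z) = β w (f z) := by
  induction w using FreeGroup.induction_on with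
  | C1 => intro z; rw [map_one, map_one]; rfl
  | of i => exact h i
  | inv_of i hi =>
    intro z
    have h1 := hi (α (FreeGroup.of i)⁻¹ z)
    change f (α (FreeGroup.of i)⁻¹ z) = β (FreeGroup.of i)⁻¹ (f z)
    have h2 : α (FreeGroup.of i) (α (FreeGroup.of i)⁻¹ z) = z := by
      rw [map_inv]
      exact Equiv.apply_symm_apply _ _
    change f (α (FreeGroup.of i) (α (FreeGroup.of i)⁻¹ z)) =
      β (FreeGroup.of i) (f (α (FreeGroup.of i)⁻¹ z)) at h1
    rw [h2] at h1
    rw [h1, map_inv β]
    exact (Equiv.symm_apply_apply _ _).symm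
  | mul x y hx hy =>
    intro z
    rw [map_mul, map_mul, Equiv.Perm.mul_apply, Equiv.Perm.mul_apply, hx, hy]

/-- two permutation representations of a free group which agree along a path -/
theorem agree {s : Type} {Z : Type} (α β : FreeGroup s →* Equiv.Perm Z) (good : Z → Prop)
    (h1 : ∀ i z, good z → α (FreeGroup.of i) z = β (FreeGroup.of i) z)
    (h2 : ∀ i z, good z → α (FreeGroup.of i)⁻¹ z = β (FreeGroup.of i)⁻¹ z) (z : Z)
    (L : List (s × Bool)) (hL : ∀ L' : List (s × Bool), L' <:+ L → good (β (FreeGroup.mk L') z)) :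
    α (FreeGroup.mk L) z = β (FreeGroup.mk L) z := by
  induction L with
  | nil =>
    have : (FreeGroup.mk [] : FreeGroup s) = 1 := rfl
    rw [this, map_one, map_one]
  | cons y L ih =>
    have ih' := ih fun L' hL' => hL L' (hL'.trans (List.suffix_cons y L))
    have hg := hL L (List.suffix_cons y L)
    obtain ⟨i, b⟩ := y
    have e1 : (FreeGroup.mk ((i, b) :: L) : FreeGroup s) = FreeGroup.mk [(i, b)] * FreeGroup.mk L := by
      rw [FreeGroup.mul_mk]
      rfl
    rw [e1, map_mul, map_mul, Equiv.Perm.mul_apply, Equiv.Perm.mul_apply, ih']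
    cases b
    · have e2 : (FreeGroup.mk [(i, false)] : FreeGroup s) = (FreeGroup.of i)⁻¹ := rfl
      rw [e2]
      exact h2 i _ hg
    · have e2 : (FreeGroup.mk [(i, true)] : FreeGroup s) = FreeGroup.of i := rfl
      rw [e2]
      exact h1 i _ hg

end Pool.K3H
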