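import Pool.Agent.H59.K3.Lg0

/-!
Two cocycles on a finite `G`-set, one mod 2 and one integral, whose supports are not met by a
common relator: then `G` is large.
-/

namespace Pool.K3H

open Function

section perm

variable {G X : Type} [Group G]

/-- an action as a homomorphism to the permutation group -/
def permHom (A : G → X → X) (h1 : ∀ x, A 1 x = x) (hm : ∀ g h x, A (g * h) x = A g (A h x)) :
    G →* Equiv.Perm X :=
  letI : MulAction G X := { smul := A, one_smul := h1, mul_smul := hm }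
  MulAction.toPermHom G X

theorem permHom_apply (A : G → X → X) (h1 : ∀ x, A 1 x = x)
    (hm : ∀ g h x, A (g * h) x = A g (A h x)) (g : G) (x : X) : permHom A h1 hm g x = A g x := rfl

end perm

section main

variable {G : Type} [Group G] {V : Type} [MulAction G V]

/-- cocycles on a `G`-set -/
def IsCo {A : Type} [Add A] (c : G → V → A) : Prop := ∀ g h q, c (g * h) q = c g (h • q) + c h q

theorem IsCo.one {A : Type} [AddGroup A] {c : G → V → A} (hc : IsCo c) (q : V) : c 1 q = 0 := by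
  have := hc 1 1 q
  rw [mul_one, one_smul] at this
  exact left_eq_add.1 this

theorem IsCo.inv {A : Type} [AddGroup A] {c : G → V → A} (hc : IsCo c) (g : G) (q : V) :
    c g⁻¹ q = -c g (g⁻¹ • q) := by
  have := hc g g⁻¹ q
  rw [mul_inv_cancel, hc.one] at this
  exact eq_neg_of_add_eq_zero_right this.symm

variable (c : G → V → ZMod 2) (κ : G → V → ℤ)

/-- the permutation attached to an edge -/
def sg (g : G) : Equiv.Perm ((V × ZMod 2) × FreeGroup (ZMod 2)) where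
  toFun z := ((g • z.1.1, z.1.2 + c g z.1.1), FreeGroup.of z.1.2 ^ κ g z.1.1 * z.2)
  invFun z := ((g⁻¹ • z.1.1, z.1.2 - c g (g⁻¹ • z.1.1)),
    (FreeGroup.of (z.1.2 - c g (g⁻¹ • z.1.1)) ^ κ g (g⁻¹ • z.1.1))⁻¹ * z.2)
  left_inv z := by
    obtain ⟨⟨q, ε⟩, p⟩ := z
    simp
  right_inv z := by
    obtain ⟨⟨q, ε⟩, p⟩ := z
    simp

theorem sg_apply (g : G) (q : V) (ε : ZMod 2) (p : FreeGroup (ZMod 2)) :
    sg c κ g ((q, ε), p) = ((g • q, ε + c g q), FreeGroup.of ε ^ κ g q * p) := rfl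

theorem sg_inv_apply (g : G) (q : V) (ε : ZMod 2) (p : FreeGroup (ZMod 2)) :
    (sg c κ g)⁻¹ ((q, ε), p) = ((g⁻¹ • q, ε - c g (g⁻¹ • q)),
      (FreeGroup.of (ε - c g (g⁻¹ • q)) ^ κ g (g⁻¹ • q))⁻¹ * p) := rfl

variable {c κ} (hc : IsCo c) (hκ : IsCo κ)

/-- the double cover -/
def act0 : G →* Equiv.Perm (V × ZMod 2) :=
  permHom (fun g z => (g • z.1, z.2 + c g z.1))
    (fun z => by rw [one_smul, hc.one, add_zero])
    (fun g h z => by
      refine Prod.ext (mul_smul _ _ _) ?_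
      change z.2 + c (g * h) z.1 = z.2 + c h z.1 + c g (h • z.1)
      rw [hc]
      ring)

/-- the action with the cut switched off -/
def A0 : G →* Equiv.Perm ((V × ZMod 2) × FreeGroup (ZMod 2)) :=
  permHom (fun g z => ((g • z.1.1, z.1.2 + c g z.1.1), z.2))
    (fun z => by rw [one_smul, hc.one, add_zero])
    (fun g h z => by
      refine Prod.ext (Prod.ext (mul_smul _ _ _) ?_) rfl
      change z.1.2 + c (g * h) z.1.1 = z.1.2 + c h z.1.1 + c g (h • z.1.1)
      rw [hc]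
      ring)

/-- the action with `c` switched off -/
def A1 : G →* Equiv.Perm ((V × ZMod 2) × FreeGroup (ZMod 2)) :=
  permHom (fun g z => ((g • z.1.1, z.1.2), FreeGroup.of z.1.2 ^ κ g z.1.1 * z.2))
    (fun z => by rw [one_smul, hκ.one, zpow_zero, one_mul])
    (fun g h z => by
      refine Prod.ext (Prod.ext (mul_smul _ _ _) rfl) ?_
      change FreeGroup.of z.1.2 ^ κ (g * h) z.1.1 * z.2 =
        FreeGroup.of z.1.2 ^ κ g (h • z.1.1) * (FreeGroup.of z.1.2 ^ κ h z.1.1 * z.2)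
      rw [hκ, zpow_add, mul_assoc])

/-- the integral cover -/
def A2 : G →* Equiv.Perm (V × ℤ) :=
  permHom (fun g z => (g • z.1, κ g z.1 + z.2))
    (fun z => by rw [one_smul, hκ.one, zero_add])
    (fun g h z => by
      refine Prod.ext (mul_smul _ _ _) ?_
      change κ (g * h) z.1 + z.2 = κ g (h • z.1) + (κ h z.1 + z.2)
      rw [hκ]
      ring)

/-- the swap -/
def sw : FreeGroup (ZMod 2) →* FreeGroup (ZMod 2) := FreeGroup.map (· + 1)

theorem ex_sw (ε : ZMod 2) (p : FreeGroup (ZMod 2)) : ex ε (sw p) = ex (ε + 1) p := by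
  have : (ex ε).comp sw = ex (ε + 1) := by
    ext δ
    have h : (δ + 1 = ε) ↔ (δ = ε + 1) := by
      have h' : ∀ δ ε : ZMod 2, (δ + 1 = ε) ↔ (δ = ε + 1) := by decide
      exact h' δ ε
    simp [ex, sw, h]
  exact DFunLike.congr_fun this p

theorem ex_add_ex (ε : ZMod 2) (k : ℤ) (p : FreeGroup (ZMod 2)) :
    Multiplicative.toAdd (ex 0 (FreeGroup.of ε ^ k * p)) +
      Multiplicative.toAdd (ex 1 (FreeGroup.of ε ^ k * p)) =
    k + (Multiplicative.toAdd (ex 0 p) + Multiplicative.toAdd (ex 1 p)) := by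
  have h : ∀ δ, Multiplicative.toAdd (ex δ (FreeGroup.of ε)) = if ε = δ then 1 else 0 := by
    intro δ
    simp [ex]
  have h2 : ((if ε = 0 then (1 : ℤ) else 0) + if ε = 1 then 1 else 0) = 1 := by
    have h' : ∀ ε : ZMod 2, ((if ε = 0 then (1 : ℤ) else 0) + if ε = 1 then 1 else 0) = 1 := by
      decide
    exact h' ε
  rw [map_mul (ex 0), map_mul (ex 1), map_zpow (ex 0), map_zpow (ex 1), toAdd_mul, toAdd_mul,
    toAdd_zpow, toAdd_zpow, h, h, smul_eq_mul, smul_eq_mul]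
  linear_combination k * h2

include hc hκ in
theorem large_of_cocycles [Finite V] {s : Type} [DecidableEq s] (π : FreeGroup s →* G) (hπ : Surjective π)
    (S : Set (FreeGroup s)) (hS : π.ker = Subgroup.normalClosure S)
    (hpath : ∀ r ∈ S, ∀ q : V,
      (∀ L' : List (s × Bool), L' <:+ r.toWord → ∀ i,
        κ (π (FreeGroup.of i)) (π (FreeGroup.mk L') • q) = 0 ∧
        κ (π (FreeGroup.of i)) ((π (FreeGroup.of i))⁻¹ • π (FreeGroup.mk L') • q) = 0) ∨
      (∀ L' : List (s × Bool), L' <:+ r.toWord → ∀ i,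
        c (π (FreeGroup.of i)) (π (FreeGroup.mk L') • q) = 0 ∧
        c (π (FreeGroup.of i)) ((π (FreeGroup.of i))⁻¹ • π (FreeGroup.mk L') • q) = 0))
    (q₀ : V) (z t : G) (hz : z • q₀ = q₀) (ht : t • q₀ = q₀) (hcz : c z q₀ = 0)
    (hκz : Odd (κ z q₀)) (hct : c t q₀ = 1) : Large G := by
  classical
  let α : FreeGroup s →* Equiv.Perm ((V × ZMod 2) × FreeGroup (ZMod 2)) :=
    FreeGroup.lift fun i => sg c κ (π (FreeGroup.of i))
  have hα : ∀ i, α (FreeGroup.of i) = sg c κ (π (FreeGroup.of i)) := fun i =>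
    FreeGroup.lift_apply_of
  have hα' : ∀ i, α (FreeGroup.of i)⁻¹ = (sg c κ (π (FreeGroup.of i)))⁻¹ := fun i => by
    rw [map_inv, hα]
  -- relators act trivially
  have hker : π.ker ≤ α.ker := by
    rw [hS]
    refine Subgroup.normalClosure_le_normal ?_
    intro r hr
    change r ∈ α.ker
    rw [MonoidHom.mem_ker]
    have hr1 : π r = 1 := by
      have : r ∈ π.ker := by
        rw [hS]
        exact Subgroup.subset_normalClosure hr
      exact this
    refine Equiv.ext fun x => ?_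
    obtain ⟨⟨q, ε⟩, p⟩ := x
    rw [Equiv.Perm.one_apply]
    rcases hpath r hr q with h | h
    · have key := agree α ((A0 hc).comp π)
        (fun x => ∀ i, κ (π (FreeGroup.of i)) x.1.1 = 0 ∧
          κ (π (FreeGroup.of i)) ((π (FreeGroup.of i))⁻¹ • x.1.1) = 0) ?_ ?_ ((q, ε), p) r.toWord
        (fun L' hL' => h L' hL')
      · rw [FreeGroup.mk_toWord] at key
        rw [key]
        change A0 hc (π r) ((q, ε), p) = _
        rw [hr1, map_one]
        rfl
      · rintro i ⟨⟨q, ε⟩, p⟩ hg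
        rw [hα, sg_apply]
        change _ = ((π (FreeGroup.of i) • q, ε + c (π (FreeGroup.of i)) q), p)
        have : κ (π (FreeGroup.of i)) q = 0 := (hg i).1
        rw [this, zpow_zero, one_mul]
      · rintro i ⟨⟨q, ε⟩, p⟩ hg
        rw [hα', sg_inv_apply]
        change _ = ((π (FreeGroup.of i)⁻¹ • q, ε + c (π (FreeGroup.of i)⁻¹) q), p)
        have : κ (π (FreeGroup.of i)) ((π (FreeGroup.of i))⁻¹ • q) = 0 := (hg i).2
        rw [this, zpow_zero, inv_one, one_mul, map_inv, hc.inv, sub_eq_add_neg]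
    · have key := agree α ((A1 hκ).comp π)
        (fun x => ∀ i, c (π (FreeGroup.of i)) x.1.1 = 0 ∧
          c (π (FreeGroup.of i)) ((π (FreeGroup.of i))⁻¹ • x.1.1) = 0) ?_ ?_ ((q, ε), p) r.toWord
        (fun L' hL' => h L' hL')
      · rw [FreeGroup.mk_toWord] at key
        rw [key]
        change A1 hκ (π r) ((q, ε), p) = _
        rw [hr1, map_one]
        rfl
      · rintro i ⟨⟨q, ε⟩, p⟩ hg
        rw [hα, sg_apply]
        change _ = ((π (FreeGroup.of i) • q, ε), FreeGroup.of ε ^ κ (π (FreeGroup.of i)) q * p)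
        have : c (π (FreeGroup.of i)) q = 0 := (hg i).1
        rw [this, add_zero]
      · rintro i ⟨⟨q, ε⟩, p⟩ hg
        rw [hα', sg_inv_apply]
        change _ = ((π (FreeGroup.of i)⁻¹ • q, ε), FreeGroup.of ε ^ κ (π (FreeGroup.of i)⁻¹) q * p)
        have : c (π (FreeGroup.of i)) ((π (FreeGroup.of i))⁻¹ • q) = 0 := (hg i).2
        rw [this, sub_zero, map_inv, hκ.inv, zpow_neg]
  -- the action of `G`
  let Sg : G →* Equiv.Perm ((V × ZMod 2) × FreeGroup (ZMod 2)) :=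
    MonoidHom.liftOfSurjective π hπ ⟨α, hker⟩
  have hSg : ∀ w, Sg (π w) = α w := fun w =>
    MonoidHom.liftOfRightInverse_comp_apply π _ _ ⟨α, hker⟩ w
  -- equivariance properties
  have E1 : ∀ g x, (Sg g x).1 = act0 hc g x.1 := by
    intro g x
    obtain ⟨w, rfl⟩ := hπ g
    rw [hSg]
    exact equivariant α ((act0 hc).comp π) Prod.fst (fun i z => by rw [hα]; rfl) w x
  have E2 : ∀ g v p p', Sg g (v, p * p') = ((Sg g (v, p)).1, (Sg g (v, p)).2 * p') := by
    intro g v p p'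
    obtain ⟨w, rfl⟩ := hπ g
    rw [hSg]
    refine (equivariant α α (fun x => (x.1, x.2 * p')) (fun i z => ?_) w (v, p)).symm
    obtain ⟨⟨q, ε⟩, p''⟩ := z
    rw [hα, sg_apply, sg_apply, mul_assoc]
  have E3 : ∀ g q ε p, Sg g ((q, ε + 1), sw p) =
      (((Sg g ((q, ε), p)).1.1, (Sg g ((q, ε), p)).1.2 + 1), sw (Sg g ((q, ε), p)).2) := by
    intro g q ε p
    obtain ⟨w, rfl⟩ := hπ g
    rw [hSg]
    refine (equivariant α α (fun x => ((x.1.1, x.1.2 + 1), sw x.2)) (fun i z => ?_) w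
      ((q, ε), p)).symm
    obtain ⟨⟨q', ε'⟩, p''⟩ := z
    rw [hα, sg_apply, sg_apply]
    refine Prod.ext (Prod.ext rfl ?_) ?_
    · change ε' + c _ q' + 1 = ε' + 1 + c _ q'
      ring
    · change sw (FreeGroup.of ε' ^ κ _ q' * p'') = FreeGroup.of (ε' + 1) ^ κ _ q' * sw p''
      rw [map_mul, map_zpow]
      rfl
  have E4 : ∀ g q ε p, Multiplicative.toAdd (ex 0 (Sg g ((q, ε), p)).2) +
      Multiplicative.toAdd (ex 1 (Sg g ((q, ε), p)).2) =
      κ g q + (Multiplicative.toAdd (ex 0 p) + Multiplicative.toAdd (ex 1 p)) := by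
    intro g q ε p
    obtain ⟨w, rfl⟩ := hπ g
    rw [hSg]
    have := equivariant α ((A2 hκ).comp π) (fun x => (x.1.1, Multiplicative.toAdd (ex 0 x.2) +
      Multiplicative.toAdd (ex 1 x.2))) (fun i z => by
        obtain ⟨⟨q', ε'⟩, p''⟩ := z
        rw [hα, sg_apply]
        refine Prod.ext rfl ?_
        exact ex_add_ex _ _ _) w ((q, ε), p)
    exact congrArg Prod.snd this
  -- the finite index subgroup
  let M : Subgroup G :=
    (MulAction.stabilizer (Equiv.Perm (V × ZMod 2)) (q₀, (0 : ZMod 2))).comap (act0 hc)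
  have hM : M.FiniteIndex := by
    have h1 : Finite (Equiv.Perm (V × ZMod 2)) := inferInstance
    have h2 : (act0 hc).ker.FiniteIndex := inferInstance
    have h3 : (act0 hc).ker ≤ M := by
      intro g hg
      change act0 hc g (q₀, 0) = (q₀, 0)
      rw [MonoidHom.mem_ker.1 hg]
      rfl
    exact Subgroup.finiteIndex_of_le h3
  have hM' : ∀ g ∈ M, act0 hc g (q₀, 0) = (q₀, 0) := fun g hg => hg
  have hM2 : ∀ g ∈ M, (Sg g ((q₀, 0), 1)) = ((q₀, 0), (Sg g ((q₀, 0), 1)).2) := by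
    intro g hg
    refine Prod.ext ?_ rfl
    rw [E1]
    exact hM' g hg
  let ψ : M →* FreeGroup (ZMod 2) :=
    { toFun := fun g => (Sg (g : G) ((q₀, 0), 1)).2
      map_one' := by
        change (Sg 1 ((q₀, 0), 1)).2 = 1
        rw [map_one]
        rfl
      map_mul' := fun g h => by
        change (Sg ((g : G) * h) ((q₀, 0), 1)).2 = _
        rw [map_mul, Equiv.Perm.mul_apply, hM2 h h.2]
        have := E2 (g : G) (q₀, 0) 1 (Sg (h : G) ((q₀, 0), 1)).2
        rw [one_mul] at this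
        rw [this] }
  have hzM : z ∈ M := by
    change act0 hc z (q₀, 0) = (q₀, 0)
    change (z • q₀, (0 : ZMod 2) + c z q₀) = (q₀, 0)
    rw [hz, hcz, add_zero]
  have ht' : t⁻¹ • q₀ = q₀ := by
    conv_lhs => rw [← ht]
    rw [inv_smul_smul]
  have a1 : act0 hc t⁻¹ (q₀, 0) = (q₀, 0 + 1) := by
    change (t⁻¹ • q₀, (0 : ZMod 2) + c t⁻¹ q₀) = (q₀, 0 + 1)
    rw [hc.inv, ht', hct]
    rfl
  have a2 : act0 hc t (q₀, 0 + 1) = (q₀, 0) := by
    change (t • q₀, (0 : ZMod 2) + 1 + c t q₀) = (q₀, 0)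
    rw [ht, hct]
    rfl
  have hz'M : t * z * t⁻¹ ∈ M := by
    change act0 hc (t * z * t⁻¹) (q₀, 0) = (q₀, 0)
    rw [map_mul, map_mul, Equiv.Perm.mul_apply, Equiv.Perm.mul_apply, a1]
    have : act0 hc z (q₀, 0 + 1) = (q₀, 0 + 1) := by
      change (z • q₀, (0 : ZMod 2) + 1 + c z q₀) = (q₀, 0 + 1)
      rw [hz, hcz, add_zero]
    rw [this, a2]
  -- the value at the conjugate
  obtain ⟨A, hA⟩ : ∃ A, Sg t⁻¹ ((q₀, 0), 1) = ((q₀, 0 + 1), A) :=
    ⟨_, Prod.ext (by rw [E1]; exact a1) rfl⟩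
  obtain ⟨A', hA'⟩ : ∃ A', Sg t ((q₀, 0 + 1), 1) = ((q₀, 0), A') :=
    ⟨_, Prod.ext (by rw [E1]; exact a2) rfl⟩
  have hAA : A' * A = 1 := by
    have h1 : Sg t (Sg t⁻¹ ((q₀, 0), 1)) = ((q₀, 0), 1) := by
      rw [← Equiv.Perm.mul_apply, ← map_mul, mul_inv_cancel, map_one]
      rfl
    rw [hA] at h1
    have h2 := E2 t (q₀, 0 + 1) 1 A
    rw [one_mul, hA', h1] at h2
    exact (congrArg Prod.snd h2).symm
  have hz1 : Sg z ((q₀, 0 + 1), 1) = ((q₀, 0 + 1), sw (ψ ⟨z, hzM⟩)) := by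
    have h1 := E3 z q₀ 0 1
    rw [map_one, hM2 z hzM] at h1
    exact h1
  have hψ' : ψ ⟨t * z * t⁻¹, hz'M⟩ = A' * (sw (ψ ⟨z, hzM⟩) * A) := by
    change (Sg (t * z * t⁻¹) ((q₀, 0), 1)).2 = _
    rw [map_mul, map_mul, Equiv.Perm.mul_apply, Equiv.Perm.mul_apply, hA]
    have h1 := E2 z (q₀, 0 + 1) 1 A
    rw [one_mul, hz1] at h1
    rw [h1]
    have h2 := E2 t (q₀, 0 + 1) 1 (sw (ψ ⟨z, hzM⟩) * A)
    rw [one_mul, hA'] at h2
    change (Sg t ((q₀, 0 + 1), sw (ψ ⟨z, hzM⟩) * A)).2 = _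
    rw [h2]
  have hex : ∀ ε, ex ε (ψ ⟨t * z * t⁻¹, hz'M⟩) = ex (ε + 1) (ψ ⟨z, hzM⟩) := by
    intro ε
    rw [hψ', map_mul, map_mul, mul_comm (ex ε (sw _)), ← mul_assoc, ← map_mul, hAA, map_one,
      one_mul, ex_sw]
  refine large_of_hom M hM ψ ⟨z, hzM⟩ ⟨t * z * t⁻¹, hz'M⟩ ?_ ?_ ?_
  · rw [hex]
    rfl
  · rw [hex]
    rfl
  · have := E4 z q₀ 0 1
    rw [map_one (ex 0), map_one (ex 1), toAdd_one, add_zero, add_zero] at this
    change Odd (Multiplicative.toAdd (ex 0 (Sg z ((q₀, 0), 1)).2) +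
      Multiplicative.toAdd (ex 1 (Sg z ((q₀, 0), 1)).2))
    rw [this]
    exact hκz

end main

end Pool.K3H
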