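import Pool.Agent.H59.K3.Lg1
import Pool.Agent.H59.K3.FG
import Pool.Agent.H59.K3.Grow

/-!
The cyclic covers of a finite cover: heights and the cut.
-/

namespace Pool.K3H

open Function Module

section ht

variable {G : Type} [Group G] (L : Subgroup G) (φ : G → ℤ)
  (hφ : ∀ a ∈ L, ∀ b ∈ L, φ (a * b) = φ a + φ b)

include hφ in
theorem phi_one : φ 1 = 0 := by
  have := hφ 1 L.one_mem 1 L.one_mem
  rw [mul_one] at this
  omega

include hφ in
theorem phi_inv {a : G} (ha : a ∈ L) : φ a⁻¹ = -φ a := by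
  have := hφ a ha a⁻¹ (L.inv_mem ha)
  rw [mul_inv_cancel, phi_one L φ hφ] at this
  omega

/-- the subgroup `φ⁻¹(mℤ)` of `L` -/
def Nm (m : ℤ) : Subgroup G where
  carrier := {g | g ∈ L ∧ m ∣ φ g}
  one_mem' := ⟨L.one_mem, by rw [phi_one L φ hφ]; exact dvd_zero _⟩
  mul_mem' := by
    rintro a b ⟨ha, ha'⟩ ⟨hb, hb'⟩
    exact ⟨L.mul_mem ha hb, by rw [hφ a ha b hb]; exact dvd_add ha' hb'⟩
  inv_mem' := by
    rintro a ⟨ha, ha'⟩
    exact ⟨L.inv_mem ha, by rw [phi_inv L φ hφ ha]; exact (dvd_neg).2 ha'⟩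

/-- the height of a group element in its `L`-coset -/
noncomputable def ht (g : G) : ℤ := φ (((g : G ⧸ L).out)⁻¹ * g)

theorem out_inv_mul_mem (g : G) : ((g : G ⧸ L).out)⁻¹ * g ∈ L := by
  rw [← QuotientGroup.eq]
  exact QuotientGroup.out_eq' _

/-- the integral cocycle on `G/L` -/
noncomputable def Ec (g : G) (v : G ⧸ L) : ℤ := φ (nq L g v)

include hφ in
theorem ht_mul (g x : G) : ht L φ (g * x) = Ec L φ g (x : G ⧸ L) + ht L φ x := by
  unfold ht Ec
  rw [← hφ _ (nq_mem L g _) _ (out_inv_mul_mem L x)]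
  congr 1
  unfold nq
  have : ((g * x : G) : G ⧸ L) = g • (x : G ⧸ L) := rfl
  rw [this]
  group

include hφ in
theorem ht_mul_right (x : G) {n : G} (hn : n ∈ L) : ht L φ (x * n) = ht L φ x + φ n := by
  unfold ht
  have h1 : ((x * n : G) : G ⧸ L) = (x : G ⧸ L) := by
    rw [QuotientGroup.eq]
    have : (x * n)⁻¹ * x = n⁻¹ := by group
    rw [this]
    exact L.inv_mem hn
  rw [h1, ← mul_assoc, hφ _ (out_inv_mul_mem L x) _ hn]

variable {m : ℤ} (hm : 0 < m)

/-- the height of a coset modulo `m` -/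
noncomputable def th (q : G ⧸ Nm L φ hφ m) : ℤ := ht L φ q.out % m

/-- the projection to `G/L` -/
noncomputable def ub (q : G ⧸ Nm L φ hφ m) : G ⧸ L := (q.out : G ⧸ L)

theorem out_eq_mul (x : G) : ∃ n ∈ Nm L φ hφ m, ((x : G ⧸ Nm L φ hφ m)).out = x * n := by
  refine ⟨x⁻¹ * ((x : G ⧸ Nm L φ hφ m)).out, ?_, by group⟩
  rw [← QuotientGroup.eq]
  exact (QuotientGroup.out_eq' _).symm

theorem ub_mk (x : G) : ub L φ hφ (x : G ⧸ Nm L φ hφ m) = (x : G ⧸ L) := by
  obtain ⟨n, hn, h⟩ := out_eq_mul L φ hφ (m := m) x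
  unfold ub
  rw [h, QuotientGroup.eq]
  have : (x * n)⁻¹ * x = n⁻¹ := by group
  rw [this]
  exact L.inv_mem hn.1

theorem th_mk (x : G) : th L φ hφ (x : G ⧸ Nm L φ hφ m) = ht L φ x % m := by
  obtain ⟨n, hn, h⟩ := out_eq_mul L φ hφ (m := m) x
  unfold th
  rw [h, ht_mul_right L φ hφ x hn.1]
  obtain ⟨k, hk⟩ := hn.2
  rw [hk, Int.add_mul_emod_self_left]

include hm in
theorem th_nonneg (q : G ⧸ Nm L φ hφ m) : 0 ≤ th L φ hφ q := Int.emod_nonneg _ hm.ne'

include hm in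
theorem th_lt (q : G ⧸ Nm L φ hφ m) : th L φ hφ q < m := Int.emod_lt_of_pos _ hm

/-- a coset is determined by its projection and its height -/
theorem ub_th_inj {q q' : G ⧸ Nm L φ hφ m} (h1 : ub L φ hφ q = ub L φ hφ q')
    (h2 : th L φ hφ q = th L φ hφ q') : q = q' := by
  induction q using QuotientGroup.induction_on with
  | H x =>
    induction q' using QuotientGroup.induction_on with
    | H y =>
      rw [ub_mk, ub_mk, QuotientGroup.eq] at h1
      rw [th_mk, th_mk] at h2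
      rw [QuotientGroup.eq]
      refine ⟨h1, ?_⟩
      have h3 : ht L φ y = ht L φ x + φ (x⁻¹ * y) := by
        rw [← ht_mul_right L φ hφ x h1]
        congr 1
        group
      have h4 : φ (x⁻¹ * y) = ht L φ y - ht L φ x := by omega
      rw [h4]
      exact Int.ModEq.dvd h2

theorem ub_smul (g : G) (q : G ⧸ Nm L φ hφ m) : ub L φ hφ (g • q) = g • ub L φ hφ q := by
  induction q using QuotientGroup.induction_on with
  | H x =>
    have : g • (x : G ⧸ Nm L φ hφ m) = ((g * x : G) : G ⧸ Nm L φ hφ m) := rfl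
    rw [this, ub_mk, ub_mk]
    rfl

theorem dvd_cut (g : G) (q : G ⧸ Nm L φ hφ m) :
    m ∣ Ec L φ g (ub L φ hφ q) + th L φ hφ q - th L φ hφ (g • q) := by
  induction q using QuotientGroup.induction_on with
  | H x =>
    have h1 : g • (x : G ⧸ Nm L φ hφ m) = ((g * x : G) : G ⧸ Nm L φ hφ m) := rfl
    rw [h1, ub_mk, th_mk, th_mk, ht_mul L φ hφ]
    have h2 := Int.emod_add_mul_ediv (ht L φ x) m
    have h3 := Int.emod_add_mul_ediv (Ec L φ g (x : G ⧸ L) + ht L φ x) m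
    refine ⟨(Ec L φ g (x : G ⧸ L) + ht L φ x) / m - (ht L φ x) / m, ?_⟩
    linear_combination h2 - h3

/-- the cut cocycle -/
noncomputable def cut (g : G) (q : G ⧸ Nm L φ hφ m) : ℤ :=
  (Ec L φ g (ub L φ hφ q) + th L φ hφ q - th L φ hφ (g • q)) / m

theorem mul_cut (g : G) (q : G ⧸ Nm L φ hφ m) :
    m * cut L φ hφ g q = Ec L φ g (ub L φ hφ q) + th L φ hφ q - th L φ hφ (g • q) :=
  Int.mul_ediv_cancel' (dvd_cut L φ hφ g q)

include hφ in
theorem Ec_mul (g h : G) (v : G ⧸ L) : Ec L φ (g * h) v = Ec L φ g (h • v) + Ec L φ h v := by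
  unfold Ec
  rw [nq_mul, hφ _ (nq_mem _ _ _) _ (nq_mem _ _ _)]

include hm in
theorem isCo_cut : IsCo (cut L φ hφ (m := m)) := by
  intro g h q
  have h1 := mul_cut L φ hφ (g * h) q
  have h2 := mul_cut L φ hφ g (h • q)
  have h3 := mul_cut L φ hφ h q
  rw [Ec_mul L φ hφ, mul_smul] at h1
  rw [ub_smul] at h2
  have : m * cut L φ hφ (g * h) q = m * (cut L φ hφ g (h • q) + cut L φ hφ h q) := by
    rw [h1, mul_add, h2, h3]
    ring
  exact mul_left_cancel₀ hm.ne' this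

include hm in
theorem cut_ne_zero {B : ℤ} {g : G} (hB : ∀ v, |Ec L φ g v| ≤ B) {q : G ⧸ Nm L φ hφ m}
    (h : cut L φ hφ g q ≠ 0) : th L φ hφ q < B ∨ m - B ≤ th L φ hφ q := by
  have h1 := mul_cut L φ hφ g q
  have h2 := abs_le.1 (hB (ub L φ hφ q))
  have h3 := th_nonneg L φ hφ hm q
  have h4 := th_lt L φ hφ hm q
  have h5 := th_nonneg L φ hφ hm (g • q)
  have h6 := th_lt L φ hφ hm (g • q)
  rcases lt_or_gt_of_ne h with hlt | hgt
  · left
    have : m * cut L φ hφ g q ≤ m * (-1) := mul_le_mul_of_nonneg_left (by omega) hm.le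
    omega
  · right
    have : m * 1 ≤ m * cut L φ hφ g q := mul_le_mul_of_nonneg_left (by omega) hm.le
    omega

/-- the cosets near the cut -/
def nearCut (B : ℤ) : Set (G ⧸ Nm L φ hφ m) :=
  {q | th L φ hφ q < B ∨ m - B ≤ th L φ hφ q}

include hm in
theorem finite_quot [L.FiniteIndex] : Finite (G ⧸ Nm L φ hφ m) := by
  have hinj : Injective fun q : G ⧸ Nm L φ hφ m =>
      ((ub L φ hφ q, ⟨th L φ hφ q, Finset.mem_Ico.2 ⟨th_nonneg L φ hφ hm q, th_lt L φ hφ hm q⟩⟩) :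
        (G ⧸ L) × Finset.Ico (0 : ℤ) m) := by
    intro q q' h
    exact ub_th_inj L φ hφ (congrArg Prod.fst h) (congrArg (fun x => (x.2 : ℤ)) h)
  exact Finite.of_injective _ hinj

include hm in
theorem card_nearCut [L.FiniteIndex] {B : ℤ} :
    Nat.card (nearCut L φ hφ (m := m) B) ≤ L.index * (2 * B.toNat) := by
  classical
  have hf := finite_quot L φ hφ hm
  have h1 : Nat.card (nearCut L φ hφ (m := m) B) ≤
      Nat.card ((G ⧸ L) × ((Finset.Ico (0 : ℤ) B ∪ Finset.Ico (m - B) m : Finset ℤ))) := by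
    refine Nat.card_le_card_of_injective (fun q => (ub L φ hφ q.1, ⟨th L φ hφ q.1, ?_⟩)) ?_
    · rw [Finset.mem_union, Finset.mem_Ico, Finset.mem_Ico]
      rcases q.2 with h | h
      · exact Or.inl ⟨th_nonneg L φ hφ hm q.1, h⟩
      · exact Or.inr ⟨h, th_lt L φ hφ hm q.1⟩
    · intro q q' h
      exact Subtype.ext (ub_th_inj L φ hφ (congrArg Prod.fst h)
        (congrArg (fun x => (x.2 : ℤ)) h))
  refine h1.trans ?_
  rw [Nat.card_prod]
  refine Nat.mul_le_mul le_rfl ?_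
  rw [Nat.card_eq_fintype_card, Fintype.card_coe]
  refine (Finset.card_union_le _ _).trans ?_
  rw [Int.card_Ico, Int.card_Ico]
  have : m - (m - B) = B := by ring
  rw [this, sub_zero]
  omega

/-- at the base point -/
theorem cut_base {n : G} (hn : n ∈ Nm L φ hφ m) :
    m * cut L φ hφ n ((1 : G) : G ⧸ Nm L φ hφ m) = φ n := by
  rw [mul_cut]
  have h1 : n • ((1 : G) : G ⧸ Nm L φ hφ m) = ((1 : G) : G ⧸ Nm L φ hφ m) := by
    have : n • ((1 : G) : G ⧸ Nm L φ hφ m) = ((n * 1 : G) : G ⧸ Nm L φ hφ m) := rfl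
    rw [this, QuotientGroup.eq, mul_one, mul_one]
    exact (Nm L φ hφ m).inv_mem hn
  rw [h1, ub_mk, add_sub_cancel_right]
  have h2 := ht_mul L φ hφ n 1
  have h3 := ht_mul_right L φ hφ 1 hn.1
  rw [one_mul] at h3
  rw [mul_one] at h2
  omega

end ht

end Pool.K3H
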