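import Pool.Agent.H59.K3.Lg2

/-!
A finitely presented group with a finite index subgroup `L → ℤ` such that the mod 2 first Betti
numbers of the cyclic covers are unbounded is large.
-/

namespace Pool.K3H

open Function Module

theorem xi_base {G : Type} [Group G] (N : Subgroup G) (ξ : Additive N →+ ZMod 2) {n : G}
    (hn : n ∈ N) : xi N ξ n ((1 : G) : G ⧸ N) = ξ (Additive.ofMul ⟨n, hn⟩) := by
  have h1 : n • ((1 : G) : G ⧸ N) = ((1 : G) : G ⧸ N) := by
    have : n • ((1 : G) : G ⧸ N) = ((n * 1 : G) : G ⧸ N) := rfl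
    rw [this, QuotientGroup.eq, mul_one, mul_one]
    exact N.inv_mem hn
  set o := ((1 : G) : G ⧸ N).out with ho
  have hoN : o ∈ N := by
    have : (o : G ⧸ N) = ((1 : G) : G ⧸ N) := QuotientGroup.out_eq' _
    rw [QuotientGroup.eq, mul_one] at this
    simpa using N.inv_mem this
  have h2 : nq N n ((1 : G) : G ⧸ N) = o⁻¹ * (n * o) := by
    unfold nq
    rw [h1]
  unfold xi
  have h3 : (⟨nq N n ((1 : G) : G ⧸ N), nq_mem N n _⟩ : N) =
      (⟨o, hoN⟩ : N)⁻¹ * (⟨n, hn⟩ * ⟨o, hoN⟩) := Subtype.ext h2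
  rw [h3, ofMul_mul, ofMul_mul, ofMul_inv, map_add, map_add, map_neg]
  ring

theorem smul_base {G : Type} [Group G] (N : Subgroup G) {n : G} (hn : n ∈ N) :
    n • ((1 : G) : G ⧸ N) = ((1 : G) : G ⧸ N) := by
  have : n • ((1 : G) : G ⧸ N) = ((n * 1 : G) : G ⧸ N) := rfl
  rw [this, QuotientGroup.eq, mul_one, mul_one]
  exact N.inv_mem hn

theorem exists_indep {X : Type} [AddCommGroup X] [Module (ZMod 2) X] [Module.Finite (ZMod 2) X]
    (K : Submodule (ZMod 2) X) (hK : 2 ≤ finrank (ZMod 2) K) (y : X) :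
    ∃ x ∈ K, x ≠ 0 ∧ x ≠ y := by
  by_contra hno
  push Not at hno
  have h1 : K ≤ Submodule.span (ZMod 2) {y} := by
    intro x hx
    by_cases h0 : x = 0
    · rw [h0]; exact zero_mem _
    · rw [hno x hx h0]
      exact Submodule.mem_span_singleton_self y
  have h2 := Submodule.finrank_mono h1
  have h3 : finrank (ZMod 2) (Submodule.span (ZMod 2) {y}) ≤ 1 :=
    (finrank_span_le_card (R := ZMod 2) ({y} : Set X)).trans (by simp)
  omega

theorem large_of_growth {G : Type} [Group G] [Group.IsFinitelyPresented G] (L : Subgroup G)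
    [L.FiniteIndex] (φ : G → ℤ) (hφ : ∀ a ∈ L, ∀ b ∈ L, φ (a * b) = φ a + φ b)
    (hsurj : ∃ l ∈ L, φ l = 1)
    (hgrow : ∀ C : ℕ, ∃ m : ℤ, 0 < m ∧
      C < finrank (ZMod 2) (Additive (Nm L φ hφ m) →+ ZMod 2)) : Large G := by
  classical
  obtain ⟨s, π, hπ, S, hSfin, hS⟩ := Group.IsFinitelyPresented.out (G := G)
  have hFG : Group.FG G := Group.fg_of_surjective hπ
  -- the bound on `Ec`
  obtain ⟨B, hB⟩ : ∃ B : ℤ, ∀ (i : Fin s) v, |Ec L φ (π (FreeGroup.of i)) v| ≤ B := by
    have hfin : (Set.range fun x : Fin s × (G ⧸ L) =>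
      |Ec L φ (π (FreeGroup.of x.1)) x.2|).Finite := Set.finite_range _
    obtain ⟨B, hB⟩ := hfin.bddAbove
    exact ⟨B, fun i v => hB ⟨(i, v), rfl⟩⟩
  -- the finite set of translations
  let Suf : Set (List (Fin s × Bool)) := ⋃ r ∈ S, {L' | L' <:+ r.toWord}
  have hSuf : Suf.Finite := by
    refine hSfin.biUnion fun r _ => ?_
    refine (r.toWord.tails.toFinset.finite_toSet).subset fun L' hL' => ?_
    rw [Finset.mem_coe, List.mem_toFinset, List.mem_tails]
    exact hL'
  let Gn : Set G := insert 1 (Set.range fun i : Fin s => π (FreeGroup.of i))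
  have hGn : Gn.Finite := (Set.finite_range _).insert _
  let T : Set G := (fun x : (G × List (Fin s × Bool)) × (List (Fin s × Bool) × G) =>
    x.1.1⁻¹ * (π (FreeGroup.mk x.1.2) * (π (FreeGroup.mk x.2.1))⁻¹ * x.2.2)) ''
      ((Gn ×ˢ Suf) ×ˢ (Suf ×ˢ Gn))
  have hT : T.Finite := ((hGn.prod hSuf).prod (hSuf.prod hGn)).image _
  have hTf : Finite T := hT
  obtain ⟨m, hm, hC⟩ := hgrow (s * (Nat.card T * (L.index * (2 * B.toNat))) + 1)
  let N := Nm L φ hφ m
  have hfq : Finite (G ⧸ N) := finite_quot L φ hφ hm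
  have hNfi : N.FiniteIndex := Subgroup.finiteIndex_of_finite_quotient
  have hNfg : Group.FG N := inferInstance
  have hfin : Module.Finite (ZMod 2) (Additive N →+ ZMod 2) := finite_hom N
  let ρ : (Additive N →+ ZMod 2) →ₗ[ZMod 2]
      ((Fin s × (T × nearCut L φ hφ (m := m) B)) → ZMod 2) :=
    { toFun := fun ξ x => xi N ξ (π (FreeGroup.of x.1)) ((x.2.1 : G) • (x.2.2 : G ⧸ N))
      map_add' := fun _ _ => rfl
      map_smul' := fun _ _ => rfl }
  have hker : 2 ≤ finrank (ZMod 2) (LinearMap.ker ρ) := by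
    have h1 := LinearMap.finrank_range_add_finrank_ker ρ
    have h2 : finrank (ZMod 2) (LinearMap.range ρ) ≤
        s * (Nat.card T * (L.index * (2 * B.toNat))) := by
      refine (Submodule.finrank_le _).trans ?_
      have : Fintype (Fin s × (T × nearCut L φ hφ (m := m) B)) := Fintype.ofFinite _
      rw [finrank_fintype_fun_eq_card, ← Nat.card_eq_fintype_card, Nat.card_prod, Nat.card_prod,
        Nat.card_eq_fintype_card, Fintype.card_fin]
      exact Nat.mul_le_mul le_rfl (Nat.mul_le_mul le_rfl (card_nearCut L φ hφ hm))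
    change _ < finrank (ZMod 2) (Additive N →+ ZMod 2) at hC
    omega
  -- the reduction of the cut class
  have hdiv : ∀ n : N, m * (φ (n : G) / m) = φ n := fun n => Int.mul_ediv_cancel' n.2.2
  let κ₀ : Additive N →+ ZMod 2 :=
    { toFun := fun n => ((φ ((Additive.toMul n : N) : G) / m : ℤ) : ZMod 2)
      map_zero' := by
        change ((φ (1 : G) / m : ℤ) : ZMod 2) = 0
        rw [phi_one L φ hφ]
        simp
      map_add' := fun a b => by
        change ((φ (((Additive.toMul a : N) : G) * ((Additive.toMul b : N) : G)) / m : ℤ) : ZMod 2)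
          = _
        rw [hφ _ (Additive.toMul a : N).2.1 _ (Additive.toMul b : N).2.1,
          Int.add_ediv_of_dvd_left (Additive.toMul a : N).2.2]
        push_cast
        rfl }
  obtain ⟨ξ, hξK, hξ0, hξκ⟩ := exists_indep (LinearMap.ker ρ) hker κ₀
  have hξ : ∀ i, ∀ t ∈ T, ∀ d ∈ nearCut L φ hφ (m := m) B,
      xi N ξ (π (FreeGroup.of i)) (t • d) = 0 := by
    intro i t ht d hd
    exact congrFun (LinearMap.mem_ker.1 hξK) (i, ⟨t, ht⟩, ⟨d, hd⟩)
  -- the elements `z` and `t`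
  obtain ⟨t, ht⟩ : ∃ t : N, ξ (Additive.ofMul t) = 1 := by
    by_contra hno
    push Not at hno
    apply hξ0
    refine AddMonoidHom.ext fun n => ?_
    rcases zmod2_cases (ξ n) with h | h
    · exact h
    · exact absurd h (hno (Additive.toMul n))
  obtain ⟨l, hl, hl1⟩ := hsurj
  have hl2 : ∀ k : ℕ, φ (l ^ k) = k := by
    intro k
    induction k with
    | zero => rw [pow_zero, phi_one L φ hφ]; rfl
    | succ k ih =>
      rw [pow_succ, hφ _ (L.pow_mem hl k) _ hl, ih, hl1]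
      push_cast
      rfl
  have hlN : l ^ m.toNat ∈ N := ⟨L.pow_mem hl _, by rw [hl2, Int.toNat_of_nonneg hm.le]⟩
  have hκl : κ₀ (Additive.ofMul ⟨l ^ m.toNat, hlN⟩) = 1 := by
    change ((φ (l ^ m.toNat) / m : ℤ) : ZMod 2) = 1
    rw [hl2, Int.toNat_of_nonneg hm.le, Int.ediv_self hm.ne']
    rfl
  obtain ⟨z, hz0, hz1⟩ : ∃ z : N, ξ (Additive.ofMul z) = 0 ∧ κ₀ (Additive.ofMul z) = 1 := by
    by_contra hno
    push Not at hno
    have h1 : ∀ z : N, ξ (Additive.ofMul z) = 0 → κ₀ (Additive.ofMul z) = 0 := by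
      intro z hz
      rcases zmod2_cases (κ₀ (Additive.ofMul z)) with h | h
      · exact h
      · exact absurd h (hno z hz)
    have h2 : ∀ z : N, ξ (Additive.ofMul z) = 1 →
        κ₀ (Additive.ofMul z) = κ₀ (Additive.ofMul t) := by
      intro z hz
      have h3 : ξ (Additive.ofMul (z * t)) = 0 := by
        rw [ofMul_mul, map_add, hz, ht]
        decide
      have h4 := h1 _ h3
      rw [ofMul_mul, map_add] at h4
      rcases zmod2_cases (κ₀ (Additive.ofMul z)) with h | h <;>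
        rcases zmod2_cases (κ₀ (Additive.ofMul t)) with h' | h' <;> rw [h, h'] at h4 ⊢
      · exact absurd h4 (by decide)
      · exact absurd h4 (by decide)
    rcases zmod2_cases (κ₀ (Additive.ofMul t)) with h | h
    · have h3 : κ₀ (Additive.ofMul ⟨l ^ m.toNat, hlN⟩) = 0 := by
        rcases zmod2_cases (ξ (Additive.ofMul ⟨l ^ m.toNat, hlN⟩)) with h' | h'
        · exact h1 _ h'
        · rw [h2 _ h', h]
      rw [hκl] at h3
      exact absurd h3 (by decide)
    · apply hξκ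
      refine AddMonoidHom.ext fun n => ?_
      rcases zmod2_cases (ξ n) with h' | h'
      · rw [h']
        exact (h1 (Additive.toMul n) h').symm
      · rw [h']
        exact ((h2 (Additive.toMul n) h').trans h).symm
  have hc : IsCo (fun g q => xi N ξ g q) := fun g h q => xi_mul N ξ g h q
  refine large_of_cocycles hc (isCo_cut L φ hφ hm) π hπ S hS.symm ?_ ((1 : G) : G ⧸ N) z t
    (smul_base N z.2) (smul_base N t.2) ?_ ?_ ?_
  · intro r hr q
    by_cases h : ∃ L₀ : List (Fin s × Bool), L₀ <:+ r.toWord ∧ ∃ i,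
        ¬ (cut L φ hφ (π (FreeGroup.of i)) (π (FreeGroup.mk L₀) • q) = 0 ∧
          cut L φ hφ (π (FreeGroup.of i))
            ((π (FreeGroup.of i))⁻¹ • π (FreeGroup.mk L₀) • q) = 0)
    · right
      obtain ⟨L₀, hL₀, i₀, hi₀⟩ := h
      obtain ⟨b, hb, d, hd, hbd⟩ : ∃ b ∈ Gn, ∃ d ∈ nearCut L φ hφ (m := m) B,
          π (FreeGroup.mk L₀) • q = b • d := by
        by_cases h1 : cut L φ hφ (π (FreeGroup.of i₀)) (π (FreeGroup.mk L₀) • q) = 0
        · have h2 : cut L φ hφ (π (FreeGroup.of i₀))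
            ((π (FreeGroup.of i₀))⁻¹ • π (FreeGroup.mk L₀) • q) ≠ 0 := fun h2 => hi₀ ⟨h1, h2⟩
          refine ⟨π (FreeGroup.of i₀), Set.mem_insert_of_mem _ ⟨i₀, rfl⟩, _,
            cut_ne_zero L φ hφ hm (hB i₀) h2, ?_⟩
          rw [smul_inv_smul]
        · exact ⟨1, Set.mem_insert _ _, _, cut_ne_zero L φ hφ hm (hB i₀) h1, (one_smul _ _).symm⟩
      have hL₀S : L₀ ∈ Suf := Set.mem_biUnion hr hL₀
      intro L' hL' i
      have hL'S : L' ∈ Suf := Set.mem_biUnion hr hL'
      have e1 : π (FreeGroup.mk L') • q =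
          (π (FreeGroup.mk L') * (π (FreeGroup.mk L₀))⁻¹ * b) • d := by
        rw [mul_smul, ← hbd, mul_smul, inv_smul_smul]
      constructor
      · have e2 : π (FreeGroup.mk L') • q =
            ((1 : G)⁻¹ * (π (FreeGroup.mk L') * (π (FreeGroup.mk L₀))⁻¹ * b)) • d := by
          rw [e1, inv_one, one_mul]
        change xi N ξ _ (π (FreeGroup.mk L') • q) = 0
        rw [e2]
        exact hξ i _ ⟨((1, L'), (L₀, b)), ⟨⟨Set.mem_insert _ _, hL'S⟩, ⟨hL₀S, hb⟩⟩, rfl⟩ d hd
      · have e2 : (π (FreeGroup.of i))⁻¹ • π (FreeGroup.mk L') • q =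
            ((π (FreeGroup.of i))⁻¹ *
              (π (FreeGroup.mk L') * (π (FreeGroup.mk L₀))⁻¹ * b)) • d := by
          rw [e1, ← mul_smul]
        change xi N ξ _ ((π (FreeGroup.of i))⁻¹ • π (FreeGroup.mk L') • q) = 0
        rw [e2]
        exact hξ i _ ⟨((π (FreeGroup.of i), L'), (L₀, b)),
          ⟨⟨Set.mem_insert_of_mem _ ⟨i, rfl⟩, hL'S⟩, ⟨hL₀S, hb⟩⟩, rfl⟩ d hd
    · left
      push Not at h
      intro L' hL' i
      by_contra hcon
      exact hcon (h L' hL' i)
  · change xi N ξ (z : G) _ = 0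
    rw [xi_base N ξ z.2]
    exact hz0
  · have h1 := cut_base L φ hφ z.2
    have h2 : cut L φ hφ (z : G) ((1 : G) : G ⧸ N) = φ (z : G) / m := by
      rw [← hdiv z] at h1
      exact mul_left_cancel₀ hm.ne' h1
    rw [h2]
    have h3 : ((φ (z : G) / m : ℤ) : ZMod 2) = 1 := hz1
    rw [← Int.not_even_iff_odd, ← ZMod.intCast_eq_zero_iff_even, h3]
    decide
  · change xi N ξ (t : G) _ = 1
    rw [xi_base N ξ t.2]
    exact ht

end Pool.K3H
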