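import Pool.Agent.H59.K3.PIA
import Pool.Agent.H59.K3.Grow

/-!
The principal ideal theorem, mod 2: the transfer from a finitely generated group with finite
abelianization to its commutator subgroup vanishes.
-/

namespace Pool.K3H

open Function

section ring

variable (Q : Type) [CommGroup Q]

/-- the integral augmentation -/
noncomputable def augZ : MonoidAlgebra ℤ Q →+* ℤ :=
  (MonoidAlgebra.lift ℤ ℤ Q (1 : Q →* ℤ)).toRingHom

variable {Q}

theorem augZ_of (q : Q) : augZ Q (MonoidAlgebra.of ℤ Q q) = 1 := by
  unfold augZ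
  change MonoidAlgebra.lift ℤ ℤ Q (1 : Q →* ℤ) (MonoidAlgebra.of ℤ Q q) = 1
  rw [MonoidAlgebra.lift_of]
  rfl

theorem indZ {p : MonoidAlgebra ℤ Q → Prop} (hu : ∀ g, p (MonoidAlgebra.of ℤ Q g))
    (hadd : ∀ a b, p a → p b → p (a + b)) (hs : ∀ (n : ℤ) a, p a → p (n • a))
    (a : MonoidAlgebra ℤ Q) : p a := by
  induction a using MonoidAlgebra.induction_on with
  | of g => exact hu g
  | add a b ha hb => exact hadd a b ha hb
  | smul n a ha => exact hs n a ha

theorem mul_sum_of [Fintype Q] (x : MonoidAlgebra ℤ Q) :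
    x * ∑ q : Q, MonoidAlgebra.of ℤ Q q = augZ Q x • ∑ q : Q, MonoidAlgebra.of ℤ Q q := by
  induction x using indZ with
  | hu g =>
    rw [augZ_of, one_smul, Finset.mul_sum,
      ← Equiv.sum_comp (Equiv.mulLeft g) (fun k => MonoidAlgebra.of ℤ Q k)]
    refine Finset.sum_congr rfl fun k _ => ?_
    rw [← map_mul]
    rfl
  | hadd a b ha hb => rw [add_mul, ha, hb, map_add, add_smul]
  | hs n a ha => rw [smul_mul_assoc, ha, map_zsmul, smul_smul, smul_eq_mul]

theorem eq_of_nsmul {n : ℕ} (hn : n ≠ 0) {x y : MonoidAlgebra ℤ Q} (h : n • x = n • y) :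
    x = y := by
  have h1 : ∀ q, x.coeff q = y.coeff q := by
    intro q
    have h2 : (n • x).coeff q = (n • y).coeff q := by rw [h]
    have h3 : (n : ℤ) * x.coeff q = (n : ℤ) * y.coeff q := by
      rw [← nsmul_eq_mul, ← nsmul_eq_mul]
      exact h2
    exact mul_left_cancel₀ (Nat.cast_ne_zero.2 hn) h3
  ext q
  exact h1 q

end ring

/-- every crossed homomorphism of a finitely generated group with finite abelianization is killed
by the norm of the abelianization -/
theorem norm_smul_eq_zero (H : Type) [Group H] [Group.FG H] [Fintype (Abelianization H)]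
    {Y : Type} [AddCommGroup Y] [Module (MonoidAlgebra ℤ (Abelianization H)) Y] (D : H → Y)
    (hD : IsCr ((MonoidAlgebra.of ℤ (Abelianization H)).comp Abelianization.of) D) (h : H) :
    (∑ q : Abelianization H, MonoidAlgebra.of ℤ (Abelianization H) q) • D h = 0 := by
  classical
  set t : H →* MonoidAlgebra ℤ (Abelianization H) := (MonoidAlgebra.of ℤ (Abelianization H)).comp Abelianization.of with ht
  obtain ⟨ι, _, _, a, e, ha, hae, hprod⟩ := exists_adapted H
  have hD' : IsCr t (fun h => ((t h - 1, D h) : MonoidAlgebra ℤ (Abelianization H) × Y)) := by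
    intro g h
    refine Prod.ext ?_ ?_
    · change t (g * h) - 1 = (t g - 1) + t g * (t h - 1)
      rw [map_mul]
      ring
    · exact hD g h
  have hI : ∀ g, t g - 1 ∈ RingHom.ker (augZ (Abelianization H)) := by
    intro g
    rw [RingHom.mem_ker, map_sub, map_one]
    change augZ (Abelianization H) (MonoidAlgebra.of ℤ (Abelianization H) _) - 1 = 0
    rw [augZ_of, sub_self]
  obtain ⟨η, hη, hdet⟩ := hD'.exists_matrix a ha e hae _ hI
  set d := (Matrix.diagonal (fun i => ∑ k ∈ Finset.range (e i), t (a i) ^ k) - η).det with hd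
  have h1 : ∀ h, d * (t h - 1) = 0 := fun h => congrArg Prod.fst (hdet h)
  have h2 : ∀ q : (Abelianization H), d * MonoidAlgebra.of ℤ (Abelianization H) q = d := by
    intro q
    obtain ⟨g, rfl⟩ := QuotientGroup.mk_surjective q
    have := h1 g
    rw [mul_sub, mul_one] at this
    exact sub_eq_zero.1 this
  have h3 : augZ (Abelianization H) d = Fintype.card (Abelianization H) := by
    rw [hd, RingHom.map_det, map_sub]
    have e1 : (augZ (Abelianization H)).mapMatrix η = 0 := by
      ext i j
      exact hη i j
    have e2 : (augZ (Abelianization H)).mapMatrix (Matrix.diagonal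
        (fun i => ∑ k ∈ Finset.range (e i), t (a i) ^ k)) = Matrix.diagonal (fun i => (e i : ℤ)) := by
      rw [RingHom.mapMatrix_apply, Matrix.diagonal_map (map_zero _)]
      congr 1
      funext i
      change augZ (Abelianization H) (∑ k ∈ Finset.range (e i), t (a i) ^ k) = _
      rw [map_sum]
      have : ∀ k ∈ Finset.range (e i), augZ (Abelianization H) (t (a i) ^ k) = 1 := by
        intro k _
        rw [map_pow]
        change (augZ (Abelianization H) (MonoidAlgebra.of ℤ (Abelianization H) _)) ^ k = 1
        rw [augZ_of, one_pow]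
      rw [Finset.sum_congr rfl this]
      simp
    rw [e1, e2, sub_zero, Matrix.det_diagonal, ← Nat.card_eq_fintype_card, ← hprod]
    push_cast
    rfl
  have h4 : d = ∑ q : (Abelianization H), MonoidAlgebra.of ℤ (Abelianization H) q := by
    refine eq_of_nsmul (n := Fintype.card (Abelianization H)) Fintype.card_ne_zero ?_
    have e1 := mul_sum_of d
    rw [h3, Finset.mul_sum, Finset.sum_congr rfl fun q _ => h2 q, Finset.sum_const,
      Finset.card_univ] at e1
    rw [e1]
    exact natCast_zsmul _ _
  rw [← h4]
  exact congrArg Prod.snd (hdet h)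

theorem nrm_mul {K : Type} [Group K] [Fintype K] (a : GA K) : nrm K * a = aug a • nrm K := by
  induction a using GA.ind with
  | h0 => simp
  | hu g =>
    rw [aug_u, one_smul]
    unfold nrm
    rw [Finset.sum_mul]
    rw [← Equiv.sum_comp (Equiv.mulRight g) (fun k => (u k : GA K))]
    refine Finset.sum_congr rfl fun k _ => ?_
    rw [← u_mul]
    rfl
  | hadd a b ha hb => rw [mul_add, ha, hb, map_add, add_smul]

/-- the principal ideal theorem, mod 2 -/
theorem trv_commutator (H : Type) [Group H] [Group.FG H] [Finite (Abelianization H)]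
    [(commutator H).FiniteIndex] (ξ : Additive (commutator H) →+ ZMod 2) (g : H) :
    trv (commutator H) ξ g = 0 := by
  classical
  let _ : Fintype (Abelianization H) := Fintype.ofFinite _
  let _ : Fintype (H ⧸ commutator H) := inferInstanceAs (Fintype (Abelianization H))
  let ρ₀ : Abelianization H →* GA (H ⧸ commutator H) :=
    { toFun := fun x => u (x : H ⧸ commutator H)
      map_one' := u_one
      map_mul' := fun x y => u_mul (G := H ⧸ commutator H) x y }
  let ρ : MonoidAlgebra ℤ (Abelianization H) →+* GA (H ⧸ commutator H) :=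
    (MonoidAlgebra.lift ℤ (GA (H ⧸ commutator H)) (Abelianization H) ρ₀).toRingHom
  have hρ : ∀ x : Abelianization H, ρ (MonoidAlgebra.of ℤ _ x) = u (x : H ⧸ commutator H) := by
    intro x
    change MonoidAlgebra.lift ℤ (GA (H ⧸ commutator H)) (Abelianization H) ρ₀
      (MonoidAlgebra.of ℤ _ x) = _
    rw [MonoidAlgebra.lift_of]
    rfl
  let _ : Module (MonoidAlgebra ℤ (Abelianization H)) (GA (H ⧸ commutator H)) :=
    Module.compHom _ ρ
  have hsmul : ∀ (r : MonoidAlgebra ℤ (Abelianization H)) (y : GA (H ⧸ commutator H)),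
      r • y = ρ r * y := fun _ _ => rfl
  have hD : IsCr ((MonoidAlgebra.of ℤ (Abelianization H)).comp Abelianization.of)
      (dl (commutator H) ξ) := by
    intro a b
    rw [isDer_dl (commutator H) ξ a b, hsmul]
    congr 2
    exact (hρ _).symm
  have h1 := norm_smul_eq_zero H (dl (commutator H) ξ) hD g
  rw [hsmul, map_sum] at h1
  have h2 : ∑ q : Abelianization H, ρ (MonoidAlgebra.of ℤ _ q) = nrm (H ⧸ commutator H) := by
    unfold nrm
    exact Finset.sum_congr rfl fun q _ => hρ q
  rw [h2, nrm_mul, aug_dl] at h1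
  rcases zmod2_cases (trv (commutator H) ξ g) with h | h
  · exact h
  · rw [h, one_smul] at h1
    exact absurd h1 nrm_ne_zero

end Pool.K3H
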