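import Pool.Agent.H59.K3.Lg3
import Pool.Agent.H59.K3.Grow2
import Pool.Agent.H59.K3.PIB

/-!
A finitely presented group all of whose mod 2 transfers are nonzero is large.
-/

namespace Pool.K3H

open Function Module
open scoped DirectSum

theorem exists_hom_int (H : Type) [Group H] [Group.FG H] (hinf : ¬ Finite (Abelianization H)) :
    ∃ Φ : H → ℤ, (∀ a b, Φ (a * b) = Φ a + Φ b) ∧ ∃ h, Φ h ≠ 0 := by
  classical
  have hfg : Group.FG (Abelianization H) :=
    Group.fg_of_surjective (f := Abelianization.of (G := H)) QuotientGroup.mk_surjective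
  have hafg : AddGroup.FG (Additive (Abelianization H)) := inferInstance
  obtain ⟨n, ι, fι, p, hp, e, ⟨f⟩⟩ :=
    AddCommGroup.equiv_free_prod_directSum_zmod (Additive (Abelianization H))
  rcases n with - | n
  · exfalso
    apply hinf
    have h1 : ∀ i, NeZero (p i ^ e i) := fun i => ⟨pow_ne_zero _ (hp i).ne_zero⟩
    have h2 : ∀ i, Finite (ZMod (p i ^ e i)) := fun i => inferInstance
    have h3 : Finite (⨁ i : ι, ZMod (p i ^ e i)) :=
      Finite.of_equiv _ DFinsupp.equivFunOnFintype.symm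
    have h4 : Finite (Fin 0 →₀ ℤ) := by
      have : Subsingleton (Fin 0 →₀ ℤ) := ⟨fun a b => Finsupp.ext fun i => i.elim0⟩
      exact Finite.of_subsingleton
    have h5 : Finite ((Fin 0 →₀ ℤ) × ⨁ i : ι, ZMod (p i ^ e i)) := inferInstance
    have h6 : Finite (Additive (Abelianization H)) := Finite.of_equiv _ f.symm.toEquiv
    exact Finite.of_equiv _ Additive.toMul
  · refine ⟨fun h => (f (Additive.ofMul (Abelianization.of h))).1 0, fun a b => ?_, ?_⟩
    · change (f (Additive.ofMul (Abelianization.of (a * b)))).1 0 = _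
      rw [map_mul, ofMul_mul, map_add]
      rfl
    · obtain ⟨h, hh⟩ := QuotientGroup.mk_surjective
        (Additive.toMul (f.symm (Finsupp.single 0 1, 0)))
      refine ⟨h, ?_⟩
      have : f (Additive.ofMul (Abelianization.of h)) = (Finsupp.single 0 1, 0) := by
        have h1 : Additive.ofMul (Abelianization.of h) = f.symm (Finsupp.single 0 1, 0) := by
          have : Abelianization.of h = Additive.toMul (f.symm (Finsupp.single 0 1, 0)) := hh
          rw [this]
          rfl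
        rw [h1, f.apply_symm_apply]
      change (f (Additive.ofMul (Abelianization.of h))).1 0 ≠ 0
      rw [this]
      simp

/-- the common kernel of the homomorphisms to `F₂` -/
def L0 (H : Type) [Group H] : Subgroup H where
  carrier := {h | ∀ ξ : Additive H →+ ZMod 2, ξ (Additive.ofMul h) = 0}
  one_mem' := fun ξ => map_zero ξ
  mul_mem' := fun {a b} ha hb ξ => by rw [ofMul_mul, map_add, ha, hb, add_zero]
  inv_mem' := fun {a} ha ξ => by rw [ofMul_inv, map_neg, ha, neg_zero]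

theorem sq_mem_L0 {H : Type} [Group H] (h : H) : h ^ 2 ∈ L0 H := by
  intro ξ
  rw [ofMul_pow, map_nsmul, two_smul]
  exact CharTwo.add_self_eq_zero _

theorem L0_finiteIndex (H : Type) [Group H] [Group.FG H] : (L0 H).FiniteIndex := by
  have hfin : Module.Finite (ZMod 2) (Additive H →+ ZMod 2) := finite_hom H
  have hfin2 : Finite (Additive H →+ ZMod 2) := Module.finite_of_finite (ZMod 2)
  let F : H →* ((Additive H →+ ZMod 2) → Multiplicative (ZMod 2)) :=
    { toFun := fun h ξ => Multiplicative.ofAdd (ξ (Additive.ofMul h))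
      map_one' := by
        funext ξ
        exact congrArg Multiplicative.ofAdd (map_zero ξ)
      map_mul' := fun a b => by
        funext ξ
        exact congrArg Multiplicative.ofAdd (map_add ξ (Additive.ofMul a) (Additive.ofMul b)) }
  have h1 : Finite (Multiplicative (ZMod 2)) := inferInstanceAs (Finite (ZMod 2))
  have h2 : F.ker.FiniteIndex := inferInstance
  refine Subgroup.finiteIndex_of_le (H := F.ker) ?_
  intro h hh ξ
  have h3 : F h ξ = 1 := by
    rw [MonoidHom.mem_ker.1 hh]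
    rfl
  exact h3

/-- quotients of `H` bigger than `H / L0` are not cyclic -/
theorem not_isCyclic_of_le {H : Type} [Group H] [Group.FG H] (N : Subgroup H) [N.Normal]
    (hN : N ≤ L0 H) (h2 : 2 ≤ finrank (ZMod 2) (Additive H →+ ZMod 2)) :
    ¬ IsCyclic (H ⧸ N) := by
  rintro ⟨q, hq⟩
  obtain ⟨g, rfl⟩ := QuotientGroup.mk_surjective q
  have hfin : Module.Finite (ZMod 2) (Additive H →+ ZMod 2) := finite_hom H
  let E : (Additive H →+ ZMod 2) →ₗ[ZMod 2] ZMod 2 :=
    { toFun := fun ξ => ξ (Additive.ofMul g)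
      map_add' := fun _ _ => rfl
      map_smul' := fun _ _ => rfl }
  have hE : Injective E := by
    rw [injective_iff_map_eq_zero]
    intro ξ hξ
    refine AddMonoidHom.ext fun h => ?_
    obtain ⟨k, hk⟩ := hq ((Additive.toMul h : H) : H ⧸ N)
    have h3 : (((g ^ k : H)) : H ⧸ N) = ((Additive.toMul h : H) : H ⧸ N) := by
      rw [← hk]
      rfl
    rw [QuotientGroup.eq] at h3
    have h4 := hN h3 ξ
    rw [ofMul_mul, map_add, ofMul_inv, map_neg, ofMul_zpow, map_zsmul] at h4
    have h5 : ξ (Additive.ofMul g) = 0 := hξ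
    rw [h5, smul_zero, neg_zero, zero_add] at h4
    exact h4
  have h3 := LinearMap.finrank_le_finrank_of_injective hE
  rw [finrank_self] at h3
  omega

theorem exists_gen {H : Type} [Group H] (L : Subgroup H) (Φ : H → ℤ)
    (hΦ : ∀ a b, Φ (a * b) = Φ a + Φ b) (hne : ∃ l ∈ L, Φ l ≠ 0) :
    ∃ c : ℤ, 0 < c ∧ (∀ l ∈ L, c ∣ Φ l) ∧ ∃ l ∈ L, Φ l = c := by
  have h1 : Φ 1 = 0 := by
    have := hΦ 1 1
    rw [mul_one] at this
    omega
  have hinv : ∀ a, Φ a⁻¹ = -Φ a := by
    intro a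
    have := hΦ a a⁻¹
    rw [mul_inv_cancel, h1] at this
    omega
  let A : AddSubgroup ℤ :=
    { carrier := {x | ∃ l ∈ L, Φ l = x}
      zero_mem' := ⟨1, L.one_mem, h1⟩
      add_mem' := by
        rintro _ _ ⟨a, ha, rfl⟩ ⟨b, hb, rfl⟩
        exact ⟨a * b, L.mul_mem ha hb, hΦ a b⟩
      neg_mem' := by
        rintro _ ⟨a, ha, rfl⟩
        exact ⟨a⁻¹, L.inv_mem ha, hinv a⟩ }
  obtain ⟨c, hc⟩ := Int.subgroup_cyclic A
  rw [← AddSubgroup.zmultiples_eq_closure] at hc
  have hc0 : c ≠ 0 := by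
    rintro rfl
    obtain ⟨l, hl, hl'⟩ := hne
    apply hl'
    have : Φ l ∈ A := ⟨l, hl, rfl⟩
    rw [hc, Int.mem_zmultiples_iff] at this
    exact zero_dvd_iff.1 this
  have hdvd : ∀ l ∈ L, c ∣ Φ l := by
    intro l hl
    have : Φ l ∈ A := ⟨l, hl, rfl⟩
    rwa [hc, Int.mem_zmultiples_iff] at this
  have hmem : c ∈ A := by
    rw [hc]
    exact AddSubgroup.mem_zmultiples c
  obtain ⟨l, hl, hlc⟩ := hmem
  rcases lt_or_gt_of_ne hc0 with h | h
  · exact ⟨-c, by omega, fun l hl => (neg_dvd).2 (hdvd l hl), l⁻¹, L.inv_mem hl, by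
      rw [hinv, hlc]⟩
  · exact ⟨c, h, hdvd, l, hl, hlc⟩

theorem finrank_hom_congr {N N' : Type} [Group N] [Group N'] (e : N ≃* N') :
    finrank (ZMod 2) (Additive N →+ ZMod 2) = finrank (ZMod 2) (Additive N' →+ ZMod 2) := by
  let E : (Additive N →+ ZMod 2) ≃ₗ[ZMod 2] (Additive N' →+ ZMod 2) :=
    { toFun := fun f => f.comp (MulEquiv.toAdditive e.symm).toAddMonoidHom
      invFun := fun f => f.comp (MulEquiv.toAdditive e).toAddMonoidHom
      left_inv := fun f => by
        refine AddMonoidHom.ext fun n => ?_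
        change f (Additive.ofMul (e.symm (e (Additive.toMul n)))) = f n
        rw [e.symm_apply_apply]
        rfl
      right_inv := fun f => by
        refine AddMonoidHom.ext fun n => ?_
        change f (Additive.ofMul (e (e.symm (Additive.toMul n)))) = f n
        rw [e.apply_symm_apply]
        rfl
      map_add' := fun _ _ => rfl
      map_smul' := fun _ _ => rfl }
  exact E.finrank_eq

/-- the growth of the mod 2 first Betti number in the tower, from the growth hypothesis -/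
theorem large_of_all_grow {G : Type} [Group G] [Group.IsFinitelyPresented G] (H : Subgroup G)
    [H.FiniteIndex] (h2 : 2 ≤ finrank (ZMod 2) (Additive H →+ ZMod 2))
    (hinf : ¬ Finite (Abelianization H))
    (hgr : ∀ (N : Subgroup H) [N.Normal] [N.FiniteIndex], IsPGroup 2 (H ⧸ N) →
      ¬ IsCyclic (H ⧸ N) → N.index < 2 * finrank (ZMod 2) (Additive N →+ ZMod 2)) :
    Large G := by
  classical
  have hFG : Group.FG G := by
    obtain ⟨s, π, hπ, -⟩ := Group.IsFinitelyPresented.out (G := G)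
    exact Group.fg_of_surjective hπ
  have hHfg : Group.FG H := inferInstance
  obtain ⟨Φ, hΦ, h₁, hh₁⟩ := exists_hom_int H hinf
  obtain ⟨c, hc, hcd, l₀, hl₀, hl₀c⟩ := exists_gen (L0 H) Φ hΦ ⟨h₁ ^ 2, sq_mem_L0 h₁, by
    rw [pow_two, hΦ]
    omega⟩
  have hL0fi : (L0 H).FiniteIndex := L0_finiteIndex H
  let L : Subgroup G := (L0 H).map H.subtype
  have hLfi : L.FiniteIndex := by
    have h1 : L.index = (L0 H).index * H.index := by
      rw [Subgroup.index_map, Subgroup.ker_subtype, sup_bot_eq, Subgroup.range_subtype]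
    refine ⟨?_⟩
    rw [h1]
    exact Nat.mul_ne_zero hL0fi.index_ne_zero (Subgroup.FiniteIndex.index_ne_zero)
  let φ : G → ℤ := fun g => if hg : g ∈ H then Φ ⟨g, hg⟩ / c else 0
  have hφH : ∀ h : H, φ (h : G) = Φ h / c := fun h => dif_pos h.2
  have hφ : ∀ a ∈ L, ∀ b ∈ L, φ (a * b) = φ a + φ b := by
    rintro _ ⟨a, ha, rfl⟩ _ ⟨b, hb, rfl⟩
    have h1 : (H.subtype a) * (H.subtype b) = ((a * b : H) : G) := rfl
    rw [h1]
    change φ ((a * b : H) : G) = φ (a : G) + φ (b : G)
    rw [hφH, hφH, hφH, hΦ, Int.add_ediv_of_dvd_left (hcd a ha)]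
  refine large_of_growth L φ hφ ⟨(l₀ : G), ⟨l₀, hl₀, rfl⟩, by
    rw [hφH, hl₀c, Int.ediv_self hc.ne']⟩ ?_
  intro C
  obtain ⟨k, hk⟩ : ∃ k : ℕ, 2 * (C + 1) ≤ 2 ^ k := ⟨2 * (C + 1), Nat.lt_two_pow_self.le⟩
  refine ⟨2 ^ k, by positivity, ?_⟩
  set Nk := Nm L φ hφ (2 ^ k : ℤ) with hNk
  have hNle : Nk ≤ H := by
    rintro _ ⟨⟨a, -, rfl⟩, -⟩
    exact a.2
  let N : Subgroup H := Nk.subgroupOf H
  have hmem : ∀ h : H, h ∈ N ↔ h ∈ L0 H ∧ (2 ^ k : ℤ) ∣ φ (h : G) := by
    intro h
    constructor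
    · rintro ⟨⟨a, ha, hah⟩, h3⟩
      have : a = h := Subtype.ext hah
      rw [← this] at h3 ⊢
      exact ⟨ha, h3⟩
    · rintro ⟨h3, h4⟩
      exact ⟨⟨h, h3, rfl⟩, h4⟩
  have hΦ1 : Φ 1 = 0 := by
    have := hΦ 1 1
    rw [mul_one] at this
    omega
  have hΦinv : ∀ a, Φ a⁻¹ = -Φ a := by
    intro a
    have := hΦ a a⁻¹
    rw [mul_inv_cancel, hΦ1] at this
    omega
  have hΦpow : ∀ (a : H) (j : ℕ), Φ (a ^ j) = j * Φ a := by
    intro a j
    induction j with
    | zero => rw [pow_zero, hΦ1]; simp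
    | succ j ih =>
      rw [pow_succ, hΦ, ih]
      push_cast
      ring
  have hNn : N.Normal := by
    refine ⟨fun n hn g => ?_⟩
    rw [hmem] at hn ⊢
    constructor
    · intro ξ
      rw [ofMul_mul, ofMul_mul, ofMul_inv, map_add, map_add, map_neg, hn.1 ξ]
      ring
    · have h3 : Φ (g * n * g⁻¹) = Φ n := by
        rw [hΦ, hΦ, hΦinv]
        ring
      rw [hφH, h3, ← hφH]
      exact hn.2
  have hNkfi : Nk.FiniteIndex := by
    have := finite_quot L φ hφ (m := 2 ^ k) (by positivity)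
    exact Subgroup.finiteIndex_of_finite_quotient
  have hNfi : N.FiniteIndex := inferInstance
  have hNL0 : N ≤ L0 H := fun h hh => ((hmem h).1 hh).1
  have hp : IsPGroup 2 (H ⧸ N) := by
    intro q
    obtain ⟨h, rfl⟩ := QuotientGroup.mk_surjective q
    refine ⟨k + 1, ?_⟩
    have h3 : h ^ 2 ^ (k + 1) ∈ N := by
      rw [hmem]
      have e1 : h ^ 2 ^ (k + 1) = (h ^ 2) ^ 2 ^ k := by
        rw [← pow_mul]
        congr 1
        ring
      rw [e1]
      refine ⟨(L0 H).pow_mem (sq_mem_L0 h) _, ?_⟩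
      rw [hφH, hΦpow]
      obtain ⟨d, hd⟩ := hcd _ (sq_mem_L0 h)
      rw [hd]
      refine ⟨d, ?_⟩
      have : ((2 ^ k : ℕ) : ℤ) * (c * d) = c * ((2 ^ k : ℤ) * d) := by
        push_cast
        ring
      rw [this, Int.mul_ediv_cancel_left _ hc.ne']
    have h4 := (QuotientGroup.eq_one_iff (N := N) (h ^ 2 ^ (k + 1))).2 h3
    rw [← h4]
    rfl
  have h3 := hgr N hp (not_isCyclic_of_le N hNL0 h2)
  have h4 : finrank (ZMod 2) (Additive N →+ ZMod 2) =
      finrank (ZMod 2) (Additive Nk →+ ZMod 2) :=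
    finrank_hom_congr (Subgroup.subgroupOfEquivOfLe hNle)
  have h5 : 2 ^ k ≤ N.index := by
    have hq : Finite (H ⧸ N) := inferInstance
    have h6 : Nat.card (Fin (2 ^ k)) ≤ Nat.card (H ⧸ N) := by
      refine Nat.card_le_card_of_injective (fun j : Fin (2 ^ k) => ((l₀ ^ (j : ℕ) : H) : H ⧸ N)) ?_
      have key : ∀ i j : ℕ, i ≤ j → j < 2 ^ k →
          ((l₀ ^ i : H) : H ⧸ N) = ((l₀ ^ j : H) : H ⧸ N) → i = j := by
        intro i j hij hj heq
        rw [QuotientGroup.eq] at heq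
        have e1 : (l₀ ^ i)⁻¹ * l₀ ^ j = l₀ ^ (j - i) := by
          rw [inv_mul_eq_iff_eq_mul, ← pow_add]
          congr 1
          omega
        rw [e1, hmem] at heq
        have e2 := heq.2
        rw [hφH, hΦpow, hl₀c, Int.mul_ediv_cancel _ hc.ne'] at e2
        have e3 : (2 ^ k : ℕ) ∣ (j - i) := by exact_mod_cast e2
        have e4 : j - i < 2 ^ k := by omega
        have e5 := Nat.eq_zero_of_dvd_of_lt e3 e4
        omega
      intro i j hij
      apply Fin.ext
      rcases le_total (i : ℕ) (j : ℕ) with h | h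
      · exact key i j h j.2 hij
      · exact (key j i h i.2 hij.symm).symm
    rw [Nat.card_eq_fintype_card, Fintype.card_fin] at h6
    exact h6
  rw [h4] at h3
  omega

end Pool.K3H
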