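import Pool.Agent.H59.K3.Lg4

/-!
MP_a985a5_al, dimension four: when is the restriction `H³(G, F₂) → H³(G', F₂)` zero for a subgroup
of finite index.
-/

namespace Pool.K3H

open Function Module

variable {G : Type} [Group G]

/-- vanishing mod 2 transfer from `H` to `N` kills `H³` -/
theorem kills_of_trZero (R : PD4 G) (H : Subgroup G) [H.FiniteIndex] (N : Subgroup H)
    (hN : TrZero N) : Kills (N.map H.subtype) := by
  intro f hf
  exact restr R (trZero_tower H N hN) hf

theorem finiteIndex_map (H : Subgroup G) [H.FiniteIndex] (N : Subgroup H) [N.FiniteIndex] :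
    (N.map H.subtype).FiniteIndex := by
  refine ⟨?_⟩
  rw [Subgroup.index_map, Subgroup.ker_subtype, sup_bot_eq, Subgroup.range_subtype]
  exact Nat.mul_ne_zero Subgroup.FiniteIndex.index_ne_zero Subgroup.FiniteIndex.index_ne_zero

/-- (1) -/
theorem kills_commutator (R : PD4 G) (H : Subgroup G) [H.FiniteIndex]
    (hfin : Finite (Abelianization H)) :
    ((commutator H).map H.subtype).FiniteIndex ∧ Kills ((commutator H).map H.subtype) := by
  have hFG : Group.FG G := R.fg
  have hHfg : Group.FG H := inferInstance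
  have hq : Finite (H ⧸ commutator H) := hfin
  have hc : (commutator H).FiniteIndex := Subgroup.finiteIndex_of_finite_quotient
  exact ⟨finiteIndex_map H _, kills_of_trZero R H _
    (trZero_of_hom _ fun ξ g => trv_commutator H ξ g)⟩

/-- (2) -/
theorem kills_of_growth (R : PD4 G) (H : Subgroup G) [H.FiniteIndex] (N : Subgroup H) [N.Normal]
    [N.FiniteIndex] (hp : IsPGroup 2 (H ⧸ N)) (hcyc : ¬ IsCyclic (H ⧸ N))
    (hb : 2 * b1 N ≤ N.index) : (N.map H.subtype).FiniteIndex ∧ Kills (N.map H.subtype) := by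
  classical
  have hFG : Group.FG G := R.fg
  have hHfg : Group.FG H := inferInstance
  have hNfg : Group.FG N := inferInstance
  have hfin : Module.Finite (ZMod 2) (Additive N →+ ZMod 2) := finite_hom N
  let _ : Fintype (H ⧸ N) := Fintype.ofFinite _
  refine ⟨finiteIndex_map H N, kills_of_trZero R H N (trZero_of_hom N fun ξ g => ?_)⟩
  by_contra hne
  have := grow N hp hcyc ξ g hne
  unfold b1 at hb
  omega

/-- (3) -/
theorem kills_of_not_large (R : PD4 G) (hfp : Group.IsFinitelyPresented G) (hl : ¬ Large G)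
    (H : Subgroup G) [H.FiniteIndex] (hb : 2 ≤ b1 H) :
    ∃ G' : Subgroup G, G'.FiniteIndex ∧ Kills G' := by
  classical
  by_contra hno
  push Not at hno
  apply hl
  refine large_of_all_grow H hb ?_ ?_
  · intro hfin
    have := kills_commutator R H hfin
    exact hno _ this.1 this.2
  · intro N hNn hNfi hp hcyc
    by_contra hlt
    push Not at hlt
    have := kills_of_growth R H N hp hcyc hlt
    exact hno _ this.1 this.2

/-- A finite index subgroup killing `H³(G, F₂)` exists if (1) some subgroup of finite index has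
finite abelianization, or (2) some subgroup `H` of finite index has a normal subgroup `N` with
`H/N` a non-cyclic finite 2-group and `2 b₁(N) ≤ [H : N]`, or (3) `G` is finitely presented, not
large, and some subgroup of finite index has `b₁ ≥ 2`. -/
theorem main (hG : Nonempty (PD4 G))
    (h : (∃ H : Subgroup G, H.FiniteIndex ∧ Finite (Abelianization H)) ∨
      (∃ (H : Subgroup G) (N : Subgroup H) (_ : N.Normal), H.FiniteIndex ∧ N.FiniteIndex ∧
        IsPGroup 2 (H ⧸ N) ∧ ¬ IsCyclic (H ⧸ N) ∧ 2 * b1 N ≤ N.index) ∨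
      (Group.IsFinitelyPresented G ∧ ¬ Large G ∧
        ∃ H : Subgroup G, H.FiniteIndex ∧ 2 ≤ b1 H)) :
    ∃ G' : Subgroup G, G'.FiniteIndex ∧ Kills G' := by
  obtain ⟨R⟩ := hG
  rcases h with ⟨H, hH, hfin⟩ | ⟨H, N, hN, hH, hNfi, hp, hcyc, hb⟩ | ⟨hfp, hl, H, hH, hb⟩
  · exact ⟨_, kills_commutator R H hfin⟩
  · exact ⟨_, kills_of_growth R H N hp hcyc hb⟩
  · exact kills_of_not_large R hfp hl H hb

end Pool.K3H
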