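import Mathlib

/-!
The determinant argument of the principal ideal theorem.
-/

namespace Pool.K3H

open Function
open scoped commutatorElement

section abstract

variable {H : Type} [Group H] {R : Type} [CommRing R] {X : Type} [AddCommGroup X] [Module R X]

/-- crossed homomorphisms -/
def IsCr (t : H →* R) (D : H → X) : Prop := ∀ g h, D (g * h) = D g + t g • D h

variable {t : H →* R} {D : H → X}

theorem IsCr.one (hD : IsCr t D) : D 1 = 0 := by
  have := hD 1 1
  rw [mul_one, map_one, one_smul] at this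
  exact left_eq_add.1 this

theorem IsCr.inv (hD : IsCr t D) (g : H) : D g⁻¹ = -(t g⁻¹ • D g) := by
  have := hD g⁻¹ g
  rw [inv_mul_cancel, hD.one] at this
  exact eq_neg_of_add_eq_zero_left this.symm

theorem IsCr.pow (hD : IsCr t D) (g : H) (n : ℕ) :
    D (g ^ n) = (∑ k ∈ Finset.range n, t g ^ k) • D g := by
  induction n with
  | zero => rw [pow_zero, hD.one, Finset.sum_range_zero, zero_smul]
  | succ n ih =>
    rw [pow_succ, hD, ih, Finset.sum_range_succ, add_smul, map_pow]

theorem IsCr.mem_span (hD : IsCr t D) {ι : Type} (a : ι → H)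
    (ha : Subgroup.closure (Set.range a) = ⊤) (h : H) :
    D h ∈ Submodule.span R (Set.range fun i => D (a i)) := by
  have hh : h ∈ Subgroup.closure (Set.range a) := by
    rw [ha]
    exact Subgroup.mem_top h
  induction hh using Subgroup.closure_induction with
  | mem x hx =>
    obtain ⟨i, rfl⟩ := hx
    exact Submodule.subset_span ⟨i, rfl⟩
  | one => rw [hD.one]; exact zero_mem _
  | mul x y _ _ hx hy => rw [hD]; exact add_mem hx (Submodule.smul_mem _ _ hy)
  | inv x _ hx => rw [hD.inv]; exact neg_mem (Submodule.smul_mem _ _ hx)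

theorem t_commutator (t : H →* R) (g h : H) : t ⁅g, h⁆ = 1 := by
  rw [commutatorElement_def, map_mul, map_mul, map_mul]
  have h1 : t g * t g⁻¹ = 1 := by rw [← map_mul, mul_inv_cancel, map_one]
  have h2 : t h * t h⁻¹ = 1 := by rw [← map_mul, mul_inv_cancel, map_one]
  calc t g * t h * t g⁻¹ * t h⁻¹ = (t g * t g⁻¹) * (t h * t h⁻¹) := by ring
    _ = 1 := by rw [h1, h2, one_mul]

theorem IsCr.commutatorElement (hD : IsCr t D) (g h : H) :
    D ⁅g, h⁆ = (1 - t h) • D g + (t g - 1) • D h := by
  rw [commutatorElement_def, hD, hD, hD, hD.inv, hD.inv]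
  have h1 : t g * t g⁻¹ = 1 := by rw [← map_mul, mul_inv_cancel, map_one]
  have h2 : t h * t h⁻¹ = 1 := by rw [← map_mul, mul_inv_cancel, map_one]
  have h3 : t (g * h) * t g⁻¹ = t h := by
    rw [map_mul]
    calc t g * t h * t g⁻¹ = (t g * t g⁻¹) * t h := by ring
      _ = t h := by rw [h1, one_mul]
  have h4 : t (g * h * g⁻¹) * t h⁻¹ = 1 := by
    rw [map_mul t (g * h), h3, h2]
  rw [smul_neg, smul_neg, smul_smul, smul_smul, h3, h4, one_smul, sub_smul, sub_smul, one_smul,
    one_smul]
  abel

theorem IsCr.mem_ideal_smul (hD : IsCr t D) {ι : Type} (a : ι → H)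
    (ha : Subgroup.closure (Set.range a) = ⊤) (I : Ideal R) (hI : ∀ g, t g - 1 ∈ I) {c : H}
    (hc : c ∈ commutator H) :
    t c = 1 ∧ D c ∈ I • Submodule.span R (Set.range fun i => D (a i)) := by
  let S : Subgroup H :=
    { carrier := {c | t c = 1 ∧ D c ∈ I • Submodule.span R (Set.range fun i => D (a i))}
      one_mem' := ⟨map_one t, by rw [hD.one]; exact zero_mem _⟩
      mul_mem' := by
        rintro x y ⟨hx1, hx2⟩ ⟨hy1, hy2⟩
        refine ⟨by rw [map_mul, hx1, hy1, one_mul], ?_⟩
        rw [hD, hx1, one_smul]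
        exact add_mem hx2 hy2
      inv_mem' := by
        rintro x ⟨hx1, hx2⟩
        have h1 : t x⁻¹ = 1 := by
          have : t x * t x⁻¹ = 1 := by rw [← map_mul, mul_inv_cancel, map_one]
          rwa [hx1, one_mul] at this
        refine ⟨h1, ?_⟩
        rw [hD.inv, h1, one_smul]
        exact neg_mem hx2 }
  have hS : commutator H ≤ S := by
    rw [commutator_def, Subgroup.commutator_le]
    intro g _ h _
    refine ⟨t_commutator t g h, ?_⟩
    rw [hD.commutatorElement]
    refine add_mem (Submodule.smul_mem_smul ?_ (hD.mem_span a ha g))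
      (Submodule.smul_mem_smul (hI g) (hD.mem_span a ha h))
    have := I.neg_mem (hI h)
    rwa [neg_sub] at this
  exact hS hc

theorem det_smul_eq_zero {ι : Type} [Fintype ι] [DecidableEq ι] (μ : Matrix ι ι R) (v : ι → X)
    (h : ∀ i, ∑ j, μ i j • v j = 0) (j : ι) : μ.det • v j = 0 := by
  have h1 : ∑ i, μ.adjugate j i • ∑ k, μ i k • v k = 0 := by
    refine Finset.sum_eq_zero fun i _ => ?_
    rw [h i, smul_zero]
  have h2 : ∑ i, μ.adjugate j i • ∑ k, μ i k • v k = ∑ k, (μ.adjugate * μ) j k • v k := by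
    simp only [Finset.smul_sum, smul_smul]
    rw [Finset.sum_comm]
    refine Finset.sum_congr rfl fun k _ => ?_
    rw [← Finset.sum_smul]
    rfl
  rw [h2, Matrix.adjugate_mul] at h1
  rw [Finset.sum_eq_single j] at h1
  · simpa using h1
  · intro b _ hb
    rw [Matrix.smul_apply, Matrix.one_apply_ne hb.symm, smul_zero, zero_smul]
  · intro hj
    exact absurd (Finset.mem_univ j) hj

/-- the determinant argument -/
theorem IsCr.exists_matrix (hD : IsCr t D) {ι : Type} [Fintype ι] [DecidableEq ι] (a : ι → H)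
    (ha : Subgroup.closure (Set.range a) = ⊤) (e : ι → ℕ)
    (hae : ∀ i, a i ^ e i ∈ commutator H) (I : Ideal R) (hI : ∀ g, t g - 1 ∈ I) :
    ∃ η : Matrix ι ι R, (∀ i j, η i j ∈ I) ∧
      ∀ h, (Matrix.diagonal (fun i => ∑ k ∈ Finset.range (e i), t (a i) ^ k) - η).det • D h = 0 := by
  have h1 : ∀ i, ∃ c : ι →₀ R, (∀ j, c j ∈ I) ∧ (c.sum fun j r => r • D (a j)) = D (a i ^ e i) := by
    intro i
    have := (hD.mem_ideal_smul a ha I hI (hae i)).2
    rw [Submodule.mem_ideal_smul_span_iff_exists_sum] at this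
    obtain ⟨c, hc, hc2⟩ := this
    exact ⟨c, hc, hc2⟩
  choose c hc1 hc2 using h1
  refine ⟨fun i j => c i j, fun i j => hc1 i j, ?_⟩
  set η : Matrix ι ι R := fun i j => c i j with hη
  set μ := Matrix.diagonal (fun i => ∑ k ∈ Finset.range (e i), t (a i) ^ k) - η with hμ
  have h2 : ∀ i, ∑ j, μ i j • D (a j) = 0 := by
    intro i
    have e1 : ∀ j, μ i j • D (a j) =
        (if i = j then (∑ k ∈ Finset.range (e i), t (a i) ^ k) • D (a i) else 0) -
          c i j • D (a j) := by
      intro j
      rw [hμ, Matrix.sub_apply, sub_smul]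
      congr 1
      by_cases hij : i = j
      · subst hij
        rw [if_pos rfl, Matrix.diagonal_apply_eq]
      · rw [if_neg hij, Matrix.diagonal_apply_ne _ hij, zero_smul]
    rw [Finset.sum_congr rfl fun j _ => e1 j, Finset.sum_sub_distrib, Finset.sum_ite_eq,
      if_pos (Finset.mem_univ i), ← hD.pow, ← hc2 i, sub_eq_zero]
    rw [Finsupp.sum_fintype]
    intro j
    exact zero_smul _ _
  intro h
  have h3 := hD.mem_span a ha h
  have h4 : ∀ x ∈ Submodule.span R (Set.range fun i => D (a i)), μ.det • x = 0 := by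
    intro x hx
    induction hx using Submodule.span_induction with
    | mem x hx =>
      obtain ⟨i, rfl⟩ := hx
      exact det_smul_eq_zero μ (fun i => D (a i)) h2 i
    | zero => rw [smul_zero]
    | add x y _ _ hx hy => rw [smul_add, hx, hy, add_zero]
    | smul r x _ hx => rw [smul_comm, hx, smul_zero]
  exact h4 _ h3

end abstract

/-- adapted generators -/
theorem exists_adapted (H : Type) [Group H] [Group.FG H] [Finite (Abelianization H)] :
    ∃ (ι : Type) (_ : Fintype ι) (_ : DecidableEq ι) (a : ι → H) (e : ι → ℕ),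
      Subgroup.closure (Set.range a) = ⊤ ∧ (∀ i, a i ^ e i ∈ commutator H) ∧
      ∏ i, e i = Nat.card (Abelianization H) := by
  classical
  obtain ⟨ι, hι, n, hn, ⟨φ⟩⟩ := CommGroup.equiv_prod_multiplicative_zmod_of_finite
    (Abelianization H)
  obtain ⟨S, hS⟩ := Group.fg_def.1 ‹Group.FG H›
  have hb : ∀ i, ∃ b : H, Abelianization.of b = φ.symm (Pi.mulSingle i (Multiplicative.ofAdd 1)) :=
    fun i => QuotientGroup.mk_surjective _
  choose b hb using hb
  have hgen : ∀ x : Abelianization H, x ∈ (Subgroup.closure (Set.range b)).map Abelianization.of := by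
    intro x
    have e1 : x = ∏ i, (Abelianization.of (b i)) ^ (Multiplicative.toAdd (φ x i)).val := by
      apply φ.injective
      rw [map_prod]
      funext j
      rw [Finset.prod_apply, Finset.prod_eq_single j]
      · rw [map_pow, hb, MulEquiv.apply_symm_apply, Pi.pow_apply, Pi.mulSingle_eq_same,
          ← ofAdd_nsmul]
        have : NeZero (n j) := ⟨by have := hn j; omega⟩
        rw [nsmul_one, ZMod.natCast_zmod_val]
        rfl
      · intro i _ hij
        rw [map_pow, hb, MulEquiv.apply_symm_apply, Pi.pow_apply, Pi.mulSingle_eq_of_ne hij.symm,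
          one_pow]
      · intro h
        exact absurd (Finset.mem_univ j) h
    rw [e1]
    refine Subgroup.prod_mem _ fun i _ => Subgroup.pow_mem _ ?_ _
    exact ⟨b i, Subgroup.subset_closure ⟨i, rfl⟩, rfl⟩
  choose z hz1 hz2 using fun s : S => hgen (Abelianization.of (s : H))
  refine ⟨ι ⊕ S, inferInstance, inferInstance, Sum.elim b (fun s => (z s)⁻¹ * s),
    Sum.elim n (fun _ => 1), ?_, ?_, ?_⟩
  · set K := Subgroup.closure (Set.range (Sum.elim b (fun s : S => (z s)⁻¹ * (s : H)))) with hK
    have h1 : Subgroup.closure (Set.range b) ≤ K := by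
      rw [Subgroup.closure_le]
      rintro _ ⟨i, rfl⟩
      exact Subgroup.subset_closure ⟨Sum.inl i, rfl⟩
    rw [eq_top_iff, ← hS, Subgroup.closure_le]
    intro s hs
    have h2 : (z ⟨s, hs⟩)⁻¹ * s ∈ K := Subgroup.subset_closure ⟨Sum.inr ⟨s, hs⟩, rfl⟩
    have h3 := K.mul_mem (h1 (hz1 ⟨s, hs⟩)) h2
    rwa [mul_inv_cancel_left] at h3
  · rintro (i | s)
    · change b i ^ n i ∈ commutator H
      rw [← Abelianization.ker_of, MonoidHom.mem_ker, map_pow, hb, ← map_pow, ← Pi.mulSingle_pow,
        ← ofAdd_nsmul, nsmul_one, ZMod.natCast_self]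
      simp
    · change ((z s)⁻¹ * (s : H)) ^ 1 ∈ commutator H
      rw [pow_one, ← Abelianization.ker_of, MonoidHom.mem_ker, map_mul, map_inv, hz2 s,
        inv_mul_cancel]
  · rw [Fintype.prod_sum_type]
    simp only [Sum.elim_inl, Sum.elim_inr, Finset.prod_const_one, mul_one]
    rw [Nat.card_congr φ.toEquiv, Nat.card_pi]
    refine Finset.prod_congr rfl fun i _ => ?_
    change n i = Nat.card (ZMod (n i))
    rw [Nat.card_zmod]

end Pool.K3H
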