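import Pool.Agent.H59.K3.Bar

/-!
Comparison of inhomogeneous 3-cocycles with the given projective resolution.
-/

namespace Pool.K3H

open Function

/-- extension of functionals -/
theorem ext2 {P' P : Type} [AddCommGroup P'] [AddCommGroup P] (h' : ∀ p : P', 2 • p = 0)
    (h : ∀ p : P, 2 • p = 0) (d : P' →+ P) (x : P' →+ ZMod 2) (hx : ∀ q, d q = 0 → x q = 0) :
    ∃ L : P →+ ZMod 2, ∀ q, x q = L (d q) := by
  let _ : Module (ZMod 2) P' := AddCommGroup.zmodModule h'
  let _ : Module (ZMod 2) P := AddCommGroup.zmodModule h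
  have hmem : x.toZModLinearMap 2 ∈ (LinearMap.ker (d.toZModLinearMap 2)).dualAnnihilator := by
    rw [Submodule.mem_dualAnnihilator]
    intro q hq
    exact hx q hq
  rw [← LinearMap.range_dualMap_eq_dualAnnihilator_ker] at hmem
  obtain ⟨L, hL⟩ := hmem
  refine ⟨L.toAddMonoidHom, fun q => ?_⟩
  have := LinearMap.congr_fun hL q
  exact this.symm

variable {G : Type} [Group G]

theorem two_smul_GA (G : Type) [Group G] {P : Type} [AddCommGroup P] [Module (GA G) P] (p : P) :
    2 • p = 0 := by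
  have h2 : (1 : GA G) + 1 = 0 := by
    have : (1 : GA G) + 1 = (2 : ZMod 2) • (1 : GA G) := by
      rw [two_smul]
    rw [this, two_eq_zero', zero_smul]
  have : (2 : ℕ) • p = ((1 : GA G) + 1) • p := by
    rw [add_smul, one_smul, two_smul]
  rw [this, h2, zero_smul]

/-- the `N`-part of a group element -/
noncomputable def nn (N : Subgroup G) (g : G) : G :=
  g * (Quotient.out (Quotient.mk (QuotientGroup.rightRel N) g))⁻¹

theorem nn_mem (N : Subgroup G) (g : G) : nn N g ∈ N := by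
  have h := Quotient.mk_out (s := QuotientGroup.rightRel N) g
  have h' : (QuotientGroup.rightRel N) (Quotient.out (Quotient.mk (QuotientGroup.rightRel N) g)) g :=
    h
  rw [QuotientGroup.rightRel_apply] at h'
  exact h'

theorem nn_mul (N : Subgroup G) {n : G} (hn : n ∈ N) (g : G) : nn N (n * g) = n * nn N g := by
  have h : (Quotient.mk (QuotientGroup.rightRel N) (n * g)) =
      Quotient.mk (QuotientGroup.rightRel N) g := by
    apply Quotient.sound
    change (QuotientGroup.rightRel N) (n * g) g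
    rw [QuotientGroup.rightRel_apply]
    have : g * (n * g)⁻¹ = n⁻¹ := by group
    rw [this]
    exact inv_mem hn
  unfold nn
  rw [h, mul_assoc]

/-- exactness in the module direction -/
theorem pex {P' P : Type} [AddCommGroup P'] [Module (GA G) P'] [AddCommGroup P]
    [Module (GA G) P] (N : Subgroup G) {j : ℕ} (d : P' →ₗ[GA G] P) (x : P' →+ C G j)
    (hx : Eqv N x) (hd : ∀ q, d q = 0 → x q = 0) :
    ∃ y : P →+ C G j, Eqv N y ∧ ∀ q, x q = y (d q) := by
  have key : ∀ t : Fin (j + 1) → G, ∃ L : P →+ ZMod 2, ∀ q, x q t = L (d q) := fun t =>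
    ext2 (fun p => two_smul_GA G p) (fun p => two_smul_GA G p) d.toAddMonoidHom
      ((Pi.evalAddMonoidHom (fun _ : Fin (j + 1) → G => ZMod 2) t).comp x)
      (fun q hq => by
        change x q t = 0
        rw [hd q hq]
        rfl)
  choose L hL using key
  refine ⟨⟨⟨fun p s => L (fun i => (nn N (s 0))⁻¹ * s i) (u (nn N (s 0))⁻¹ • p), ?_⟩, ?_⟩,
    ?_, ?_⟩
  · funext s; simp
  · intro p q
    funext s
    simp
  · intro n hn p s
    change L (fun i => (nn N (n * s 0))⁻¹ * (n * s i)) (u (nn N (n * s 0))⁻¹ • u n • p) =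
      L (fun i => (nn N (s 0))⁻¹ * s i) (u (nn N (s 0))⁻¹ • p)
    rw [nn_mul N hn, smul_smul, ← u_mul]
    have e1 : (n * nn N (s 0))⁻¹ * n = (nn N (s 0))⁻¹ := by group
    have e2 : (fun i => (n * nn N (s 0))⁻¹ * (n * s i)) = fun i => (nn N (s 0))⁻¹ * s i := by
      funext i
      rw [← mul_assoc, e1]
    rw [e1, e2]
  · intro q
    funext s
    change x q s = L (fun i => (nn N (s 0))⁻¹ * s i) (u (nn N (s 0))⁻¹ • d q)
    rw [← map_smul, ← hL]
    exact (hx _ (inv_mem (nn_mem N (s 0))) q s).symm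

omit [Group G] in
theorem del_const {j : ℕ} (r : ZMod 2) (hj : j = 0) : del (fun _ : Fin (j + 1) → G => r) = 0 := by
  subst hj
  funext s
  unfold del
  rw [Fin.sum_univ_two]
  have : r + r = 2 * r := by ring
  rw [this, two_eq_zero', zero_mul]
  rfl

omit [Group G] in
theorem const_of_del {E : C G 0} (h : del E = 0) (s t : Fin 1 → G) : E s = E t := by
  have h1 := congrFun h ![t 0, s 0]
  change ∑ k : Fin 2, E (fun i => (![t 0, s 0] : Fin 2 → G) (k.succAbove i)) = 0 at h1
  rw [Fin.sum_univ_two] at h1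
  have e1 : (fun i : Fin 1 => (![t 0, s 0] : Fin 2 → G) ((0 : Fin 2).succAbove i)) = s := by
    funext i; fin_cases i; rfl
  have e2 : (fun i : Fin 1 => (![t 0, s 0] : Fin 2 → G) ((1 : Fin 2).succAbove i)) = t := by
    funext i; fin_cases i; rfl
  rw [e1, e2] at h1
  linear_combination h1 - E t * two_eq_zero'

/-- the homogeneous form of an inhomogeneous 3-cochain -/
def hom3 (f : G → G → G → ZMod 2) : C G 3 :=
  fun s => f ((s 0)⁻¹ * s 1) ((s 1)⁻¹ * s 2) ((s 2)⁻¹ * s 3)

theorem hom3_inv (f : G → G → G → ZMod 2) (g : G) (s : Fin 4 → G) :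
    hom3 f (fun i => g * s i) = hom3 f s := by
  unfold hom3
  congr 1 <;> group

/-- inhomogeneous 3-cocycles -/
def Cocycle3 (f : G → G → G → ZMod 2) : Prop :=
  ∀ a b c d : G, f b c d - f (a * b) c d + f a (b * c) d - f a b (c * d) + f a b c = 0

theorem del_hom3 {f : G → G → G → ZMod 2} (hf : Cocycle3 f) : del (hom3 f) = 0 := by
  funext s
  change ∑ k : Fin 5, hom3 f (fun i => s (k.succAbove i)) = 0
  rw [Fin.sum_univ_five]
  have h := hf ((s 0)⁻¹ * s 1) ((s 1)⁻¹ * s 2) ((s 2)⁻¹ * s 3) ((s 3)⁻¹ * s 4)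
  have e1 : (s 0)⁻¹ * s 1 * ((s 1)⁻¹ * s 2) = (s 0)⁻¹ * s 2 := by group
  have e2 : (s 1)⁻¹ * s 2 * ((s 2)⁻¹ * s 3) = (s 1)⁻¹ * s 3 := by group
  have e3 : (s 2)⁻¹ * s 3 * ((s 3)⁻¹ * s 4) = (s 2)⁻¹ * s 4 := by group
  rw [e1, e2, e3] at h
  have k0 : hom3 f (fun i => s ((0 : Fin 5).succAbove i)) =
      f ((s 1)⁻¹ * s 2) ((s 2)⁻¹ * s 3) ((s 3)⁻¹ * s 4) := rfl
  have k1 : hom3 f (fun i => s ((1 : Fin 5).succAbove i)) =
      f ((s 0)⁻¹ * s 2) ((s 2)⁻¹ * s 3) ((s 3)⁻¹ * s 4) := rfl
  have k2 : hom3 f (fun i => s ((2 : Fin 5).succAbove i)) =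
      f ((s 0)⁻¹ * s 1) ((s 1)⁻¹ * s 3) ((s 3)⁻¹ * s 4) := rfl
  have k3 : hom3 f (fun i => s ((3 : Fin 5).succAbove i)) =
      f ((s 0)⁻¹ * s 1) ((s 1)⁻¹ * s 2) ((s 2)⁻¹ * s 4) := rfl
  have k4 : hom3 f (fun i => s ((4 : Fin 5).succAbove i)) =
      f ((s 0)⁻¹ * s 1) ((s 1)⁻¹ * s 2) ((s 2)⁻¹ * s 3) := rfl
  rw [k0, k1, k2, k3, k4]
  linear_combination h + (f ((s 0)⁻¹ * s 2) ((s 2)⁻¹ * s 3) ((s 3)⁻¹ * s 4) +
    f ((s 0)⁻¹ * s 1) ((s 1)⁻¹ * s 2) ((s 2)⁻¹ * s 4)) * two_eq_zero'

/-- Every 3-cocycle comes from the resolution, compatibly with restriction to subgroups. -/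
theorem zig (R : PD4 G) {f : G → G → G → ZMod 2} (hf : Cocycle3 f) :
    ∃ v : R.P 3 →+ ZMod 2, (∀ (g : G) x, v (u g • x) = v x) ∧ (∀ y, v (R.d 3 y) = 0) ∧
      ∀ (N : Subgroup G) (w : R.P 2 →+ ZMod 2), (∀ n ∈ N, ∀ x, w (u n • x) = w x) →
        (∀ x, v x = w (R.d 2 x)) →
        ∃ e : G → G → ZMod 2, ∀ a ∈ N, ∀ b ∈ N, ∀ c ∈ N,
          f a b c = e b c - e (a * b) c + e a (b * c) - e a b := by
  have dd : ∀ (i : ℕ) (x : R.P (i + 1 + 1)), R.d i (R.d (i + 1) x) = 0 := fun i x =>
    (R.exact i _).2 ⟨x, rfl⟩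
  have edd : ∀ x, R.ε (R.d 0 x) = 0 := fun x => (R.exact_zero _).2 ⟨x, rfl⟩
  -- step 0
  let x03 : R.P 0 →+ C G 3 :=
    { toFun := fun p s => R.ε p * hom3 f s
      map_zero' := by funext s; simp
      map_add' := fun p q => by funext s; simp [add_mul] }
  have hx03 : ∀ p s, x03 p s = R.ε p * hom3 f s := fun _ _ => rfl
  have hx03d : ∀ p, del (x03 p) = 0 := by
    intro p
    have h1 : x03 p = fun s => R.ε p * hom3 f s := rfl
    rcases zmod2_cases (R.ε p) with h | h
    · have : x03 p = 0 := by rw [h1, h]; funext s; simp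
      rw [this, del_zero]
    · have : x03 p = hom3 f := by rw [h1, h]; funext s; simp
      rw [this, del_hom3 hf]
  obtain ⟨x02, hx02e, hx02⟩ := cex x03 (fun n _ p s => by
    rw [hx03, hx03, hom3_inv, R.ε_inv]) hx03d
  -- step 1
  obtain ⟨x11, hx11e, hx11⟩ := cex (x02.comp (R.d 0).toAddMonoidHom) (fun n hn p s => by
    change x02 (R.d 0 (u n • p)) _ = x02 (R.d 0 p) s
    rw [map_smul]
    exact hx02e n hn _ _) (fun p => by
    change del (x02 (R.d 0 p)) = 0
    rw [hx02]
    funext s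
    rw [hx03, edd]
    simp)
  have hx11' : ∀ p, del (x11 p) = x02 (R.d 0 p) := hx11
  -- step 2
  obtain ⟨x20, hx20e, hx20⟩ := cex (x11.comp (R.d 1).toAddMonoidHom) (fun n hn p s => by
    change x11 (R.d 1 (u n • p)) _ = x11 (R.d 1 p) s
    rw [map_smul]
    exact hx11e n hn _ _) (fun p => by
    change del (x11 (R.d 1 p)) = 0
    rw [hx11', dd, map_zero])
  have hx20' : ∀ p, del (x20 p) = x11 (R.d 1 p) := hx20
  -- step 3
  have hx30 : ∀ q, del (x20 (R.d 2 q)) = 0 := by
    intro q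
    rw [hx20', dd, map_zero]
  let v : R.P 3 →+ ZMod 2 :=
    { toFun := fun q => x20 (R.d 2 q) (fun _ => 1)
      map_zero' := by simp
      map_add' := fun p q => by simp }
  have hv : ∀ q s, x20 (R.d 2 q) s = v q := fun q s => const_of_del (hx30 q) _ _
  refine ⟨v, fun g x => ?_, fun y => ?_, ?_⟩
  · rw [← hv (u g • x) (fun _ => g * 1), map_smul, hx20e g trivial (R.d 2 x) (fun _ => 1)]
    rfl
  · change x20 (R.d 2 (R.d 3 y)) (fun _ => 1) = 0
    rw [dd, map_zero]
    rfl
  · intro N w hw hvw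
    -- back, step 1
    let z20 : R.P 2 →+ C G 0 :=
      { toFun := fun p s => x20 p s - w p
        map_zero' := by funext s; simp
        map_add' := fun p q => by
          funext s
          simp only [map_add, Pi.add_apply]
          ring }
    have hz20 : ∀ p s, z20 p s = x20 p s - w p := fun _ _ => rfl
    obtain ⟨y10, hy10e, hy10⟩ := pex N (R.d 1) z20 (fun n hn p s => by
      rw [hz20, hz20, hw n hn, hx20e n trivial]) (fun q hq => by
      obtain ⟨q', rfl⟩ := (R.exact 1 q).1 hq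
      funext s
      rw [hz20, hv, hvw, sub_self]
      rfl)
    have hdz20 : ∀ p, del (z20 p) = del (x20 p) := by
      intro p
      have : z20 p = x20 p - fun _ => w p := rfl
      rw [this, del_sub, del_const _ rfl, sub_zero]
    -- step 2
    let z11 : R.P 1 →+ C G 1 := x11 - (delH G 0).comp y10
    have hz11 : ∀ p, z11 p = x11 p - del (y10 p) := fun _ => rfl
    obtain ⟨y01, hy01e, hy01⟩ := pex N (R.d 0) z11 (fun n hn p s => by
      rw [hz11, hz11, Pi.sub_apply, Pi.sub_apply, hx11e n trivial]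
      congr 1
      unfold del
      refine Finset.sum_congr rfl fun k _ => ?_
      exact hy10e n hn p _) (fun q hq => by
      obtain ⟨q', rfl⟩ := (R.exact 0 q).1 hq
      rw [hz11, ← hx20', ← hy10, hdz20, sub_self])
    -- step 3
    let z02 : R.P 0 →+ C G 2 := x02 - (delH G 1).comp y01
    have hz02 : ∀ p, z02 p = x02 p - del (y01 p) := fun _ => rfl
    have hz02e : Eqv N z02 := fun n hn p s => by
      rw [hz02, hz02, Pi.sub_apply, Pi.sub_apply, hx02e n trivial]
      congr 1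
      unfold del
      refine Finset.sum_congr rfl fun k _ => ?_
      exact hy01e n hn p _
    have hz02k : ∀ p, R.ε p = 0 → z02 p = 0 := by
      intro p hp
      obtain ⟨q, rfl⟩ := (R.exact_zero p).1 hp
      rw [hz02, ← hx11', ← hy01, hz11, del_sub, del_del0]
      simp
    obtain ⟨p0, hp0⟩ := R.ε_surj 1
    have hE : ∀ n ∈ N, ∀ s, z02 p0 (fun i => n * s i) = z02 p0 s := by
      intro n hn s
      have h1 : z02 (u n • p0) = z02 p0 := by
        have h2 : z02 (u n • p0 - p0) = 0 := hz02k _ (by rw [map_sub, R.ε_inv, sub_self])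
        rw [map_sub, sub_eq_zero] at h2
        exact h2
      rw [← hz02e n hn p0 s, h1]
    have hdE : del (z02 p0) = hom3 f := by
      rw [hz02, del_sub, hx02, del_del1, sub_zero]
      funext s
      rw [hx03, hp0, one_mul]
    refine ⟨fun a b => z02 p0 ![1, a, a * b], fun a ha b hb c hc => ?_⟩
    have h1 := congrFun hdE ![1, a, a * b, a * b * c]
    change ∑ k : Fin 4, z02 p0 (fun i => (![1, a, a * b, a * b * c] : Fin 4 → G)
      (k.succAbove i)) = f ((1 : G)⁻¹ * a) (a⁻¹ * (a * b)) ((a * b)⁻¹ * (a * b * c)) at h1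
    rw [Fin.sum_univ_four] at h1
    have e0 : z02 p0 (fun i => (![1, a, a * b, a * b * c] : Fin 4 → G) ((0 : Fin 4).succAbove i)) =
        z02 p0 ![1, b, b * c] := by
      have h5 : z02 p0 ![1, b, b * c] =
          z02 p0 (fun i => a * (![1, b, b * c] : Fin 3 → G) i) := (hE a ha _).symm
      rw [h5]
      refine congrArg _ (funext fun i => ?_)
      fin_cases i
      · change a = a * 1
        rw [mul_one]
      · rfl
      · change a * b * c = a * (b * c)
        rw [mul_assoc]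
    have e1 : (fun i => (![1, a, a * b, a * b * c] : Fin 4 → G) ((1 : Fin 4).succAbove i)) =
        ![1, a * b, a * b * c] := by
      funext i; fin_cases i <;> rfl
    have e2 : (fun i => (![1, a, a * b, a * b * c] : Fin 4 → G) ((2 : Fin 4).succAbove i)) =
        ![1, a, a * (b * c)] := by
      funext i
      fin_cases i
      · rfl
      · rfl
      · change a * b * c = a * (b * c)
        rw [mul_assoc]
    have e3 : (fun i => (![1, a, a * b, a * b * c] : Fin 4 → G) ((3 : Fin 4).succAbove i)) =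
        ![1, a, a * b] := by
      funext i; fin_cases i <;> rfl
    rw [e0, e1, e2, e3] at h1
    have g1 : (1 : G)⁻¹ * a = a := by group
    have g2 : a⁻¹ * (a * b) = b := by group
    have g3 : (a * b)⁻¹ * (a * b * c) = c := by group
    rw [g1, g2, g3] at h1
    rw [← h1]
    linear_combination (z02 p0 ![1, a * b, a * b * c] + z02 p0 ![1, a, a * b]) * two_eq_zero'

end Pool.K3H
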