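import Pool.Agent.H59.K3.Core
import Pool.Agent.H59.K3.Zig

/-!
Transfer: from homomorphisms to the group ring, towers, and the restriction theorem.
-/

namespace Pool.K3H

open Function

/-- Restriction of 3-cocycles to a subgroup with vanishing transfer. -/
theorem restr {G : Type} [Group G] (R : PD4 G) {N : Subgroup G} (hN : TrZero N)
    {f : G → G → G → ZMod 2} (hf : Cocycle3 f) :
    ∃ e : G → G → ZMod 2, ∀ a ∈ N, ∀ b ∈ N, ∀ c ∈ N,
      f a b c = e b c - e (a * b) c + e a (b * c) - e a b := by
  obtain ⟨v, hv, hv0, h⟩ := zig R hf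
  obtain ⟨w, hw, hvw⟩ := core R N hN v hv hv0
  exact h N w hw hvw

section

variable {H : Type} [Group H] (N : Subgroup H)

/-- the cocycle of the action on cosets -/
noncomputable def nq (g : H) (q : H ⧸ N) : H := (g • q).out⁻¹ * (g * q.out)

theorem nq_mem (g : H) (q : H ⧸ N) : nq N g q ∈ N := by
  have h1 : ((g • q).out : H ⧸ N) = g • q := QuotientGroup.out_eq' _
  have h2 : ((g * q.out : H) : H ⧸ N) = g • q := by
    have : (q.out : H ⧸ N) = q := QuotientGroup.out_eq' _
    conv_rhs => rw [← this]
    rfl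
  exact QuotientGroup.eq.1 (h1.trans h2.symm)

theorem out_mul_nq (g : H) (q : H ⧸ N) : (g • q).out * nq N g q = g * q.out := by
  unfold nq
  group

/-- the value of a homomorphism on the transfer of `g` -/
noncomputable def trv [N.FiniteIndex] (ξ : Additive N →+ ZMod 2) (g : H) : ZMod 2 :=
  letI := Fintype.ofFinite (H ⧸ N)
  ∑ q : H ⧸ N, ξ (Additive.ofMul ⟨nq N g q, nq_mem N g q⟩)

open Classical in
theorem tau_nu [N.FiniteIndex] [Fintype (H ⧸ N)] (a : GA H) :
    tau N (a * ∑ q : H ⧸ N, u q.out) = aug a := by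
  induction a using GA.ind with
  | h0 => simp
  | hu g =>
    rw [Finset.mul_sum, map_sum, aug_u]
    have : ∀ q : H ⧸ N, tau N (u g * u q.out) = if q = ((g⁻¹ : H) : H ⧸ N) then 1 else 0 := by
      intro q
      rw [← u_mul, tau_u]
      congr 1
      apply propext
      have h1 : (q.out : H ⧸ N) = q := QuotientGroup.out_eq' _
      constructor
      · intro h
        rw [← h1, eq_comm, QuotientGroup.eq]
        simpa using h
      · intro h
        rw [← h1, eq_comm, QuotientGroup.eq] at h
        simpa using h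
    rw [Finset.sum_congr rfl fun q _ => this q]
    simp
  | hadd a b ha hb => rw [add_mul, map_add, map_add, ha, hb]

theorem sub_one_mul_nu [N.FiniteIndex] [Fintype (H ⧸ N)] (g : H) :
    (u g - 1) * ∑ q : H ⧸ N, (u q.out : GA H) =
      ∑ q : H ⧸ N, (u (g • q).out) * (u (nq N g q) - 1) := by
  rw [sub_mul, one_mul, Finset.mul_sum]
  have h1 : ∑ q : H ⧸ N, (u q.out : GA H) = ∑ q : H ⧸ N, u (g • q).out :=
    (Equiv.sum_comp (MulAction.toPerm g : Equiv.Perm (H ⧸ N)) fun q => (u q.out : GA H)).symm
  conv_lhs => rw [h1]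
  rw [← Finset.sum_sub_distrib]
  refine Finset.sum_congr rfl fun q _ => ?_
  rw [← u_mul, ← out_mul_nq, u_mul, mul_sub, mul_one]

/-- Vanishing on all homomorphisms `N → F₂` gives vanishing in the group ring. -/
theorem trZero_of_hom [N.FiniteIndex] (h : ∀ (ξ : Additive N →+ ZMod 2) (g : H), trv N ξ g = 0) :
    TrZero N := by
  classical
  letI := Fintype.ofFinite (H ⧸ N)
  refine ⟨∑ q : H ⧸ N, u q.out, tau_nu N, fun g => ?_⟩
  rw [sub_one_mul_nu]
  have h1 : ∑ q : H ⧸ N, (u (g • q).out : GA H) * (u (nq N g q) - 1) =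
      ∑ q : H ⧸ N, (u (g • q).out - 1) * (u (nq N g q) - 1) +
      ∑ q : H ⧸ N, ((u (nq N g q) : GA H) - 1) := by
    rw [← Finset.sum_add_distrib]
    refine Finset.sum_congr rfl fun q _ => ?_
    rw [sub_mul, one_mul]
    abel
  rw [h1]
  refine add_mem (sum_mem fun q _ => AddSubgroup.subset_closure
    ⟨_, _, nq_mem N g q, rfl⟩) ?_
  -- functionals on the quotient
  by_contra hc
  let X := GA H ⧸ J N
  have h2 : ∀ x : X, 2 • x = 0 := by
    intro x
    obtain ⟨a, rfl⟩ := QuotientAddGroup.mk_surjective x
    change ((2 • a : GA H) : X) = 0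
    rw [two_smul_GA H a]
    rfl
  let _ : Module (ZMod 2) X := AddCommGroup.zmodModule h2
  let θ : Additive N →+ X :=
    { toFun := fun n => (((u ((n.toMul : N) : H) : GA H) - 1 : GA H) : X)
      map_zero' := by
        change ((u (1 : H) - 1 : GA H) : X) = 0
        rw [u_one, sub_self]
        rfl
      map_add' := fun n m => by
        change ((u (((n.toMul : N) : H) * ((m.toMul : N) : H)) - 1 : GA H) : X) =
          ((u ((n.toMul : N) : H) - 1 : GA H) : X) + ((u ((m.toMul : N) : H) - 1 : GA H) : X)
        rw [← QuotientAddGroup.mk_add, QuotientAddGroup.eq]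
        have : -(u (((n.toMul : N) : H) * ((m.toMul : N) : H)) - 1 : GA H) +
            ((u ((n.toMul : N) : H) - 1) + (u ((m.toMul : N) : H) - 1)) =
            -((u ((n.toMul : N) : H) - 1) * (u ((m.toMul : N) : H) - 1)) := by
          rw [u_mul]
          noncomm_ring
        rw [this]
        exact neg_mem (AddSubgroup.subset_closure ⟨_, _, (m.toMul : N).2, rfl⟩) }
  set y : X := ((∑ q : H ⧸ N, ((u (nq N g q) : GA H) - 1) : GA H) : X) with hy
  have hy0 : y ≠ 0 := by
    intro h
    exact hc ((QuotientAddGroup.eq_zero_iff _).1 h)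
  obtain ⟨L, hL⟩ : ∃ L : Module.Dual (ZMod 2) X, L y ≠ 0 := by
    by_contra hno
    push Not at hno
    exact hy0 ((Module.forall_dual_apply_eq_zero_iff (ZMod 2) y).1 hno)
  have h3 := h (L.toAddMonoidHom.comp θ) g
  apply hL
  have h4 : y = ∑ q : H ⧸ N, θ (Additive.ofMul ⟨nq N g q, nq_mem N g q⟩) := by
    rw [hy]
    exact map_sum (QuotientAddGroup.mk' (J N)) _ _
  rw [h4, map_sum]
  exact h3

end

/-- the embedding of group rings -/
noncomputable def iota {G : Type} [Group G] (H : Subgroup G) : GA H →ₐ[ZMod 2] GA G :=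
  MonoidAlgebra.lift (ZMod 2) (GA G) H ((MonoidAlgebra.of (ZMod 2) G).comp H.subtype)

@[simp] theorem iota_u {G : Type} [Group G] (H : Subgroup G) (h : H) :
    iota H (u h) = u (h : G) := by
  unfold iota u
  rw [MonoidAlgebra.lift_of]
  rfl

/-- vanishing transfer in towers -/
theorem trZero_tower {G : Type} [Group G] (H : Subgroup G) [H.FiniteIndex] (N : Subgroup H)
    (hN : TrZero N) : TrZero (N.map H.subtype) := by
  classical
  letI := Fintype.ofFinite (G ⧸ H)
  obtain ⟨ν, hν1, hν2⟩ := hN
  have hJ : ∀ x ∈ J N, ∀ g : G, u g * iota H x ∈ J (N.map H.subtype) := by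
    intro x hx g
    induction hx using AddSubgroup.closure_induction with
    | mem x hx =>
      obtain ⟨k, n, hn, rfl⟩ := hx
      rw [map_mul, map_sub, map_sub, map_one, iota_u, iota_u, ← mul_assoc]
      have e1 : u g * (u (k : G) - 1) = (u (g * k) - 1 : GA G) - (u g - 1) := by
        rw [u_mul]
        noncomm_ring
      rw [e1, sub_mul]
      exact sub_mem (AddSubgroup.subset_closure ⟨_, _, ⟨n, hn, rfl⟩, rfl⟩)
        (AddSubgroup.subset_closure ⟨_, _, ⟨n, hn, rfl⟩, rfl⟩)
    | zero => rw [map_zero, mul_zero]; exact zero_mem _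
    | add x y _ _ hx hy => rw [map_add, mul_add]; exact add_mem hx hy
    | neg x _ hx => rw [map_neg, mul_neg]; exact neg_mem hx
  have htau : ∀ x : GA H, tau (N.map H.subtype) (iota H x) = tau N x := by
    intro x
    induction x using GA.ind with
    | h0 => simp
    | hu h =>
      rw [iota_u, tau_u, tau_u]
      congr 1
      apply propext
      constructor
      · rintro ⟨n, hn, hnh⟩
        have : n = h := Subtype.ext hnh
        rwa [← this]
      · intro hh
        exact ⟨h, hh, rfl⟩
    | hadd a b ha hb => rw [map_add, map_add, map_add, ha, hb]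
  have htau2 : ∀ a : GA G, tau (N.map H.subtype) (a * iota H ν) = tau H a := by
    intro a
    induction a using GA.ind with
    | h0 => simp
    | hu g =>
      rw [tau_u]
      by_cases hg : g ∈ H
      · rw [if_pos hg]
        have : (u g : GA G) = iota H (u (⟨g, hg⟩ : H)) := by rw [iota_u]
        rw [this, ← map_mul, htau, hν1, aug_u]
      · rw [if_neg hg]
        have : ∀ x : GA H, tau (N.map H.subtype) (u g * iota H x) = 0 := by
          intro x
          induction x using GA.ind with
          | h0 => simp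
          | hu h =>
            rw [iota_u, ← u_mul, tau_u, if_neg]
            rintro ⟨n, _, hn⟩
            apply hg
            have h1 : g = (n : G) * (h : G)⁻¹ := by
              rw [show ((n : G)) = g * h from hn]
              group
            rw [h1]
            exact H.mul_mem n.2 (H.inv_mem h.2)
          | hadd a b ha hb => rw [map_add, mul_add, map_add, ha, hb, add_zero]
        exact this ν
    | hadd a b ha hb => rw [add_mul, map_add, map_add, ha, hb]
  refine ⟨(∑ q : G ⧸ H, u q.out) * iota H ν, fun a => ?_, fun g => ?_⟩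
  · rw [← mul_assoc, htau2, tau_nu]
  · rw [← mul_assoc, sub_one_mul_nu, Finset.sum_mul]
    refine sum_mem fun q _ => ?_
    have h1 : (u (nq H g q) - 1 : GA G) * iota H ν =
        iota H ((u (⟨nq H g q, nq_mem H g q⟩ : H) - 1) * ν) := by
      rw [map_mul, map_sub, map_one, iota_u]
    rw [mul_assoc, h1]
    exact hJ _ (hν2 _) _

end Pool.K3H
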